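import Pool.Agent.Lib.MP_f80667_ag.De.Stp

/-! Abel's theorem on a curve in the product. -/

open ZC BE PE CV NE

namespace DN.Q

variable {F F' : Type} [Field F] [Field F'] [Algebra F F'] {N n : ℕ} {ι : Type}
  {f : ι → MvPolynomial (Fin N) F} {W : Fin n → WeierstrassCurve F'} [∀ i, (W i).IsElliptic]
  {Φ : Fin N → MvPolynomial (Fin n ⊕ Fin n) F'} {h : MvPolynomial (Fin N) F} {D : ℕ} {K Ω : Type}
  [Field K] [CharZero K] [Field Ω] [Algebra K Ω] [IsAlgClosure K Ω] [Algebra F K] [Algebra F Ω]
  [IsScalarTower F K Ω] [Algebra F' K] [Algebra F' Ω] [IsScalarTower F' K Ω]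
  [IsScalarTower F F' K] [IsScalarTower F F' Ω]

omit [CharZero K] [IsAlgClosure K Ω] [Algebra F F'] [∀ i, (W i).IsElliptic] [Algebra F K]
  [Algebra F Ω] [IsScalarTower F K Ω] [IsScalarTower F F' K] [IsScalarTower F F' Ω]
  [Algebra K Ω] [Algebra F' Ω] [IsScalarTower F' K Ω] [Field Ω] in
private theorem crv_up (b : ∀ j, Pt (W j) K) (i : Fin n) (R₀ S : Pt (W i) K) :
    Function.update b i R₀ + il i (S - R₀) = Function.update b i S := by
  funext j
  rcases eq_or_ne j i with rfl | h
  · change Function.update b j R₀ j + il j (S - R₀) j = Function.update b j S j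
    unfold il
    rw [Function.update_self, Function.update_self, Pi.single_eq_same]
    abel
  · change Function.update b i R₀ j + il i (S - R₀) j = Function.update b i S j
    unfold il
    rw [Function.update_of_ne h, Function.update_of_ne h, Pi.single_eq_of_ne h, add_zero]

omit [∀ i, (W i).IsElliptic] [CharZero K] in
private theorem crv_sum (i : Fin n) (R₀ : Pt (W i) K) (l : List (Pt (W i) K)) :
    (l.map fun S => S - R₀).sum = l.sum - l.length • R₀ := by
  induction l with
  | nil => simp
  | cons a l ih =>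
    rw [List.map_cons, List.sum_cons, List.sum_cons, ih, List.length_cons, succ_nsmul]
    abel

/-- one list -/
private theorem crv_one (hD : Dom f W Φ h D) (o : (GX.Xf f).pt Ω) (b : ∀ j, Pt (W j) K) (i : Fin n)
    (l : List (Pt (W i) K)) (h₁ : ∀ S ∈ l, up Ω (Function.update b i S) ∈ Dn W Φ Ω)
    (R₀ : Pt (W i) K) (h₀ : up Ω (Function.update b i R₀) ∈ Dn W Φ Ω)
    (hne : ∀ S ∈ l, S ≠ R₀) (hs : (l.map fun S => S - R₀).sum = 0) :
    (l.map fun S => Finsupp.single (fv o Φ (up Ω (Function.update b i S))) (1 : ℤ)).sum -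
      Finsupp.single (fv o Φ (up Ω (Function.update b i R₀))) (l.length : ℤ) ∈
        (GX.Xf f).ratEq K Ω := by
  have h1 := stp_list hD o (Function.update b i R₀) i (l.map fun S => S - R₀)
    (by
      intro Q hQ
      obtain ⟨S, hS, rfl⟩ := List.mem_map.1 hQ
      exact sub_ne_zero.2 (hne S hS)) hs h₀
    (by
      intro Q hQ
      obtain ⟨S, hS, rfl⟩ := List.mem_map.1 hQ
      rw [crv_up]
      exact h₁ S hS)
  rw [List.length_map, List.map_map] at h1
  have e1 : ((fun Q => Finsupp.single (fv o Φ (up Ω (Function.update b i R₀ + il i Q))) (1 : ℤ)) ∘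
      fun S => S - R₀) =
      fun S => Finsupp.single (fv o Φ (up Ω (Function.update b i S))) (1 : ℤ) := by
    funext S
    rw [Function.comp_apply, crv_up]
  rw [e1] at h1
  exact h1

/-- **Abel's theorem on the curve of the points with the coordinates of `b` except the one with the number `i`.** Proof: `P = Function.update b i R₀`; `P + il i (S - R₀) = Function.update b i S`; `q = l₁.sum - r R₀` is the sum of the `S - R₀` for `S ∈ l₁`, `r` the length, and also that for `l₂`. If `q = 0`:
`stp_list` for the lists of the `S - R₀`. Otherwise `stp_list` for these lists with `- q` added; `P + il i (- q) = Function.update b i ((r + 1) R₀ - l₁.sum)`. Subtract. -/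
theorem crv (hD : Dom f W Φ h D) (o : (GX.Xf f).pt Ω) (b : ∀ j, Pt (W j) K) (i : Fin n)
    (l₁ l₂ : List (Pt (W i) K)) (hlen : l₁.length = l₂.length) (hsum : l₁.sum = l₂.sum)
    (h₁ : ∀ S ∈ l₁, up Ω (Function.update b i S) ∈ Dn W Φ Ω)
    (h₂ : ∀ S ∈ l₂, up Ω (Function.update b i S) ∈ Dn W Φ Ω) (R₀ : Pt (W i) K)
    (h₀ : up Ω (Function.update b i R₀) ∈ Dn W Φ Ω)
    (h₀' : up Ω (Function.update b i ((l₁.length + 1) • R₀ - l₁.sum)) ∈ Dn W Φ Ω)
    (hne : ∀ S ∈ l₁ ++ l₂, S ≠ R₀) :
    (l₁.map fun S => Finsupp.single (fv o Φ (up Ω (Function.update b i S))) (1 : ℤ)).sum -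
      (l₂.map fun S => Finsupp.single (fv o Φ (up Ω (Function.update b i S))) (1 : ℤ)).sum ∈
        (GX.Xf f).ratEq K Ω := by
  have hs₁ := crv_sum i R₀ l₁
  have hs₂ := crv_sum i R₀ l₂
  rw [← hlen, ← hsum] at hs₂
  by_cases hq : l₁.sum - l₁.length • R₀ = 0
  · rw [hq] at hs₁ hs₂
    have h1 := crv_one hD o b i l₁ h₁ R₀ h₀ (fun S hS => hne S (List.mem_append_left _ hS)) hs₁
    have h2 := crv_one hD o b i l₂ h₂ R₀ h₀ (fun S hS => hne S (List.mem_append_right _ hS)) hs₂
    rw [← hlen] at h2
    have h3 := AddSubgroup.sub_mem _ h1 h2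
    rw [sub_sub_sub_cancel_right] at h3
    exact h3
  · set T : Pt (W i) K := (l₁.length + 1) • R₀ - l₁.sum with hT
    have hT1 : T - R₀ = - (l₁.sum - l₁.length • R₀) := by
      rw [hT, succ_nsmul]
      abel
    have hT2 : T ≠ R₀ := by
      intro h
      apply hq
      rw [← neg_eq_zero, ← hT1, h, sub_self]
    have h1 := crv_one hD o b i (T :: l₁)
      (by
        intro S hS
        rcases List.mem_cons.1 hS with rfl | hS
        · exact h₀'
        · exact h₁ S hS) R₀ h₀
      (by
        intro S hS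
        rcases List.mem_cons.1 hS with rfl | hS
        · exact hT2
        · exact hne S (List.mem_append_left _ hS))
      (by rw [List.map_cons, List.sum_cons, hs₁, hT1]; abel)
    have h2 := crv_one hD o b i (T :: l₂)
      (by
        intro S hS
        rcases List.mem_cons.1 hS with rfl | hS
        · exact h₀'
        · exact h₂ S hS) R₀ h₀
      (by
        intro S hS
        rcases List.mem_cons.1 hS with rfl | hS
        · exact hT2
        · exact hne S (List.mem_append_right _ hS))
      (by rw [List.map_cons, List.sum_cons, hs₂, hT1]; abel)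
    rw [List.length_cons, List.map_cons, List.sum_cons] at h1 h2
    rw [← hlen] at h2
    have h3 := AddSubgroup.sub_mem _ h1 h2
    rw [sub_sub_sub_cancel_right, add_sub_add_left_eq_sub] at h3
    exact h3

end DN.Q
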