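import Pool.Agent.Lib.MP_f80667_ag.De.Gen
import Pool.Agent.Lib.MP_f80667_ag.De.Crv
import Pool.Agent.Lib.MP_f80667_ag.Do.Gnc
import Pool.Agent.Lib.MP_f80667_ag.Do.Fv
import Pool.Agent.Lib.MP_f80667_ag.Cv.Tc
import Pool.Agent.Lib.MP_f80667_ag.Cv.MdL

/-! The push-forward of the cycles `B` is additive up to powers of two. -/

open ZC BE PE CV NE

namespace DN.Q

variable {F : Type} [Field F] [CharZero F] {N n : ℕ} {ι : Type}
  {f : ι → MvPolynomial (Fin N) F} {W : Fin n → WeierstrassCurve F} [∀ i, (W i).IsElliptic]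
  {Φ : Fin N → MvPolynomial (Fin n ⊕ Fin n) F} {h : MvPolynomial (Fin N) F} {D : ℕ} {Ω : Type}
  [Field Ω] [Algebra F Ω] [IsAlgClosure F Ω]

/-- The points of `Bb R i y` are in the domain. -/
def Okr (Φ : Fin N → MvPolynomial (Fin n ⊕ Fin n) F) (R : ∀ i, Pt (W i) Ω) (i : Fin n)
    (y : Pt (W i) Ω) : Prop :=
  (∀ j, ∃ a : F, Xr a (R j)) ∧ ∀ e, sg R e ∈ Dn W Φ Ω ∧ sg R e + il i y ∈ Dn W Φ Ω

private theorem ad_sg (R : ∀ i, Pt (W i) Ω) (i : Fin n) (S : Pt (W i) Ω) (e : Fin n → Bool) :
    sg (Function.update R i S) e = Function.update (sg R e) i (if e i then -S else S) := by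
  funext j
  rcases eq_or_ne j i with rfl | h
  · rw [Function.update_self]
    unfold sg
    rw [Function.update_self]
  · rw [Function.update_of_ne h]
    unfold sg
    rw [Function.update_of_ne h]

private theorem ad_il (Q : ∀ i, Pt (W i) Ω) (i : Fin n) (S y : Pt (W i) Ω) :
    Function.update Q i S + il i y = Function.update Q i (S + y) := by
  funext j
  rcases eq_or_ne j i with rfl | h
  · change Function.update Q j S j + il j y j = _
    rw [Function.update_self, Function.update_self]
    unfold il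
    rw [Pi.single_eq_same]
  · change Function.update Q i S j + il i y j = _
    rw [Function.update_of_ne h, Function.update_of_ne h]
    unfold il
    rw [Pi.single_eq_of_ne h, add_zero]

private theorem ad_flip (R : ∀ i, Pt (W i) Ω) (i : Fin n) (S : Pt (W i) Ω) (e : Fin n → Bool)
    (c : Bool) :
    Function.update (sg R (Function.update e i c)) i S = Function.update (sg R e) i S := by
  funext j
  rcases eq_or_ne j i with rfl | h
  · rw [Function.update_self, Function.update_self]
  · rw [Function.update_of_ne h, Function.update_of_ne h]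
    unfold sg
    rw [Function.update_of_ne h]

private theorem ad_dn {R : ∀ i, Pt (W i) Ω} {i : Fin n} {S Y : Pt (W i) Ω}
    (h : Okr Φ (Function.update R i S) i Y) (e : Fin n → Bool) :
    Function.update (sg R e) i S ∈ Dn W Φ Ω ∧ Function.update (sg R e) i (-S) ∈ Dn W Φ Ω ∧
      Function.update (sg R e) i (S + Y) ∈ Dn W Φ Ω ∧
        Function.update (sg R e) i (-S + Y) ∈ Dn W Φ Ω := by
  obtain ⟨h1, h2⟩ := h.2 (Function.update e i false)
  obtain ⟨h3, h4⟩ := h.2 (Function.update e i true)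
  rw [ad_sg, ad_flip, Function.update_self] at h1 h2 h3 h4
  rw [ad_il] at h2 h4
  rw [if_neg Bool.false_ne_true] at h1 h2
  rw [if_pos rfl] at h3 h4
  exact ⟨h1, h3, h2, h4⟩

private theorem ad_sum {G : Type} [AddCommGroup G] (R : ∀ i, Pt (W i) Ω) (i : Fin n)
    (S Y : Pt (W i) Ω) (g : (∀ i, Pt (W i) Ω) → G) :
    (∑ e : Fin n → Bool, (g (sg (Function.update R i S) e + il i Y) -
      g (sg (Function.update R i S) e))) +
    (∑ e : Fin n → Bool, (g (sg (Function.update R i S) e + il i Y) -
      g (sg (Function.update R i S) e))) =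
    ∑ e : Fin n → Bool, (g (Function.update (sg R e) i (S + Y)) +
      g (Function.update (sg R e) i (-S + Y)) - g (Function.update (sg R e) i S) -
        g (Function.update (sg R e) i (-S))) := by
  have hinv : Function.Involutive fun e : Fin n → Bool => Function.update e i (!(e i)) := by
    intro e
    funext j
    rcases eq_or_ne j i with rfl | h
    · simp
    · simp [Function.update_of_ne h]
  have h1 := Equiv.sum_comp hinv.toPerm fun e : Fin n → Bool =>
    g (sg (Function.update R i S) e + il i Y) - g (sg (Function.update R i S) e)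
  nth_rewrite 2 [← h1]
  rw [← Finset.sum_add_distrib]
  refine Finset.sum_congr rfl fun e _ => ?_
  change g (sg (Function.update R i S) e + il i Y) - g (sg (Function.update R i S) e) +
    (g (sg (Function.update R i S) (Function.update e i (!(e i))) + il i Y) -
      g (sg (Function.update R i S) (Function.update e i (!(e i))))) = _
  rw [ad_sg, ad_sg, ad_il, ad_flip, ad_il, Function.update_self]
  cases e i
  · simp only [Bool.false_eq_true, if_false, Bool.not_false, if_true]
    abel
  · simp only [if_true, Bool.not_true, Bool.false_eq_true, if_false]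
    abel

private theorem ad_map (o : (GX.Xf f).pt Ω) (R : ∀ i, Pt (W i) Ω) (i : Fin n) (Y : Pt (W i) Ω) :
    Finsupp.mapDomain (fv o Φ) (Bb R i Y) =
      ∑ e : Fin n → Bool, (Finsupp.single (fv o Φ (sg R e + il i Y)) (1 : ℤ) -
        Finsupp.single (fv o Φ (sg R e)) 1) := by
  change Finsupp.mapDomain.addMonoidHom (fv (f := f) o Φ) (Bb R i Y) = _
  unfold Bb
  rw [map_sum]
  refine Finset.sum_congr rfl fun e _ => ?_
  rw [map_sub]
  congr 1
  · exact Finsupp.mapDomain_single
  · exact Finsupp.mapDomain_single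

private theorem ad_supp {R : ∀ i, Pt (W i) Ω} {i : Fin n} {Y : Pt (W i) Ω}
    {Q : ∀ i, Pt (W i) Ω} (hQ : Q ∈ (Bb R i Y).support) :
    ∃ e, Q = sg R e + il i Y ∨ Q = sg R e := by
  by_contra hn
  push Not at hn
  apply Finsupp.mem_support_iff.1 hQ
  unfold Bb
  rw [Finsupp.finsetSum_apply]
  refine Finset.sum_eq_zero fun e _ => ?_
  rw [Finsupp.sub_apply, Finsupp.single_eq_of_ne (hn e).1, Finsupp.single_eq_of_ne (hn e).2,
    sub_zero]

/-- The push-forward is a cycle over `F`. Proof: `bb_D0`, `tr_mem` (`Do/Fv.lean`) for the point `0`. -/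
theorem okr_D0 (hD : Dom f W Φ h D) (o : (GX.Xf f).pt Ω) {R : ∀ i, Pt (W i) Ω} {i : Fin n}
    {y : Pt (W i) F} (hR : Okr Φ R i (uq Ω y)) :
    Finsupp.mapDomain (fv o Φ) (Bb R i (uq Ω y)) ∈ (GX.Xf f).D0 F Ω := by
  have h0 := bb_D0 (Ω := Ω) hR.1 i y
  have e0 : up Ω (0 : ∀ i, Pt (W i) F) = 0 := funext fun i => map_zero (Pt.map (W i) _)
  have h1 := tr_mem (K := F) hD o h0 0 fun Q hQ => by
    rw [e0, add_zero]
    obtain ⟨e, rfl | rfl⟩ := ad_supp hQ
    · exact (hR.2 e).2
    · exact (hR.2 e).1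
  have e1 : (fun Q : ∀ i, Pt (W i) Ω => fv (f := f) o Φ (Q + up Ω (0 : ∀ i, Pt (W i) F))) =
      fv o Φ := by
    funext Q
    rw [e0, add_zero]
  rw [e1] at h1
  exact h1

private theorem ad_up {M : Type} [Field M] [Algebra F M] [Algebra M Ω] [IsScalarTower F M Ω]
    (b : ∀ j, Pt (W j) M) (i : Fin n) (S : Pt (W i) M) :
    up Ω (Function.update b i S) =
      Function.update (up Ω b) i (Pt.map (W i) (IsScalarTower.toAlgHom F M Ω) S) := by
  funext j
  rcases eq_or_ne j i with rfl | h
  · rw [Function.update_self]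
    unfold up
    rw [Function.update_self]
  · rw [Function.update_of_ne h]
    unfold up
    rw [Function.update_of_ne h]

private theorem ad_uq {M : Type} [Field M] [Algebra F M] [Algebra M Ω] [IsScalarTower F M Ω]
    {V : WeierstrassCurve F} (y : Pt V F) :
    Pt.map V (IsScalarTower.toAlgHom F M Ω) (uq M y) = uq Ω y := by
  unfold uq
  rw [Pt.map_map']
  have e : (IsScalarTower.toAlgHom F M Ω).comp (IsScalarTower.toAlgHom F F M) =
      IsScalarTower.toAlgHom F F Ω :=
    AlgHom.ext fun a => (IsScalarTower.algebraMap_apply F M Ω a).symm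
  rw [e]

private theorem ad_fin (V : WeierstrassCurve F) [V.IsElliptic] {k : ℕ} (hk : k ≠ 0)
    (Y P : Pt V Ω) : {Q : Pt V Ω | k • Q - Y = P}.Finite := by
  have hac : IsAlgClosed Ω := IsAlgClosure.isAlgClosed F
  have hcz : CharZero Ω := charZero_of_injective_algebraMap (algebraMap F Ω).injective
  have hcl : IsAlgClosure Ω Ω := ⟨hac, inferInstance⟩
  have h1 := mul_fin (K := Ω) (Ω := Ω) V hk (-Y) P
  refine h1.subset fun Q hQ => ?_
  have h2 : k • Q - Y = P := hQ
  have h3 : Pt.map V (IsScalarTower.toAlgHom F Ω Ω) Q = Q := by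
    have e : IsScalarTower.toAlgHom F Ω Ω = AlgHom.id F Ω := by
      ext a
      rfl
    rw [e]
    exact Pt.map_id' V Q
  change -Y + k • Pt.map V (IsScalarTower.toAlgHom F Ω Ω) Q = P
  rw [h3, ← h2]
  abel

/-- **Additivity.** `R` with another coordinate number `i` for each of the three terms. Proof: let `Z` be the cycle. Choose `R₀` by `exists_gi` for the maps `Q ↦ Q` and `Q ↦ (2 m + 5) Q - 2 y'` (finite fibres: `mul_fin` in `Do/Gnc.lean` or torsion is finite), different from the points `± R₁ + y'`,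
`± R₂`, `± R₃`, `± R₁`, `± R₂ + y`, `± R₃ + u`. `exists_fld`: all `R j` (`j ≠ i`), `R₁`, `R₂`, `R₃`, `R₀` come from points over `M` with `[M : F] = 2 ^ k`. For every `e` the cycle `Z_e` = sum over the two signs of the terms of `Z` with the coordinates `sg R e` except number `i` is in `ratEq M Ω`:
`crv` over `M` for `b = sg R e` and the lists `[R₁ + y', - R₁ + y', R₂, - R₂] ++ m` times `R₃, - R₃`, and `[R₁, - R₁, R₂ + y, - R₂ + y] ++ m` times `R₃ + u, - R₃ + u` (length `4 + 2 m`, sums `2 y'` and `2 y + 2 m u`). `∑ Z_e = 2 Z` (every term is counted for the two values of `e i`).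
`Z` is a cycle over `F` (`okr_D0`): `vtr_res`, `tr_ratEqV` (`Cv/Tc.lean`) for `M`: `[M : F] 2 Z` is in `ratEq F Ω`. -/
theorem add_bb (hD : Dom f W Φ h D) (o : (GX.Xf f).pt Ω) (R : ∀ i, Pt (W i) Ω)
    (hR : ∀ j, ∃ a : F, Xr a (R j)) (hRe : ∀ e, sg R e ∈ Dn W Φ Ω) (i : Fin n) {m : ℕ}
    {y y' u : Pt (W i) F} (hy : y' = y + m • u) {R₁ R₂ R₃ : Pt (W i) Ω}
    (h₁ : Okr Φ (Function.update R i R₁) i (uq Ω y'))
    (h₂ : Okr Φ (Function.update R i R₂) i (uq Ω y))
    (h₃ : Okr Φ (Function.update R i R₃) i (uq Ω u)) :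
    ∃ k : ℕ, 2 ^ k • (Finsupp.mapDomain (fv o Φ) (Bb (Function.update R i R₁) i (uq Ω y')) -
      Finsupp.mapDomain (fv o Φ) (Bb (Function.update R i R₂) i (uq Ω y)) -
        m • Finsupp.mapDomain (fv o Φ) (Bb (Function.update R i R₃) i (uq Ω u))) ∈
          (GX.Xf f).ratEq F Ω := by
  classical
  have hac : IsAlgClosed Ω := IsAlgClosure.isAlgClosed F
  have hcz : CharZero Ω := charZero_of_injective_algebraMap (algebraMap F Ω).injective
  have hz₁ := (okr_D0 hD o h₁).1
  have hz₂ := (okr_D0 hD o h₂).1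
  have hz₃ := (okr_D0 hD o h₃).1
  have hY : (uq Ω y' : Pt (W i) Ω) = uq Ω y + m • uq Ω u := by
    rw [hy]
    unfold uq
    rw [map_add, map_nsmul]
  obtain ⟨R₀, hR₀, hR₀Z, hR₀d⟩ := exists_gi (Φ := Φ) hRe i (κ := Bool)
    (fun c Q => if c then (2 * m + 5) • Q - 2 • uq Ω y' else Q) (by
      rintro (_ | _) P
      · simp only [Bool.false_eq_true, if_false]
        exact Set.finite_singleton P
      · simp only [if_true]
        exact ad_fin (W i) (by omega) _ P)
    (Z := {R₁ + uq Ω y', -R₁ + uq Ω y', R₂, -R₂, R₃, -R₃, R₁, -R₁, R₂ + uq Ω y, -R₂ + uq Ω y,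
      R₃ + uq Ω u, -R₃ + uq Ω u}) (Set.toFinite _)
  obtain ⟨M, hMf, ⟨k, hk⟩, hM⟩ : ∃ M : IntermediateField F Ω, FiniteDimensional F M ∧
      (∃ k : ℕ, Module.finrank F M = 2 ^ k) ∧
      ((∀ j, ∃ R' : Pt (W j) M, Pt.map (W j) (IsScalarTower.toAlgHom F M Ω) R' = R j) ∧
        (∃ R' : Pt (W i) M, Pt.map (W i) (IsScalarTower.toAlgHom F M Ω) R' = R₀) ∧
        (∃ R' : Pt (W i) M, Pt.map (W i) (IsScalarTower.toAlgHom F M Ω) R' = R₁) ∧
        (∃ R' : Pt (W i) M, Pt.map (W i) (IsScalarTower.toAlgHom F M Ω) R' = R₂) ∧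
        (∃ R' : Pt (W i) M, Pt.map (W i) (IsScalarTower.toAlgHom F M Ω) R' = R₃)) := by
    let V : Fin n ⊕ Fin 4 → WeierstrassCurve F := fun j => match j with
      | Sum.inl j => W j
      | Sum.inr _ => W i
    have hV : ∀ j, (V j).IsElliptic := by
      rintro (j | j)
      · exact inferInstanceAs (W j).IsElliptic
      · exact inferInstanceAs (W i).IsElliptic
    let T : ∀ j, Pt (V j) Ω := fun j => match j with
      | Sum.inl j => R j
      | Sum.inr t => (![R₀, R₁, R₂, R₃] t : Pt (W i) Ω)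
    have g₁ := h₁.1 i
    have g₂ := h₂.1 i
    have g₃ := h₃.1 i
    rw [Function.update_self] at g₁ g₂ g₃
    have hT : ∀ j, ∃ a : F, Xr a (T j) := by
      rintro (j | t)
      · exact hR j
      · fin_cases t
        · exact hR₀
        · exact g₁
        · exact g₂
        · exact g₃
    obtain ⟨M, hMf, hk, hM⟩ := exists_fld V T hT
    exact ⟨M, hMf, hk, fun j => hM (Sum.inl j), hM (Sum.inr 0), hM (Sum.inr 1),
      hM (Sum.inr 2), hM (Sum.inr 3)⟩
  obtain ⟨hMR, ⟨S₀, hS₀⟩, ⟨S₁, hS₁⟩, ⟨S₂, hS₂⟩, ⟨S₃, hS₃⟩⟩ := hM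
  choose R' hR' using hMR
  have hMc : IsAlgClosure M Ω := algClM M
  have hMz : CharZero M := charM M
  have hy'M : Pt.map (W i) (IsScalarTower.toAlgHom F M Ω) (uq M y') = uq Ω y' := ad_uq y'
  have hyM : Pt.map (W i) (IsScalarTower.toAlgHom F M Ω) (uq M y) = uq Ω y := ad_uq y
  have huM : Pt.map (W i) (IsScalarTower.toAlgHom F M Ω) (uq M u) = uq Ω u := ad_uq u
  have hYM : (uq M y' : Pt (W i) M) = uq M y + m • uq M u := by
    rw [hy]
    unfold uq
    rw [map_add, map_nsmul]
  have key : ∀ e : Fin n → Bool,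
      ((Finsupp.single (fv o Φ (Function.update (sg R e) i (R₁ + uq Ω y'))) (1 : ℤ) +
        Finsupp.single (fv o Φ (Function.update (sg R e) i (-R₁ + uq Ω y'))) 1 -
        Finsupp.single (fv o Φ (Function.update (sg R e) i R₁)) 1 -
        Finsupp.single (fv o Φ (Function.update (sg R e) i (-R₁))) 1) -
      (Finsupp.single (fv o Φ (Function.update (sg R e) i (R₂ + uq Ω y))) (1 : ℤ) +
        Finsupp.single (fv o Φ (Function.update (sg R e) i (-R₂ + uq Ω y))) 1 -
        Finsupp.single (fv o Φ (Function.update (sg R e) i R₂)) 1 -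
        Finsupp.single (fv o Φ (Function.update (sg R e) i (-R₂))) 1) -
      m • (Finsupp.single (fv o Φ (Function.update (sg R e) i (R₃ + uq Ω u))) (1 : ℤ) +
        Finsupp.single (fv o Φ (Function.update (sg R e) i (-R₃ + uq Ω u))) 1 -
        Finsupp.single (fv o Φ (Function.update (sg R e) i R₃)) 1 -
        Finsupp.single (fv o Φ (Function.update (sg R e) i (-R₃))) 1)) ∈
          (GX.Xf f).ratEq M Ω := by
    intro e
    obtain ⟨b, hb⟩ : ∃ b : ∀ j, Pt (W j) M, up Ω b = sg R e := by
      refine ⟨fun j => if e j then -R' j else R' j, funext fun j => ?_⟩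
      change Pt.map (W j) (IsScalarTower.toAlgHom F M Ω) (if e j then -R' j else R' j) =
        if e j then -R j else R j
      split_ifs
      · rw [map_neg, hR']
      · exact hR' j
    have hub : ∀ S : Pt (W i) M, up Ω (Function.update b i S) = Function.update (sg R e) i
        (Pt.map (W i) (IsScalarTower.toAlgHom F M Ω) S) := by
      intro S
      rw [ad_up, hb]
    obtain ⟨d1, d2, d3, d4⟩ := ad_dn h₁ e
    obtain ⟨d5, d6, d7, d8⟩ := ad_dn h₂ e
    obtain ⟨d9, d10, d11, d12⟩ := ad_dn h₃ e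
    have hs1 : ((S₁ + uq M y') :: (-S₁ + uq M y') :: S₂ :: (-S₂) ::
        (List.replicate m S₃ ++ List.replicate m (-S₃))).sum = 2 • uq M y' := by
      simp only [List.sum_cons, List.sum_append, List.sum_replicate]
      module
    have h := crv hD o b i ((S₁ + uq M y') :: (-S₁ + uq M y') :: S₂ :: (-S₂) ::
        (List.replicate m S₃ ++ List.replicate m (-S₃)))
      (S₁ :: (-S₁) :: (S₂ + uq M y) :: (-S₂ + uq M y) ::
        (List.replicate m (S₃ + uq M u) ++ List.replicate m (-S₃ + uq M u)))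
      (by simp) (by
        rw [hs1, hYM]
        simp only [List.sum_cons, List.sum_append, List.sum_replicate]
        module) ?_ ?_ S₀ ?_ ?_ ?_
    · simp only [List.map_cons, List.map_append, List.map_replicate, List.sum_cons,
        List.sum_append, List.sum_replicate, hub, map_add, map_neg, hS₁, hS₂, hS₃, hy'M, hyM,
        huM] at h
      refine (congrArg (fun z => z ∈ (GX.Xf f).ratEq M Ω) ?_).mp h
      module
    · intro S hS
      rw [hub]
      simp only [List.mem_cons, List.mem_append] at hS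
      rcases hS with rfl | rfl | rfl | rfl | hS | hS
      · rw [map_add, hS₁, hy'M]
        exact d3
      · rw [map_add, map_neg, hS₁, hy'M]
        exact d4
      · rw [hS₂]
        exact d5
      · rw [map_neg, hS₂]
        exact d6
      · rw [List.eq_of_mem_replicate hS, hS₃]
        exact d9
      · rw [List.eq_of_mem_replicate hS, map_neg, hS₃]
        exact d10
    · intro S hS
      rw [hub]
      simp only [List.mem_cons, List.mem_append] at hS
      rcases hS with rfl | rfl | rfl | rfl | hS | hS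
      · rw [hS₁]
        exact d1
      · rw [map_neg, hS₁]
        exact d2
      · rw [map_add, hS₂, hyM]
        exact d7
      · rw [map_add, map_neg, hS₂, hyM]
        exact d8
      · rw [List.eq_of_mem_replicate hS, map_add, hS₃, huM]
        exact d11
      · rw [List.eq_of_mem_replicate hS, map_add, map_neg, hS₃, huM]
        exact d12
    · rw [hub, hS₀]
      exact hR₀d false e
    · rw [hub, hs1, map_sub, map_nsmul, map_nsmul, hS₀, hy'M]
      have hl : ((S₁ + uq M y') :: (-S₁ + uq M y') :: S₂ :: (-S₂) ::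
        (List.replicate m S₃ ++ List.replicate m (-S₃))).length + 1 = 2 * m + 5 := by
        simp only [List.length_cons, List.length_append, List.length_replicate]
        omega
      rw [hl]
      exact hR₀d true e
    · intro S hS h0
      apply hR₀Z
      rw [← hS₀, ← h0]
      simp only [List.mem_append, List.mem_cons] at hS
      simp only [Set.mem_insert_iff, Set.mem_singleton_iff]
      rcases hS with (rfl | rfl | rfl | rfl | hS | hS) | (rfl | rfl | rfl | rfl | hS | hS)
      · rw [map_add, hS₁, hy'M]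
        tauto
      · rw [map_add, map_neg, hS₁, hy'M]
        tauto
      · rw [hS₂]
        tauto
      · rw [map_neg, hS₂]
        tauto
      · rw [List.eq_of_mem_replicate hS, hS₃]
        tauto
      · rw [List.eq_of_mem_replicate hS, map_neg, hS₃]
        tauto
      · rw [hS₁]
        tauto
      · rw [map_neg, hS₁]
        tauto
      · rw [map_add, hS₂, hyM]
        tauto
      · rw [map_add, map_neg, hS₂, hyM]
        tauto
      · rw [List.eq_of_mem_replicate hS, map_add, hS₃, huM]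
        tauto
      · rw [List.eq_of_mem_replicate hS, map_add, map_neg, hS₃, huM]
        tauto
  obtain ⟨Z, hZ⟩ : ∃ Z, Z = Finsupp.mapDomain (fv (f := f) o Φ)
      (Bb (Function.update R i R₁) i (uq Ω y')) -
      Finsupp.mapDomain (fv o Φ) (Bb (Function.update R i R₂) i (uq Ω y)) -
        m • Finsupp.mapDomain (fv o Φ) (Bb (Function.update R i R₃) i (uq Ω u)) := ⟨_, rfl⟩
  have hsum : Z + Z ∈ (GX.Xf f).ratEq M Ω := by
    have h1 := sum_mem fun e (_ : e ∈ (Finset.univ : Finset (Fin n → Bool))) => key e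
    have e1 := ad_sum R i R₁ (uq Ω y') fun Q => Finsupp.single (fv (f := f) o Φ Q) (1 : ℤ)
    have e2 := ad_sum R i R₂ (uq Ω y) fun Q => Finsupp.single (fv (f := f) o Φ Q) (1 : ℤ)
    have e3 := ad_sum R i R₃ (uq Ω u) fun Q => Finsupp.single (fv (f := f) o Φ Q) (1 : ℤ)
    rw [Finset.sum_sub_distrib, Finset.sum_sub_distrib, ← Finset.smul_sum, ← e1, ← e2, ← e3,
      ← ad_map, ← ad_map, ← ad_map] at h1
    have e4 : Z + Z = Finsupp.mapDomain (fv o Φ) (Bb (Function.update R i R₁) i (uq Ω y')) +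
        Finsupp.mapDomain (fv o Φ) (Bb (Function.update R i R₁) i (uq Ω y')) -
        (Finsupp.mapDomain (fv o Φ) (Bb (Function.update R i R₂) i (uq Ω y)) +
          Finsupp.mapDomain (fv o Φ) (Bb (Function.update R i R₂) i (uq Ω y))) -
        m • (Finsupp.mapDomain (fv o Φ) (Bb (Function.update R i R₃) i (uq Ω u)) +
          Finsupp.mapDomain (fv o Φ) (Bb (Function.update R i R₃) i (uq Ω u))) := by
      rw [hZ]
      module
    rw [e4]
    exact h1
  have hcyc : Z + Z ∈ (GX.Xf f).cyc F Ω := by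
    have h1 : Z ∈ (GX.Xf f).cyc F Ω := by
      rw [hZ]
      exact sub_mem (sub_mem hz₁ hz₂) (nsmul_mem hz₃ m)
    exact add_mem h1 h1
  have hfc := GX.fct f
  have h1 : vtr hfc F M (Z + Z) ∈ (GX.Xf f).ratEq F Ω := tr_ratEqV hfc M hsum
  rw [vtr_res hfc M hcyc, hk] at h1
  refine ⟨k + 1, ?_⟩
  rw [← hZ, pow_succ, mul_smul, two_smul]
  exact h1

end DN.Q
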