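import Pool.Agent.Lib.MP_f80667_ag.De.Rx
import Pool.Agent.Lib.MP_f80667_ag.Do.Fib
import Pool.Agent.Lib.MP_f80667_ag.Do.Stp

/-! The cycles `B`: a point on a factor, translated by the points with given first coordinates. -/

open ZC BE PE CV NE

namespace DN.Q

variable {F : Type} [Field F] {n : ℕ} {W : Fin n → WeierstrassCurve F} {Ω : Type} [Field Ω]
  [Algebra F Ω]

/-- The point `R` with the signs `e`. -/
noncomputable def sg (R : ∀ i, Pt (W i) Ω) (e : Fin n → Bool) : ∀ i, Pt (W i) Ω :=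
  fun i => if e i then -R i else R i

/-- The cycle `∑ [R_e + y_i] - [R_e]`. -/
noncomputable def Bb (R : ∀ i, Pt (W i) Ω) (i : Fin n) (y : Pt (W i) Ω) :
    (∀ i, Pt (W i) Ω) →₀ ℤ :=
  ∑ e : Fin n → Bool, (Finsupp.single (sg R e + il i y) 1 - Finsupp.single (sg R e) 1)

/-- The point over `Ω` given by a point over `F`. -/
noncomputable def uq {W : WeierstrassCurve F} (Ω : Type) [Field Ω] [Algebra F Ω] (y : Pt W F) :
    Pt W Ω :=
  Pt.map W (IsScalarTower.toAlgHom F F Ω) y

private theorem bb_pr0 (R : ∀ i, Pt (W i) Ω) (i : Fin n) (y : Pt (W i) Ω) (j : Fin n) :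
    Finsupp.mapDomain ((pr (V := fun i => Ev (W i)) j).f Ω) (Bb R i y) =
      ∑ e : Fin n → Bool, (Finsupp.single (sg R e j + il i y j) (1 : ℤ) -
        Finsupp.single (sg R e j) 1 : Pt (W j) Ω →₀ ℤ) := by
  change Finsupp.mapDomain.addMonoidHom (M := ℤ) (fun P : ∀ i, Pt (W i) Ω => P j) (Bb R i y) = _
  rw [Bb, map_sum]
  refine Finset.sum_congr rfl fun e _ => ?_
  rw [map_sub]
  change Finsupp.mapDomain (fun P : ∀ i, Pt (W i) Ω => P j) (Finsupp.single (sg R e + il i y) 1) -
    Finsupp.mapDomain (fun P : ∀ i, Pt (W i) Ω => P j) (Finsupp.single (sg R e) 1) = _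
  rw [Finsupp.mapDomain_single, Finsupp.mapDomain_single]
  rfl

private theorem bb_sf (R : ∀ i, Pt (W i) Ω) {e : Fin n → Bool} {j : Fin n} (h : e j = false) :
    sg R e j = R j :=
  if_neg (by rw [h]; exact Bool.false_ne_true)

private theorem bb_st (R : ∀ i, Pt (W i) Ω) {e : Fin n → Bool} {j : Fin n} (h : e j = true) :
    sg R e j = -R j :=
  if_pos h

private theorem bb_dg (R : ∀ i, Pt (W i) Ω) (i : Fin n) (y : Pt (W i) Ω) :
    dg (Bb R i y) = 0 := by
  rw [Bb, map_sum]
  refine Finset.sum_eq_zero fun e _ => ?_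
  rw [map_sub, sib_dg_single, sib_dg_single, sub_self]

private theorem bb_uq {W : WeierstrassCurve F} (γ : Ω ≃ₐ[F] Ω) (y : Pt W F) :
    γ • uq Ω y = uq Ω y := by
  change Pt.map W (γ.restrictScalars F : Ω →ₐ[F] Ω) (Pt.map W (IsScalarTower.toAlgHom F F Ω) y) =
    Pt.map W (IsScalarTower.toAlgHom F F Ω) y
  rw [Pt.map_map']
  have e : ((γ.restrictScalars F : Ω →ₐ[F] Ω).comp (IsScalarTower.toAlgHom F F Ω)) =
      IsScalarTower.toAlgHom F F Ω := AlgHom.ext fun a => γ.commutes a
  rw [e]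

variable [CharZero F] [IsAlgClosure F Ω] [∀ i, (W i).IsElliptic]

/-- Proof: an automorphism `γ` maps `sg R e` to `sg R e'` where `e' i = e i` if `γ (R i) = R i`, and the other sign otherwise (`xr_act`; `R i ≠ - R i` is not needed: choose one of the two cases for every `i`); `e ↦ e'` is bijective (an involution), `uq Ω y` is fixed; the degree is `0`. -/
theorem bb_D0 {R : ∀ i, Pt (W i) Ω} (hR : ∀ i, ∃ a : F, Xr a (R i)) (i : Fin n) (y : Pt (W i) F) :
    Bb R i (uq Ω y) ∈ (Vpi fun i => Ev (W i)).D0 F Ω := by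
  classical
  refine ⟨fun γ => ?_, bb_dg R i _⟩
  let δ : Fin n → Bool := fun j => if γ • R j = R j then false else true
  have hδ : ∀ e : Fin n → Bool, ∀ j, γ • sg R e j = sg R (fun j => xor (e j) (δ j)) j := by
    intro e j
    obtain ⟨a, ha⟩ := hR j
    have h1 := xr_act γ ha
    have h2 : γ • (-R j) = -(γ • R j) := smul_neg γ (R j)
    by_cases h : γ • R j = R j
    · have h3 : δ j = false := if_pos h
      cases h6 : e j
      · rw [bb_sf R h6, bb_sf R (e := fun j => xor (e j) (δ j)) (by rw [h6, h3]; rfl), h]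
      · rw [bb_st R h6, bb_st R (e := fun j => xor (e j) (δ j)) (by rw [h6, h3]; rfl), h2, h]
    · have h3 : δ j = true := if_neg h
      have h8 := h1.resolve_left h
      cases h6 : e j
      · rw [bb_sf R h6, bb_st R (e := fun j => xor (e j) (δ j)) (by rw [h6, h3]; rfl), h8]
      · rw [bb_st R h6, bb_sf R (e := fun j => xor (e j) (δ j)) (by rw [h6, h3]; rfl), h2, h8,
          neg_neg]
  let α : (∀ i, Pt (W i) Ω) → ∀ i, Pt (W i) Ω := (Vpi fun i => Ev (W i)).act γ
  have hα : ∀ P : ∀ i, Pt (W i) Ω, α P = fun j => γ • P j := fun P => rfl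
  have e1 : ∀ e : Fin n → Bool, α (sg R e) = sg R fun j => xor (e j) (δ j) := by
    intro e
    rw [hα]
    exact funext fun j => hδ e j
  have e2 : ∀ e : Fin n → Bool, α (sg R e + il i (uq Ω y)) =
      sg R (fun j => xor (e j) (δ j)) + il i (uq Ω y) := by
    intro e
    rw [hα]
    funext j
    change γ • (sg R e j + il i (uq Ω y) j) = sg R (fun j => xor (e j) (δ j)) j + il i (uq Ω y) j
    rw [smul_add, hδ]
    congr 1
    rcases eq_or_ne j i with rfl | h
    · unfold il
      rw [Pi.single_eq_same]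
      exact bb_uq γ y
    · unfold il
      rw [Pi.single_eq_of_ne h]
      exact smul_zero γ
  change Finsupp.mapDomain.addMonoidHom (M := ℤ) α (Bb R i (uq Ω y)) = Bb R i (uq Ω y)
  rw [Bb, map_sum]
  have e3 : ∀ e : Fin n → Bool, Finsupp.mapDomain.addMonoidHom (M := ℤ) α
      (Finsupp.single (sg R e + il i (uq Ω y)) 1 - Finsupp.single (sg R e) 1) =
      Finsupp.single (sg R (fun j => xor (e j) (δ j)) + il i (uq Ω y)) 1 -
        Finsupp.single (sg R fun j => xor (e j) (δ j)) 1 := by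
    intro e
    rw [map_sub]
    change Finsupp.mapDomain α _ - Finsupp.mapDomain α _ = _
    rw [Finsupp.mapDomain_single, Finsupp.mapDomain_single, e1, e2]
  rw [Finset.sum_congr rfl fun e _ => e3 e]
  refine Finset.sum_bij (fun e _ => fun j => xor (e j) (δ j)) (fun _ _ => Finset.mem_univ _)
    (fun e _ e' _ h => ?_) (fun e _ => ⟨fun j => xor (e j) (δ j), Finset.mem_univ _, ?_⟩)
    (fun _ _ => rfl)
  · funext j
    have h1 := congrFun h j
    exact (Bool.xor_left_inj).1 h1
  · funext j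
    change xor (xor (e j) (δ j)) (δ j) = e j
    rw [Bool.xor_assoc, Bool.xor_self, Bool.xor_false]

/-- The push-forward to the factor number `i`. Proof: Abel's theorem (`fib_abel` in `Do/Fib.lean`, `PE.abel`, `pv_ratEq_ev`): the cycle is invariant (`bb_D0`), the degree is `0` and the sum is `2 ^ n y - 2 ^ n y = 0`. -/
theorem bb_pr {R : ∀ i, Pt (W i) Ω} (hR : ∀ i, ∃ a : F, Xr a (R i)) (i : Fin n) (y : Pt (W i) F) :
    Finsupp.mapDomain ((pr (V := fun i => Ev (W i)) i).f Ω) (Bb R i (uq Ω y)) -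
      2 ^ n • (Finsupp.single (uq Ω y) 1 - Finsupp.single 0 1 : (Ev (W i)).pt Ω →₀ ℤ) ∈
        (Ev (W i)).ratEq F Ω := by
  have hO : IsAlgClosed Ω := IsAlgClosure.isAlgClosed F
  have h1 := (pr (V := fun i => Ev (W i)) i).D0 (bb_D0 hR i y)
  set u : Pt (W i) Ω →₀ ℤ :=
    Finsupp.mapDomain ((pr (V := fun i => Ev (W i)) i).f Ω) (Bb R i (uq Ω y)) with hu
  have hu1 : u = ∑ e : Fin n → Bool, (Finsupp.single (sg R e i + uq Ω y) (1 : ℤ) -
      Finsupp.single (sg R e i) 1) := by
    refine (bb_pr0 R i (uq Ω y) i).trans (Finset.sum_congr rfl fun e _ => ?_)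
    unfold il
    rw [Pi.single_eq_same]
  have hc : ∀ γ : Ω ≃ₐ[F] Ω, Finsupp.mapDomain (fun x => γ • x)
      (u - 2 ^ n • (Finsupp.single (uq Ω y) 1 - Finsupp.single 0 1 : Pt (W i) Ω →₀ ℤ)) =
      u - 2 ^ n • (Finsupp.single (uq Ω y) 1 - Finsupp.single 0 1 : Pt (W i) Ω →₀ ℤ) := by
    intro γ
    have h2 : Finsupp.mapDomain (fun x : Pt (W i) Ω => γ • x) u = u := h1.1 γ
    change Finsupp.mapDomain.addMonoidHom (M := ℤ) (fun x : Pt (W i) Ω => γ • x) _ = _
    rw [map_sub, map_nsmul, map_sub]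
    change Finsupp.mapDomain (fun x : Pt (W i) Ω => γ • x) u -
      2 ^ n • (Finsupp.mapDomain (fun x : Pt (W i) Ω => γ • x) (Finsupp.single (uq Ω y) 1) -
        Finsupp.mapDomain (fun x : Pt (W i) Ω => γ • x) (Finsupp.single 0 1)) = _
    rw [h2, Finsupp.mapDomain_single, Finsupp.mapDomain_single, bb_uq, smul_zero]
  have hd : dg (u - 2 ^ n • (Finsupp.single (uq Ω y) 1 - Finsupp.single 0 1 :
      Pt (W i) Ω →₀ ℤ)) = 0 := by
    have h2 : dg u = 0 := h1.2
    rw [map_sub, map_nsmul, map_sub, h2, sib_dg_single, sib_dg_single, sub_self, smul_zero,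
      sub_zero]
  have hs1 : ∀ a : Pt (W i) Ω, sm (Finsupp.single a (1 : ℤ)) = a := by
    intro a
    rw [sm, Finsupp.liftAddHom_apply_single, zmultiplesHom_apply, one_zsmul]
  have hs : sm (u - 2 ^ n • (Finsupp.single (uq Ω y) 1 - Finsupp.single 0 1 :
      Pt (W i) Ω →₀ ℤ)) = 0 := by
    have h2 : sm u = 2 ^ n • uq Ω y := by
      rw [hu1, map_sum]
      have h3 : ∀ e ∈ (Finset.univ : Finset (Fin n → Bool)),
          sm (Finsupp.single (sg R e i + uq Ω y) (1 : ℤ) - Finsupp.single (sg R e i) 1) =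
            uq Ω y := by
        intro e _
        rw [map_sub, hs1, hs1]
        abel
      rw [Finset.sum_congr rfl h3, Finset.sum_const, Finset.card_univ, Fintype.card_fun,
        Fintype.card_bool, Fintype.card_fin]
    rw [map_sub, map_nsmul, map_sub, h2, hs1, hs1, sub_zero, sub_self]
  exact (AddSubgroup.closure_le _).2 (fun y hy => pv_ratEq_ev hy) (PE.abel (K := F) _ hc hd hs)

omit [CharZero F] [IsAlgClosure F Ω] [∀ i, (W i).IsElliptic] in
/-- The push-forward to another factor. Proof: the coordinate number `j ≠ i` of `sg R e + il i y` is that of `sg R e`. -/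
theorem bb_ne (R : ∀ i, Pt (W i) Ω) {i j : Fin n} (h : j ≠ i) (y : Pt (W i) Ω) :
    Finsupp.mapDomain ((pr (V := fun i => Ev (W i)) j).f Ω) (Bb R i y) = 0 := by
  refine (bb_pr0 R i y j).trans (Finset.sum_eq_zero fun e _ => ?_)
  unfold il
  rw [Pi.single_eq_of_ne h, add_zero]
  exact sub_self _

end DN.Q
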