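import Pool.Agent.Lib.MP_f80667_ag.Do.Fib
import Pool.Agent.Lib.MP_f80667_ag.De.Bb
import Pool.Agent.Lib.MP_f80667_ag.Be.HatA

/-! The classes of the zero-cycles of degree `0` on an elliptic curve are given by points. -/

open ZC BE PE CV NE

namespace DN.Q

variable {F : Type} [Field F] [CharZero F] {W : WeierstrassCurve F} [W.IsElliptic]

omit [CharZero F] [W.IsElliptic] in
private theorem aj_uq (γ : AlgebraicClosure F ≃ₐ[F] AlgebraicClosure F) (y : Pt W F) :
    (Ev W).act γ (uq (AlgebraicClosure F) y) = uq (AlgebraicClosure F) y := by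
  change Pt.map W (γ.restrictScalars F : AlgebraicClosure F →ₐ[F] AlgebraicClosure F)
    (Pt.map W (IsScalarTower.toAlgHom F F (AlgebraicClosure F)) y) =
      Pt.map W (IsScalarTower.toAlgHom F F (AlgebraicClosure F)) y
  rw [Pt.map_map']
  have e : ((γ.restrictScalars F : AlgebraicClosure F →ₐ[F] AlgebraicClosure F).comp
      (IsScalarTower.toAlgHom F F (AlgebraicClosure F))) =
        IsScalarTower.toAlgHom F F (AlgebraicClosure F) :=
    AlgHom.ext fun a => γ.commutes a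
  rw [e]

omit [CharZero F] [W.IsElliptic] in
private theorem aj_zero (γ : AlgebraicClosure F ≃ₐ[F] AlgebraicClosure F) :
    (Ev W).act γ (0 : Pt W (AlgebraicClosure F)) = (0 : Pt W (AlgebraicClosure F)) :=
  map_zero (Pt.map W (γ.restrictScalars F : AlgebraicClosure F →ₐ[F] AlgebraicClosure F))

/-- The cycle `[y] - [0]` is a cycle of degree `0` over `F`. -/
theorem dp_mem (y : Pt W F) : (Finsupp.single (uq (AlgebraicClosure F) y) 1 - Finsupp.single 0 1 :
    (Ev W).pt (AlgebraicClosure F) →₀ ℤ) ∈ (Ev W).D0 F (AlgebraicClosure F) := by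
  refine ⟨fun γ => ?_, ?_⟩
  · have h1 : Finsupp.mapDomain ((Ev W).act γ)
        (Finsupp.single (uq (AlgebraicClosure F) y) (1 : ℤ)) =
          Finsupp.single (uq (AlgebraicClosure F) y) (1 : ℤ) := by
      rw [Finsupp.mapDomain_single]
      exact congrArg (fun P => Finsupp.single P (1 : ℤ)) (aj_uq γ y)
    have h2 : Finsupp.mapDomain ((Ev W).act γ)
        (Finsupp.single (0 : Pt W (AlgebraicClosure F)) (1 : ℤ)) =
          Finsupp.single (0 : Pt W (AlgebraicClosure F)) (1 : ℤ) := by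
      rw [Finsupp.mapDomain_single]
      exact congrArg (fun P => Finsupp.single P (1 : ℤ)) (aj_zero γ)
    refine (map_sub (Finsupp.mapDomain.addMonoidHom (M := ℤ) ((Ev W).act γ)) _ _).trans ?_
    exact congrArg₂ (fun a b => a - b) h1 h2
  · change dg (Finsupp.single (uq (AlgebraicClosure F) y) (1 : ℤ) -
      Finsupp.single (0 : Pt W (AlgebraicClosure F)) (1 : ℤ)) = 0
    rw [map_sub, sib_dg_single, sib_dg_single, sub_self]

/-- The cycle `[y] - [0]`. -/
noncomputable def dp (y : Pt W F) : Dz (Ev W) F := ⟨_, dp_mem y⟩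

private theorem aj_rat {z : Pt W (AlgebraicClosure F) →₀ ℤ}
    (hz : z ∈ (Ev W).D0 F (AlgebraicClosure F)) (hs : sm z = 0) :
    z ∈ (Ev W).ratEq F (AlgebraicClosure F) := by
  have hc : ∀ γ : AlgebraicClosure F ≃ₐ[F] AlgebraicClosure F,
      Finsupp.mapDomain (fun x => γ • x) z = z := fun γ => hz.1 γ
  have hd : dg z = 0 := hz.2
  exact (AddSubgroup.closure_le _).2 (fun y hy => pv_ratEq_ev hy) (abel (K := F) _ hc hd hs)

omit [CharZero F] [W.IsElliptic] in
private theorem aj_single (P : Pt W (AlgebraicClosure F)) :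
    sm (Finsupp.single P (1 : ℤ)) = P := by
  rw [sm, Finsupp.liftAddHom_apply_single, zmultiplesHom_apply, one_zsmul]

/-- The sum of a cycle. -/
private noncomputable def sc : Dz (Ev W) F →+ Pt W (AlgebraicClosure F) :=
  (sm : (Pt W (AlgebraicClosure F) →₀ ℤ) →+ Pt W (AlgebraicClosure F)).comp
    (AddSubgroup.subtype (Dz (Ev W) F))

private theorem aj_dp (y : Pt W F) : sc (dp y : Dz (Ev W) F) = uq (AlgebraicClosure F) y := by
  change sm (Finsupp.single (uq (AlgebraicClosure F) y) (1 : ℤ) -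
    Finsupp.single (0 : Pt W (AlgebraicClosure F)) (1 : ℤ)) = _
  rw [map_sub, aj_single, aj_single, sub_zero]

private theorem aj_cls {c c' : Dz (Ev W) F} (h : sc c = sc c') :
    Gp.clsH (Ev W) F c = Gp.clsH (Ev W) F c' := by
  change Gp.cls c = Gp.cls c'
  rw [Gp.cls_eq]
  refine aj_rat (sub_mem c.2 c'.2) ?_
  have h1 : sc (c - c') = 0 := by rw [map_sub, h, sub_self]
  exact h1

/-- The class of `[y + y'] - [0]`. Proof: Abel's theorem (`fib_abel` in `Do/Fib.lean`, `PE.abel`, `pv_ratEq_ev`). -/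
theorem dp_add (y y' : Pt W F) : Gp.clsH (Ev W) F (dp (y + y')) =
    Gp.clsH (Ev W) F (dp y) + Gp.clsH (Ev W) F (dp y') := by
  rw [← map_add]
  refine aj_cls ?_
  rw [map_add, aj_dp, aj_dp, aj_dp]
  exact map_add (Pt.map W (IsScalarTower.toAlgHom F F (AlgebraicClosure F))) y y'

omit [CharZero F] [W.IsElliptic] in
private theorem aj_sm (γ : AlgebraicClosure F ≃ₐ[F] AlgebraicClosure F)
    (z : Pt W (AlgebraicClosure F) →₀ ℤ) :
    sm (Finsupp.mapDomain (fun P : Pt W (AlgebraicClosure F) => γ • P) z) = γ • sm z := by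
  have h1 : (sm : (Pt W (AlgebraicClosure F) →₀ ℤ) →+ Pt W (AlgebraicClosure F)).comp
      (Finsupp.mapDomain.addMonoidHom (M := ℤ)
        fun P : Pt W (AlgebraicClosure F) => γ • P) =
      (DistribSMul.toAddMonoidHom (Pt W (AlgebraicClosure F)) γ).comp sm := by
    refine Finsupp.addHom_ext fun P m => ?_
    change sm (Finsupp.mapDomain (fun P : Pt W (AlgebraicClosure F) => γ • P)
      (Finsupp.single P m)) = γ • sm (Finsupp.single P m)
    rw [Finsupp.mapDomain_single, sm, Finsupp.liftAddHom_apply_single,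
      Finsupp.liftAddHom_apply_single, zmultiplesHom_apply, zmultiplesHom_apply]
    exact (map_zsmul (DistribSMul.toAddMonoidHom (Pt W (AlgebraicClosure F)) γ) m P).symm
  exact DFunLike.congr_fun h1 z

/-- Every class. Proof: the sum of the cycle is a point over `F` (`exists_desc` in `Be/Gal.lean`), Abel's theorem. -/
theorem dp_surj (x : BE.Gp (Ev W) F) : ∃ y : Pt W F, Gp.clsH (Ev W) F (dp y) = x := by
  obtain ⟨c, rfl⟩ := Gp.cls_surj x
  have h1 : ∀ γ : AlgebraicClosure F ≃ₐ[F] AlgebraicClosure F, γ • sc c = sc c := fun γ =>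
    (aj_sm γ c.1).symm.trans
      (congrArg (sm : (Pt W (AlgebraicClosure F) →₀ ℤ) →+ Pt W (AlgebraicClosure F)) (c.2.1 γ))
  obtain ⟨P₀, hP₀⟩ := exists_desc (K := F) h1
  refine ⟨P₀, ?_⟩
  refine aj_cls ?_
  rw [aj_dp]
  exact hP₀

/-- **A sequence of points.** Proof: `y (k + 1) = y k + M k • u`: `x.Rep (M (k + 1)) g` for some `g` (`LHat.exists_rep`), it also represents `x` modulo `M k` (`x.2`), so `g = cls (dp (y k)) + M k • cls (dp u)` (`rep_sub`, `dp_surj`), which is the class of `dp (y k + M k • u)` (`dp_add`). -/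
theorem exists_y (x : LHat (BE.Gp (Ev W) F)) {M : ℕ → ℕ+} (hM : ∀ k, (M k : ℕ) ∣ M (k + 1)) :
    ∃ y : ℕ → Pt W F, (∀ k, x.Rep (M k) (Gp.clsH (Ev W) F (dp (y k)))) ∧
      ∀ k, ∃ u, y (k + 1) = y k + (M k : ℕ) • u := by
  let φ : Pt W F →+ BE.Gp (Ev W) F :=
    AddMonoidHom.mk' (fun y => Gp.clsH (Ev W) F (dp y)) dp_add
  have step : ∀ k (y : {y : Pt W F // x.Rep (M k) (φ y)}),
      ∃ u, x.Rep (M (k + 1)) (φ (y.1 + (M k : ℕ) • u)) := by
    rintro k ⟨y, hy⟩
    obtain ⟨g, hg⟩ := x.exists_rep (M (k + 1))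
    have hg' : x.Rep (M k) g := x.2 (M k) (M (k + 1)) (PNat.dvd_iff.2 (hM k)) g hg
    obtain ⟨w, hw⟩ := rep_sub hg' hy
    obtain ⟨u, hu⟩ := dp_surj w
    refine ⟨u, ?_⟩
    have e : φ (y + (M k : ℕ) • u) = g := by
      rw [hw, map_add, map_nsmul]
      exact congrArg (fun a => φ y + (M k : ℕ) • a) hu
    rw [e]
    exact hg
  choose f hf using step
  obtain ⟨g₀, hg₀⟩ := x.exists_rep (M 0)
  obtain ⟨y₀, hy₀⟩ := dp_surj g₀
  have hy₀' : x.Rep (M 0) (φ y₀) := by
    have e : φ y₀ = g₀ := hy₀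
    rw [e]
    exact hg₀
  let s : ∀ k, {y : Pt W F // x.Rep (M k) (φ y)} := fun k =>
    Nat.rec ⟨y₀, hy₀'⟩ (fun k y => ⟨y.1 + (M k : ℕ) • f k y, hf k y⟩) k
  exact ⟨fun k => (s k).1, fun k => (s k).2, fun k => ⟨f k (s k), rfl⟩⟩

end DN.Q
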