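import Pool.Agent.Lib.MP_f80667_ag.Do.Fib
import Pool.Agent.Lib.MP_f80667_ag.Cv.Mo
import Pool.Agent.Lib.MP_f80667_ag.Bx.Main

/-! Base change of rational equivalence on elliptic curves. -/

open ZC BE PE CV NE

namespace DN.Q

section gen

open Bx Fa

variable {F E K Ω Ω' : Type} [Field F] [CharZero F] [Field E] [Field K] [Field Ω] [Field Ω']
  [Algebra F E] [Algebra F K] [Algebra F Ω] [Algebra K Ω'] [Algebra F Ω'] [IsScalarTower F K Ω']
  [IsAlgClosed Ω] [IsAlgClosed Ω']

/-- The places `w'` of `M / K` and `w` of `E / F` are compatible. -/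
private def Cpt {M : Type} [Field M] [Algebra K M] (e : Ω →ₐ[F] Ω') (j : E →+* M)
    (w : Place F E Ω) (w' : Place K M Ω') : Prop :=
  (∀ a : E, a ∈ w.V ↔ j a ∈ w'.V) ∧
    ∀ (a : E) (ha : a ∈ w.V) (ha' : j a ∈ w'.V), w'.res ⟨j a, ha'⟩ = e (w.res ⟨a, ha⟩)

/-- The zeros of a function after base change, with values in any sets. -/
private theorem zeros_gen {Y Y' : Type} (φ : Y → Y') (e : Ω →ₐ[F] Ω') (hE : IsFunField F E) {g : E}
    (hg : Transcendental F g) (S : Split F E K g) (T : Finset (Place F E Ω))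
    (m : Place F E Ω → ℤ) (x : Place F E Ω → Y)
    (h1 : ∀ w, w ∈ T ↔ g ∈ w.V.nonunits) (h2 : ∀ w ∈ T, w.IsOrd g (m w))
    (R' : ∀ i, Place K (S.M i) Ω' → Y' → Prop)
    (hR : ∀ i w w', w ∈ T → Cpt e (S.jE i) w w' → R' i w' (φ (x w))) :
    ∃ (T' : ∀ i, Finset (Place K (S.M i) Ω')) (m' : ∀ i, Place K (S.M i) Ω' → ℤ)
      (x' : ∀ i, Place K (S.M i) Ω' → Y'),
      (∀ i w', w' ∈ T' i ↔ S.jE i g ∈ w'.V.nonunits) ∧
      (∀ i, ∀ w' ∈ T' i, w'.IsOrd (S.jE i g) (m' i w') ∧ R' i w' (x' i w')) ∧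
      ∑ i, ∑ w' ∈ T' i, Finsupp.single (x' i w') (m' i w') =
        ∑ w ∈ T, Finsupp.single (φ (x w)) (m w) := by
  classical
  have hcK : CharZero K := charZero_of_injective_algebraMap (algebraMap F K).injective
  have hg0 : g ≠ 0 := by
    rintro rfl
    exact hg ⟨Polynomial.X, Polynomial.X_ne_zero, by simp⟩
  choose T' m' hT' hm' using fun i => exists_zeros (Ω := Ω') (S.funField i) (S.transc i)
  -- restriction
  have hres : ∀ i (w' : Place K (S.M i) Ω'), ∃ w : Place F E Ω, w' ∈ T' i →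
      (∀ a : E, a ∈ w.V ↔ S.jE i a ∈ w'.V) ∧
      ∀ (a : E) (ha : a ∈ w.V) (ha' : S.jE i a ∈ w'.V),
        w'.res ⟨S.jE i a, ha'⟩ = e (w.res ⟨a, ha⟩) := by
    intro i w'
    by_cases hw' : w' ∈ T' i
    · obtain ⟨w, hw⟩ := exists_restr e hE (S.jE i) (S.comm i) w' hg0 ((hT' i w').1 hw')
      exact ⟨w, fun _ => hw⟩
    · obtain ⟨w⟩ : Nonempty (Place F E Ω) := by
        obtain ⟨T₀, -, h₀, -⟩ := exists_zeros (Ω := Ω) hE hg
        by_contra hemp
        rw [not_nonempty_iff] at hemp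
        have h3 := Dz.sum_zeros hE hg (∅ : Finset (Place F E Ω)) (fun _ => 0)
          (fun w => (hemp.false w).elim) (fun w => (hemp.false w).elim)
        rw [Finset.sum_empty] at h3
        have hfin := Dz.finite_adjoin hE hg
        have h4 : 0 < Module.finrank (IntermediateField.adjoin F {g}) E := Module.finrank_pos
        omega
      exact ⟨w, fun h => absurd h hw'⟩
  choose ψ hψ using hres
  -- nonunits
  have hnu : ∀ {M : Type} [Field M] [Algebra K M] (j : E →+* M) (w : Place F E Ω)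
      (w' : Place K M Ω') (hV : ∀ a : E, a ∈ w.V → j a ∈ w'.V)
      (_ : ∀ (a : E) (ha : a ∈ w.V) (ha' : j a ∈ w'.V),
        w'.res ⟨j a, ha'⟩ = e (w.res ⟨a, ha⟩)) (a : E), a ∈ w.V.nonunits →
        j a ∈ w'.V.nonunits := by
    intro M _ _ j w w' hV hr a ha
    have ha1 : a ∈ w.V := w.V.nonunits_subset ha
    have h3 := hr a ha1 (hV a ha1)
    rw [(res_eq_zero_iff w ⟨a, ha1⟩).2 ha, map_zero] at h3
    exact (res_eq_zero_iff w' _).1 h3
  have hψT : ∀ i, ∀ w' ∈ T' i, ψ i w' ∈ T := by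
    intro i w' hw'
    obtain ⟨hV, hr⟩ := hψ i w' hw'
    rw [h1]
    have hgn := (hT' i w').1 hw'
    rw [ValuationSubring.mem_nonunits_iff_or] at hgn ⊢
    right
    rw [hV, map_inv₀]
    exact hgn.resolve_left ((map_ne_zero _).2 hg0)
  have hsurj : ∀ w ∈ T, ∃ i, ∃ w' ∈ T' i, ψ i w' = w := by
    intro w hw
    obtain ⟨i, w', hw'⟩ := exists_ext e S w hg0 ((h1 w).1 hw)
    have hV' : ∀ a, a ∈ w.V → S.jE i a ∈ w'.V := fun a ha => (hw' a ha).1
    have hr' : ∀ (a : E) (ha : a ∈ w.V) (ha' : S.jE i a ∈ w'.V),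
        w'.res ⟨S.jE i a, ha'⟩ = e (w.res ⟨a, ha⟩) := fun a ha _ => (hw' a ha).2
    have hmem : w' ∈ T' i := (hT' i w').2 (hnu _ w w' hV' hr' g ((h1 w).1 hw))
    obtain ⟨hV, hr⟩ := hψ i w' hmem
    refine ⟨i, w', hmem, ?_⟩
    have hVV : (ψ i w').V = w.V := by
      ext a
      rw [hV]
      refine ⟨fun ha => ?_, hV' a⟩
      by_contra hna
      have h3 : a⁻¹ ∈ w.V.nonunits := by
        rw [ValuationSubring.mem_nonunits_iff_or, inv_inv]
        exact Or.inr hna
      have h4 := hnu _ w w' hV' hr' _ h3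
      rw [ValuationSubring.mem_nonunits_iff_or, map_inv₀, inv_inv] at h4
      rcases h4 with h4 | h4
      · have h5 : a = 0 := by simpa using h4
        rw [h5] at hna
        exact hna w.V.zero_mem
      · exact h4 ha
    refine Place.ext' hVV fun a ha ha' => ?_
    apply (e : Ω →+* Ω').injective
    change e _ = e _
    rw [← hr a ha (hV' a ha'), ← hr' a ha' (hV' a ha')]
  have hval : ∀ i, ∀ w' ∈ T' i, R' i w' (φ (x (ψ i w'))) := fun i w' hw' =>
    hR i _ w' (hψT i w' hw') (hψ i w' hw')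
  have hsum : ∑ s ∈ Finset.univ.sigma T', m' s.1 s.2 = ∑ w ∈ T, m w := by
    rw [Finset.sum_sigma, Dz.sum_zeros hE hg T m h1 h2, ← S.rank,
      Nat.cast_sum]
    refine Finset.sum_congr rfl fun i _ => ?_
    exact Dz.sum_zeros (S.funField i) (S.transc i) (T' i) (m' i) (hT' i) (hm' i)
  refine ⟨T', m', fun i w' => φ (x (ψ i w')), hT',
    fun i w' hw' => ⟨hm' i w' hw', hval i w' hw'⟩, ?_⟩
  have h3 := count (Finset.univ.sigma T') T (fun s => ψ s.1 s.2)
    (fun s hs => hψT s.1 s.2 (Finset.mem_sigma.1 hs).2)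
    (fun w hw => by
      obtain ⟨i, w', hw', rfl⟩ := hsurj w hw
      exact ⟨⟨i, w'⟩, Finset.mem_sigma.2 ⟨Finset.mem_univ _, hw'⟩, rfl⟩)
    (fun s => m' s.1 s.2) m (fun w hw => ord_pos (h2 w hw) ((h1 w).1 hw))
    (fun s hs => by
      have hs2 := (Finset.mem_sigma.1 hs).2
      obtain ⟨hV, hr⟩ := hψ s.1 s.2 hs2
      have hV' : ∀ a, a ∈ (ψ s.1 s.2).V → S.jE s.1 a ∈ s.2.V := fun a ha => (hV a).1 ha
      have hT2 := hψT s.1 s.2 hs2
      exact ord_le (S.jE s.1) hV' (hnu _ _ _ hV' hr) (h2 _ hT2) (hm' s.1 s.2 hs2)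
        (ord_pos (h2 _ hT2) ((h1 _).1 hT2)).le)
    hsum (fun w => φ (x w))
  rw [← h3, Finset.sum_sigma]

/-- The poles of a function after base change, with values in any sets. -/
private theorem poles_gen {Y Y' : Type} (φ : Y → Y') (e : Ω →ₐ[F] Ω') (hE : IsFunField F E) {g : E}
    (hg : Transcendental F g) (S : Split F E K g) (T : Finset (Place F E Ω))
    (m : Place F E Ω → ℤ) (x : Place F E Ω → Y)
    (h1 : ∀ w, w ∈ T ↔ g⁻¹ ∈ w.V.nonunits) (h2 : ∀ w ∈ T, w.IsOrd g⁻¹ (m w))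
    (R' : ∀ i, Place K (S.M i) Ω' → Y' → Prop)
    (hR : ∀ i w w', w ∈ T → Cpt e (S.jE i) w w' → R' i w' (φ (x w))) :
    ∃ (T' : ∀ i, Finset (Place K (S.M i) Ω')) (m' : ∀ i, Place K (S.M i) Ω' → ℤ)
      (x' : ∀ i, Place K (S.M i) Ω' → Y'),
      (∀ i w', w' ∈ T' i ↔ S.jE i g⁻¹ ∈ w'.V.nonunits) ∧
      (∀ i, ∀ w' ∈ T' i, w'.IsOrd (S.jE i g⁻¹) (m' i w') ∧ R' i w' (x' i w')) ∧
      ∑ i, ∑ w' ∈ T' i, Finsupp.single (x' i w') (m' i w') =
        ∑ w ∈ T, Finsupp.single (φ (x w)) (m w) :=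
  zeros_gen φ e hE (transc_inv hg) S.inv T m x h1 h2 R' hR

end gen

section red

variable {F E K : Type} [Field F] [Field E] [Field K] [Algebra F E] [Algebra F K]
  {Ω Ω' : Type} [Field Ω] [Field Ω'] [Algebra F Ω] [Algebra K Ω'] [Algebra F Ω']
  {W : WeierstrassCurve F}

/-- The value of a point at a place of a bigger field. -/
private def RV {M : Type} [Field M] [Algebra K M] (j : E →+* M) (w' : Place K M Ω') :
    Pt W E → Pt W Ω' → Prop
  | .zero, Q => Q = 0
  | .some x y _, Q => (j x ∉ w'.V ∧ Q = 0) ∨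
      ∃ (hx : j x ∈ w'.V) (hy : j y ∈ w'.V)
        (h : (W.baseChange Ω').toAffine.Nonsingular (w'.res ⟨j x, hx⟩) (w'.res ⟨j y, hy⟩)),
        Q = Pt.aff _ _ h

omit [Algebra F K] in
private theorem cpt_red {M : Type} [Field M] [Algebra K M] {e : Ω →ₐ[F] Ω'} {j : E →+* M}
    {w : Place F E Ω} {w' : Place K M Ω'} (hw : Cpt e j w w') {P : Pt W E} {Q : Pt W Ω}
    (h : Pt.Red W w P Q) : RV j w' P (Pt.map W e Q) := by
  obtain ⟨hV, hr⟩ := hw
  rcases Pt.cases' P with rfl | ⟨x, y, hxy, rfl⟩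
  · have h1 : Q = 0 := h
    rw [h1, map_zero]
    exact rfl
  · rcases red_aff w hxy h with ⟨h1, h2⟩ | ⟨hx, hy, hn, h2⟩
    · refine Or.inl ⟨fun h3 => h1 ((hV x).2 h3), ?_⟩
      rw [h2, map_zero]
    · obtain ⟨hn', h3⟩ := map_aff (W := W) e hn
      have e1 := hr x hx ((hV x).1 hx)
      have e2 := hr y hy ((hV y).1 hy)
      have hn2 : (W.baseChange Ω').toAffine.Nonsingular (w'.res ⟨j x, (hV x).1 hx⟩)
          (w'.res ⟨j y, (hV y).1 hy⟩) := by
        rw [e1, e2]
        exact hn'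
      refine Or.inr ⟨(hV x).1 hx, (hV y).1 hy, hn2, ?_⟩
      rw [h2, h3]
      exact aff_congr _ _ e1.symm e2.symm

private theorem rv_val {M : Type} [Field M] [Algebra K M] [Algebra F M] [IsScalarTower F K M]
    [IsAlgClosed Ω'] (j : E →ₐ[F] M) (w' : Place K M Ω') {P : Pt W E} {Q : Pt W Ω'}
    (h : RV (j : E →+* M) w' P Q) : (Ev W).IsVal w'
      (Pt.map W (IsScalarTower.toAlgHom F M (AlgebraicClosure M)) (Pt.map W j P)) Q := by
  obtain ⟨W', hW⟩ := exists_above w'
  refine ⟨W', hW.1, hW.2, ?_⟩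
  rcases Pt.cases' P with rfl | ⟨x, y, hxy, rfl⟩
  · have h1 : Q = 0 := h
    rw [h1, map_zero, map_zero]
    exact rfl
  · obtain ⟨hn1, h1⟩ := map_aff (W := W) j hxy
    obtain ⟨hn2, h2⟩ := map_aff (W := W) (IsScalarTower.toAlgHom F M (AlgebraicClosure M)) hn1
    rw [h1, h2]
    have h' : (j x ∉ w'.V ∧ Q = 0) ∨
      ∃ (hx : j x ∈ w'.V) (hy : j y ∈ w'.V)
        (h : (W.baseChange Ω').toAffine.Nonsingular (w'.res ⟨j x, hx⟩) (w'.res ⟨j y, hy⟩)),
        Q = Pt.aff _ _ h := h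
    rcases h' with ⟨h3, h4⟩ | ⟨hx, hy, hn, h3⟩
    · exact Or.inl ⟨fun h5 => h3 ((hW.1 _).1 h5), h4⟩
    · have hx' : algebraMap M (AlgebraicClosure M) (j x) ∈ W'.V := (hW.1 _).2 hx
      have hy' : algebraMap M (AlgebraicClosure M) (j y) ∈ W'.V := (hW.1 _).2 hy
      have e1 := hW.2 _ hx hx'
      have e2 := hW.2 _ hy hy'
      have hn3 : (W.baseChange Ω').toAffine.Nonsingular (W'.res ⟨_, hx'⟩) (W'.res ⟨_, hy'⟩) := by
        rw [e1, e2]
        exact hn
      refine Or.inr ⟨hx', hy', hn3, ?_⟩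
      rw [h3]
      exact aff_congr _ _ e1.symm e2.symm

private theorem val_red [IsScalarTower F E (AlgebraicClosure E)]
    (w : Place F E Ω) {P : Pt W E} {Q : Pt W Ω}
    (h : (Ev W).IsVal w (Pt.map W (IsScalarTower.toAlgHom F E (AlgebraicClosure E)) P) Q) :
    Pt.Red W w P Q := by
  obtain ⟨W', hV, hr, h⟩ := h
  rcases Pt.cases' P with rfl | ⟨x, y, hxy, rfl⟩
  · have h1 : Pt.Red W W' (0 : Pt W (AlgebraicClosure E)) Q := by
      rw [map_zero] at h
      exact h
    exact h1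
  · obtain ⟨hn2, h2⟩ := map_aff (W := W) (IsScalarTower.toAlgHom F E (AlgebraicClosure E)) hxy
    rw [h2] at h
    rcases red_aff W' hn2 h with ⟨h3, h4⟩ | ⟨hx, hy, hn, h3⟩
    · exact Or.inl ⟨fun h5 => h3 ((hV _).2 h5), h4⟩
    · have hx' : x ∈ w.V := (hV _).1 hx
      have hy' : y ∈ w.V := (hV _).1 hy
      have e1 := hr _ hx' hx
      have e2 := hr _ hy' hy
      have hn3 : (W.baseChange Ω).toAffine.Nonsingular (w.res ⟨x, hx'⟩) (w.res ⟨y, hy'⟩) := by
        rw [← e1, ← e2]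
        exact hn
      refine Or.inr ⟨hx', hy', hn3, ?_⟩
      rw [h3]
      exact aff_congr _ _ e1 e2

private theorem rat_map {M : Type} [Field M] [Algebra F M] (P : Pt W M) :
    (Ev W).Rat M (Pt.map W (IsScalarTower.toAlgHom F M (AlgebraicClosure M)) P) := by
  intro σ
  rcases Pt.cases' P with rfl | ⟨x, y, hxy, rfl⟩
  · rw [map_zero]
    exact map_zero (Pt.map W (σ.restrictScalars F : AlgebraicClosure M →ₐ[F] AlgebraicClosure M))
  · obtain ⟨hn1, h1⟩ := map_aff (W := W) (IsScalarTower.toAlgHom F M (AlgebraicClosure M)) hxy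
    rw [h1]
    obtain ⟨hn2, h2⟩ := map_aff (W := W)
      (σ.restrictScalars F : AlgebraicClosure M →ₐ[F] AlgebraicClosure M) hn1
    refine Eq.trans h2 (aff_congr _ _ ?_ ?_)
    · exact σ.commutes x
    · exact σ.commutes y

end red

section push

open Bx Fa

variable {F K : Type} [Field F] [CharZero F] [Field K] [Algebra F K] {W : WeierstrassCurve F}

/-- The base change of a principal divisor. -/
private theorem push_bc {E : Type} [Field E] [Algebra F E] (hE : IsFunField F E) {g : E}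
    (hg0 : g ≠ 0) (P : Pt W E) (S₀ : Finset (Place F E (AlgebraicClosure F)))
    (m : Place F E (AlgebraicClosure F) → ℤ)
    (x : Place F E (AlgebraicClosure F) → Pt W (AlgebraicClosure F))
    (h1 : ∀ w, w ∉ S₀ → g ∈ w.V ∧ g⁻¹ ∈ w.V)
    (h2 : ∀ w ∈ S₀, w.IsOrd g (m w) ∧ Pt.Red W w P (x w)) :
    Finsupp.mapDomain (Pt.map W (BE.emb F K)) (∑ w ∈ S₀, Finsupp.single (x w) (m w)) ∈
      (Ev W).ratEq K (AlgebraicClosure K) := by
  classical
  by_cases hg : Transcendental F g
  · have hnu : ∀ {k E Ω : Type} [Field k] [Field E] [Field Ω] [Algebra k E] [Algebra k Ω]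
        (w : Place k E Ω) (y : E), y ≠ 0 → (y ∈ w.V.nonunits ↔ y⁻¹ ∉ w.V) := by
      intro k E Ω _ _ _ _ _ w y hy
      rw [ValuationSubring.mem_nonunits_iff_or]
      exact ⟨fun h => h.resolve_left hy, Or.inr⟩
    obtain ⟨S⟩ := exists_split (K := K) hE hg
    set T : Finset (Place F E (AlgebraicClosure F)) := S₀.filter fun w => g ∈ w.V.nonunits with hT
    set U : Finset (Place F E (AlgebraicClosure F)) := S₀.filter fun w => g⁻¹ ∈ w.V.nonunits
      with hU
    have hT1 : ∀ w, w ∈ T ↔ g ∈ w.V.nonunits := by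
      intro w
      rw [hT, Finset.mem_filter]
      refine ⟨fun h => h.2, fun h => ⟨?_, h⟩⟩
      by_contra hS
      exact ((hnu w g hg0).1 h) (h1 w hS).2
    have hU1 : ∀ w, w ∈ U ↔ g⁻¹ ∈ w.V.nonunits := by
      intro w
      rw [hU, Finset.mem_filter]
      refine ⟨fun h => h.2, fun h => ⟨?_, h⟩⟩
      by_contra hS
      apply ((hnu w g⁻¹ (inv_ne_zero hg0)).1 h)
      rw [inv_inv]
      exact (h1 w hS).1
    let R' : ∀ i, Place K (S.M i) (AlgebraicClosure K) → Pt W (AlgebraicClosure K) → Prop :=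
      fun i w' y => RV (W := W) (S.jE i) w' P y
    have hR : ∀ i w w', w ∈ S₀ → Cpt (BE.emb F K) (S.jE i) w w' →
        R' i w' (Pt.map W (BE.emb F K) (x w)) :=
      fun i w w' hw hc => cpt_red hc (h2 w hw).2
    obtain ⟨T', mT, xT, a1, a2, a3⟩ := zeros_gen (K := K) (Pt.map W (BE.emb F K)) (BE.emb F K) hE hg S T
      m x hT1 (fun w hw => (h2 w (Finset.mem_filter.1 hw).1).1) R'
      (fun i w w' hw => hR i w w' (Finset.mem_filter.1 hw).1)
    obtain ⟨U', mU, xU, b1, b2, b3⟩ := poles_gen (K := K) (Pt.map W (BE.emb F K)) (BE.emb F K) hE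
      hg S U (fun w => - m w) x hU1
      (fun w hw => Dz.ord_inv (h2 w (Finset.mem_filter.1 hw).1).1) R'
      (fun i w w' hw => hR i w w' (Finset.mem_filter.1 hw).1)
    have hsplit : ∑ w ∈ S₀, Finsupp.single (x w) (m w) =
        ∑ w ∈ T, Finsupp.single (x w) (m w) - ∑ w ∈ U, Finsupp.single (x w) (- m w) := by
      rw [hT, hU, Finset.sum_filter, Finset.sum_filter, ← Finset.sum_sub_distrib]
      refine Finset.sum_congr rfl fun w hw => ?_
      rw [hnu w g hg0, hnu w g⁻¹ (inv_ne_zero hg0), inv_inv]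
      by_cases ha : g ∈ w.V
      · by_cases hb : g⁻¹ ∈ w.V
        · rw [if_neg (not_not.2 hb), if_neg (not_not.2 ha), (h2 w hw).1.eq_zero ha hb,
            Finsupp.single_zero, sub_zero]
        · rw [if_pos hb, if_neg (not_not.2 ha), sub_zero]
      · have hb : g⁻¹ ∈ w.V := (w.V.mem_or_inv_mem g).resolve_left ha
        rw [if_neg (not_not.2 hb), if_pos ha, zero_sub, Finsupp.single_neg, neg_neg]
    have hmd : ∀ z : Pt W (AlgebraicClosure F) →₀ ℤ, Finsupp.mapDomain (Pt.map W (BE.emb F K)) z =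
        Finsupp.mapDomain.addMonoidHom (M := ℤ) (Pt.map W (BE.emb F K)) z := fun z => rfl
    have hbc : Finsupp.mapDomain (Pt.map W (BE.emb F K)) (∑ w ∈ S₀, Finsupp.single (x w) (m w)) =
        ∑ i, (∑ w' ∈ T' i, Finsupp.single (xT i w') (mT i w') -
          ∑ w' ∈ U' i, Finsupp.single (xU i w') (mU i w')) := by
      rw [hsplit, hmd, map_sub, map_sum, map_sum, Finset.sum_sub_distrib]
      congr 1
      · rw [a3]
        exact Finset.sum_congr rfl fun w _ => Finsupp.mapDomain_single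
      · refine Eq.trans ?_ b3.symm
        exact Finset.sum_congr rfl fun w _ => Finsupp.mapDomain_single
    rw [hbc]
    refine AddSubgroup.sum_mem _ fun i _ => AddSubgroup.subset_closure ?_
    have hgi : S.jE i g ≠ 0 := (map_ne_zero _).2 hg0
    have hdisj : Disjoint (T' i) (U' i) := by
      rw [Finset.disjoint_left]
      intro w' hw hw'
      have h3 := (a1 i w').1 hw
      have h4 : S.jE i g⁻¹ ∈ w'.V.nonunits := (b1 i w').1 hw'
      rw [map_inv₀, hnu w' _ (inv_ne_zero hgi), inv_inv] at h4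
      exact h4 (w'.V.nonunits_subset h3)
    let : Algebra F (S.M i) := ((algebraMap K (S.M i)).comp (algebraMap F K)).toAlgebra
    have hT : IsScalarTower F K (S.M i) := IsScalarTower.of_algebraMap_eq fun a => rfl
    let j : E →ₐ[F] S.M i := { S.jE i with commutes' := fun a => S.comm i a }
    have hb1 : ∀ w', w' ∈ U' i ↔ (S.jE i g)⁻¹ ∈ w'.V.nonunits := by
      intro w'
      rw [← map_inv₀]
      exact b1 i w'
    refine ⟨S.M i, inferInstance, inferInstance, inferInstance, hT, S.funField i, S.jE i g,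
      Pt.map W (IsScalarTower.toAlgHom F (S.M i) (AlgebraicClosure (S.M i))) (Pt.map W j P),
      hgi, rat_map _, ?_⟩
    refine ⟨T' i ∪ U' i, fun w' => if w' ∈ T' i then mT i w' else - mU i w',
      fun w' => if w' ∈ T' i then xT i w' else xU i w', ?_, ?_, ?_⟩
    · intro w' hw'
      rw [Finset.mem_union, not_or] at hw'
      constructor
      · by_contra h3
        apply hw'.2
        rw [hb1, hnu w' _ (inv_ne_zero hgi), inv_inv]
        exact h3
      · by_contra h3
        apply hw'.1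
        rw [a1, hnu w' _ hgi]
        exact h3
    · intro w' hw'
      by_cases h3 : w' ∈ T' i
      · beta_reduce
        rw [if_pos h3, if_pos h3]
        exact ⟨(a2 i w' h3).1, rv_val j w' (a2 i w' h3).2⟩
      · beta_reduce
        rw [if_neg h3, if_neg h3]
        have h4 : w' ∈ U' i := (Finset.mem_union.1 hw').resolve_left h3
        obtain ⟨h5, h6⟩ := b2 i w' h4
        refine ⟨?_, rv_val j w' h6⟩
        have h7 : w'.IsOrd (S.jE i g⁻¹)⁻¹ (- mU i w') := Dz.ord_inv h5
        rwa [map_inv₀, inv_inv] at h7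
    · rw [Finset.sum_union hdisj, sub_eq_add_neg, ← Finset.sum_neg_distrib]
      congr 1
      · refine Finset.sum_congr rfl fun w' hw' => ?_
        beta_reduce
        rw [if_pos hw', if_pos hw']
        rfl
      · refine Finset.sum_congr rfl fun w' hw' => ?_
        have h3 : w' ∉ T' i := fun h => (Finset.disjoint_left.1 hdisj h) hw'
        beta_reduce
        rw [if_neg h3, if_neg h3]
        exact (Finsupp.single_neg _ _).symm
  · rw [Transcendental, not_not] at hg
    have h0 : ∑ w ∈ S₀, Finsupp.single (x w) (m w) = 0 := by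
      refine Finset.sum_eq_zero fun w hw => ?_
      rw [(h2 w hw).1.eq_zero (mem_of_algebraic w hg) (mem_of_algebraic w hg.inv),
        Finsupp.single_zero]
    rw [h0, Finsupp.mapDomain_zero]
    exact zero_mem _

end push

/-- **Base change of rational equivalence on an elliptic curve.** Proof: copy of `zeros_bc` (`Bx/Cnt.lean`) and `isPush_bc` (`Bx/Main.lean`) with the points of the curve instead of the points of projective space: for a generator of `ratEq` given by `E`, `g` and a point `x` over the algebraic closure of `E`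
which is Galois invariant, `x` comes from a point over `E` (`BE.exists_desc` in `Be/Gal.lean`); its value at `w` is its reduction (`Pt.Red`: coordinates in `w.V` with the residues, or the point at infinity); only the part `hval` of `zeros_bc` changes: if `a ∈ w.V ↔ jE a ∈ w'.V` and the residues correspond by `e`
then the reduction of the point `jE (x)` at `w'` is the image by `e` of the reduction of `x` at `w`. -/
theorem bc_ratEq {F K : Type} [Field F] [CharZero F] [Field K] [Algebra F K]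
    (W : WeierstrassCurve F) [W.IsElliptic] {z : (Ev W).pt (AlgebraicClosure F) →₀ ℤ}
    (hz : z ∈ (Ev W).ratEq F (AlgebraicClosure F)) :
    BE.bc (V := Ev W) K z ∈ (Ev W).ratEq K (AlgebraicClosure K) := by
  have hmd : ∀ z : (Ev W).pt (AlgebraicClosure F) →₀ ℤ, BE.bc (V := Ev W) K z =
      Finsupp.mapDomain.addMonoidHom (M := ℤ) ((Ev W).map (BE.emb F K)) z := fun z => rfl
  induction hz using AddSubgroup.closure_induction with
  | mem z hz =>
    obtain ⟨E, iE, i1, i2, hT, hE, g, x, hg0, hx, S₀, m, y, h1, h2, rfl⟩ := hz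
    have hi : i2 = i1 := by
      refine Algebra.algebra_ext _ _ fun r => ?_
      have := @IsScalarTower.algebraMap_apply F F E _ _ _ _ i1 i2 hT r
      exact this
    subst hi
    have hcE : CharZero E := charZero_of_injective_algebraMap (algebraMap F E).injective
    obtain ⟨P, rfl⟩ := exists_desc (K := E) (W := W) (P := x) hx
    exact push_bc (K := K) hE hg0 P S₀ m y h1 fun w hw => ⟨(h2 w hw).1, val_red w (h2 w hw).2⟩
  | zero => rw [hmd, map_zero]; exact zero_mem _
  | add a b _ _ ha hb => rw [hmd, map_add]; exact add_mem ha hb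
  | neg a _ ha => rw [hmd, map_neg]; exact neg_mem ha

end DN.Q
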