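import Pool.Agent.Lib.MP_f80667_ag.Do.Fv
import Pool.Agent.Lib.MP_f80667_ag.Cv.Mo

/-! Base change of the cycles. -/

open ZC BE PE CV NE IsDedekindDomain NumberField

namespace DN.Q

section a

variable {F : Type} [Field F] {N n : ℕ} {ι : Type} {f : ι → MvPolynomial (Fin N) F}
  {W : Fin n → WeierstrassCurve F} {Φ : Fin N → MvPolynomial (Fin n ⊕ Fin n) F}
  {h : MvPolynomial (Fin N) F} {D : ℕ} {Ω Ω' : Type} [Field Ω] [Field Ω'] [Algebra F Ω]
  [Algebra F Ω']

private theorem vl_map (σ : Ω →ₐ[F] Ω') {Q : ∀ i, Pt (W i) Ω} {x : Fin N → Ω}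
    (hx : Vl W Φ Q x) : Vl W Φ (fun i => Pt.map (W i) σ (Q i)) fun j => σ (x j) := by
  obtain ⟨X, Y, hn, rfl, h0, hv⟩ := hx
  refine ⟨fun i => σ (X i), fun i => σ (Y i), fun i =>
    (WeierstrassCurve.Affine.baseChange_nonsingular (W i).toAffine
      σ.injective (X i) (Y i)).mpr (hn i), rfl, ?_, fun j => ?_⟩
  · intro h1
    apply h0
    funext j
    have h2 : σ (x j) = 0 := congrFun h1 j
    exact (map_eq_zero_iff σ σ.injective).1 h2
  · have h1 : (Sum.elim (fun i => σ (X i)) fun i => σ (Y i)) = σ ∘ Sum.elim X Y := by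
      funext i
      rcases i with i | i <;> rfl
    rw [h1]
    change σ (x j) = MvPolynomial.aeval (fun i => σ (Sum.elim X Y i)) (Φ j)
    rw [← MvPolynomial.comp_aeval_apply, ← hv j]

/-- The domain and base change. Proof: as `dn_act` (`Do/Fv.lean`). -/
theorem dn_map (σ : Ω →ₐ[F] Ω') {Q : ∀ i, Pt (W i) Ω} (hQ : Q ∈ Dn W Φ Ω) :
    (fun i => Pt.map (W i) σ (Q i)) ∈ Dn W Φ Ω' := by
  obtain ⟨x, hx⟩ := hQ
  exact ⟨_, vl_map σ hx⟩

/-- The rational map and base change. Proof: as `fv_act` (`Do/Fv.lean`). -/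
theorem fv_map (hD : Dom f W Φ h D) (σ : Ω →ₐ[F] Ω') (o : (GX.Xf f).pt Ω) (o' : (GX.Xf f).pt Ω')
    {Q : ∀ i, Pt (W i) Ω} (hQ : Q ∈ Dn W Φ Ω) :
    (GX.Xf f).map σ (fv o Φ Q) = fv o' Φ fun i => Pt.map (W i) σ (Q i) := by
  obtain ⟨x, hx⟩ := hQ
  have h1 : GX.Co ((GX.Xf f).map σ (fv o Φ Q)) fun i => σ (x i) := by
    obtain ⟨R, h2, rfl⟩ := fv_co hD o hx
    rw [h2]
    exact ⟨R.mp σ, rfl, rfl⟩
  exact (fv_eq (vl_map σ hx) h1).symm

end a

section b

variable {F : Type} [Field F] {N n : ℕ} {ι : Type} {f : ι → MvPolynomial (Fin N) F}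
  {W : Fin n → WeierstrassCurve F} {Φ : Fin N → MvPolynomial (Fin n ⊕ Fin n) F}
  {h : MvPolynomial (Fin N) F} {D : ℕ} {K : Type} [Field K] [Algebra F K]

/-- The push-forward commutes with base change. -/
theorem bc_fv (hD : Dom f W Φ h D) (o : (GX.Xf f).pt (AlgebraicClosure F))
    (o' : (GX.Xf f).pt (AlgebraicClosure K)) {B : (∀ i, Pt (W i) (AlgebraicClosure F)) →₀ ℤ}
    (hB : ∀ Q ∈ B.support, Q ∈ Dn W Φ (AlgebraicClosure F)) :
    BE.bc (V := GX.Xf f) K (Finsupp.mapDomain (fv o Φ) B) =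
      Finsupp.mapDomain (fv o' Φ) (BE.bc (V := Vpi fun i => Ev (W i)) K B) := by
  have h1 : Finsupp.mapDomain ((GX.Xf f).map (BE.emb F K) ∘ fv o Φ) B =
      Finsupp.mapDomain (fv o' Φ ∘ fun Q i => Pt.map (W i) (BE.emb F K) (Q i)) B :=
    Finsupp.mapDomain_congr fun Q hQ => fv_map hD (BE.emb F K) o o' (hB Q hQ)
  exact (Finsupp.mapDomain_comp.symm.trans h1).trans Finsupp.mapDomain_comp

/-- The support of the base change. -/
theorem bc_dn {B : (∀ i, Pt (W i) (AlgebraicClosure F)) →₀ ℤ}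
    (hB : ∀ Q ∈ B.support, Q ∈ Dn W Φ (AlgebraicClosure F)) :
    ∀ Q ∈ (BE.bc (V := Vpi fun i => Ev (W i)) K B).support, Q ∈ Dn W Φ (AlgebraicClosure K) := by
  classical
  intro Q hQ
  obtain ⟨Q', hQ', rfl⟩ := Finset.mem_image.1 (Finsupp.mapDomain_support hQ)
  exact dn_map (BE.emb F K) (hB Q' hQ')

private theorem exists_lift (γ : AlgebraicClosure K ≃ₐ[K] AlgebraicClosure K) :
    ∃ σ : AlgebraicClosure F ≃ₐ[F] AlgebraicClosure F,
      (γ.restrictScalars F : AlgebraicClosure K →ₐ[F] AlgebraicClosure K).comp (BE.emb F K) =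
        (BE.emb F K).comp (σ.restrictScalars F : AlgebraicClosure F →ₐ[F] AlgebraicClosure F) := by
  let _ : Algebra (AlgebraicClosure F) (AlgebraicClosure K) := (BE.emb F K).toRingHom.toAlgebra
  have _ : IsScalarTower F (AlgebraicClosure F) (AlgebraicClosure K) :=
    IsScalarTower.of_algebraMap_eq fun x => ((BE.emb F K).commutes x).symm
  let τ : AlgebraicClosure F →ₐ[F] AlgebraicClosure K :=
    (γ.restrictScalars F : AlgebraicClosure K →ₐ[F] AlgebraicClosure K).comp (BE.emb F K)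
  let e := Normal.algHomEquivAut F (AlgebraicClosure K) (AlgebraicClosure F)
  refine ⟨e τ, AlgHom.ext fun x => ?_⟩
  have h1 : e.symm (e τ) = τ := e.symm_apply_apply τ
  exact (DFunLike.congr_fun h1 x).symm

/-- **The base change of a cycle over `F` of degree `0` is a cycle over `K` of degree `0`.** Proof: an automorphism `γ` of the algebraic closure of `K` over `K` maps the image of `emb F K` to itself (it is the algebraic closure of `F` in it: `Normal`), `γ ∘ emb = emb ∘ σ` with an automorphism `σ` over `F`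
(`AlgEquiv.restrictNormal` or `IsAlgClosed.lift` and comparison of the images); `Fct.comp`. -/
theorem bc_D0 {V : Vr F} (hV : Fct V) {z : V.pt (AlgebraicClosure F) →₀ ℤ}
    (hz : z ∈ V.D0 F (AlgebraicClosure F)) : BE.bc (V := V) K z ∈ V.D0 K (AlgebraicClosure K) := by
  refine ⟨fun γ => ?_, ?_⟩
  · obtain ⟨σ, hσ⟩ := exists_lift (F := F) γ
    have h1 : V.act γ ∘ V.map (BE.emb F K) = V.map (BE.emb F K) ∘ V.act σ := by
      funext x
      change V.map _ (V.map (BE.emb F K) x) = V.map (BE.emb F K) (V.map _ x)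
      rw [← hV.comp, ← hV.comp]
      exact congrArg (fun τ => V.map τ x) hσ
    unfold BE.bc
    rw [← Finsupp.mapDomain_comp, h1, Finsupp.mapDomain_comp]
    exact congrArg _ (hz.1 σ)
  · have h1 : (V.deg (AlgebraicClosure K)).comp
        (Finsupp.mapDomain.addMonoidHom (V.map (BE.emb F K))) = V.deg (AlgebraicClosure F) := by
      refine Finsupp.addHom_ext fun x n => ?_
      simp [Vr.deg, Finsupp.mapDomain_single]
    have h2 : V.deg (AlgebraicClosure F) z = 0 := hz.2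
    rw [← h1] at h2
    exact h2

end b

/-- The family of the base changes. -/
theorem exists_bcF {F : Type} [Field F] [NumberField F] {V : Vr F} (hV : Fct V) (c : Zc V F) :
    ∃ c' : Fam V, IsBcF c c' :=
  ⟨(fun v => ⟨BE.bc (FK F v) c.1, bc_D0 hV c.2⟩, fun v => ⟨BE.bc (IK F v) c.1, bc_D0 hV c.2⟩),
    fun _ => rfl, fun _ => rfl⟩

end DN.Q
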