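import Pool.Agent.Lib.MP_f80667_ag.De.Bce
import Pool.Agent.Lib.MP_f80667_ag.De.Bcv
import Pool.Agent.Lib.MP_f80667_ag.Be.HatA
import Pool.Agent.Lib.MP_f80667_ag.Bx.HatS
import Pool.Agent.Lib.MP_f80667_ag.Pe.Kg

/-! Classes of cycles and of families modulo `m`. -/

open ZC BE PE CV NE IsDedekindDomain NumberField

namespace DN.Q

section one

variable {F : Type} [Field F] {V : Vr F} {K : Type} [Field K] [Algebra F K]

/-- Classes modulo `m`. -/
theorem cls_of {c c' t : Dz V K} {m : ℕ}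
    (h : c.1 - c'.1 - m • t.1 ∈ V.ratEq K (AlgebraicClosure K)) :
    Gp.clsH V K c = Gp.clsH V K c' + m • Gp.clsH V K t := by
  rw [← map_nsmul, ← map_add]
  refine Gp.cls_eq.2 ?_
  have e : c.1 - (c' + m • t : Dz V K).1 = c.1 - c'.1 - m • t.1 := by
    change c.1 - (c'.1 + m • t.1) = _
    abel
  rw [Eqv, e]
  exact h

/-- Classes modulo `m`. -/
theorem cls_to {c c' t : Dz V K} {m : ℕ}
    (h : Gp.clsH V K c = Gp.clsH V K c' + m • Gp.clsH V K t) :
    c.1 - c'.1 - m • t.1 ∈ V.ratEq K (AlgebraicClosure K) := by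
  rw [← map_nsmul, ← map_add] at h
  have h1 : Eqv V K c.1 (c' + m • t : Dz V K).1 := Gp.cls_eq.1 h
  have e : c.1 - (c' + m • t : Dz V K).1 = c.1 - c'.1 - m • t.1 := by
    change c.1 - (c'.1 + m • t.1) = _
    abel
  rwa [Eqv, e] at h1

/-- Base change of the difference. -/
theorem bc_sub3 (z z' t : V.pt (AlgebraicClosure F) →₀ ℤ) (a m : ℕ) :
    BE.bc (V := V) K (z - a • z' - m • t) =
      BE.bc (V := V) K z - a • BE.bc (V := V) K z' - m • BE.bc (V := V) K t := by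
  let p : (V.pt (AlgebraicClosure F) →₀ ℤ) →+ (V.pt (AlgebraicClosure K) →₀ ℤ) :=
    Finsupp.mapDomain.addMonoidHom (M := ℤ) (V.map (BE.emb F K))
  have h : p (z - a • z' - m • t) = p z - a • p z' - m • p t := by
    rw [map_sub, map_sub, map_nsmul, map_nsmul]
  exact h

end one

section nf

variable {F : Type} [Field F] [NumberField F]

/-- Odd multiples of classes modulo norms. -/
theorem gb_odd {V : Vr F} {v : InfinitePlace F} {m : ℕ} (hm : Odd m) (x : Zc V (IK F v)) :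
    x.clN = m • x.clN := by
  obtain ⟨k, rfl⟩ := hm
  conv_rhs => rw [add_smul, one_smul, mul_smul, smul_comm, clN_two, smul_zero, zero_add]

/-- A representative modulo `m` and another family which is congruent modulo `m` at the finite places. -/
theorem rep_fam {V : Vr F} {m : ℕ+} (hm : Odd (m : ℕ)) {z : LHat (FA V)} {c c' : Fam V}
    (hz : z.Rep m c.cl) (h : ∀ v : HeightOneSpectrum (𝓞 F), ∃ t : Dz V (FK F v),
      (c.f v).cy - (c'.f v).cy - (m : ℕ) • t.1 ∈ V.ratEq (FK F v) (AlgebraicClosure (FK F v))) :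
    z.Rep m c'.cl := by
  choose t ht using h
  let w : FA V := (fun v => Gp.clsH V (FK F v) (t v), fun v => (c.i v).clN - (c'.i v).clN)
  have hw : c.cl = c'.cl + (m : ℕ) • w := by
    refine Prod.ext (funext fun v => cls_of (ht v)) (funext fun v => ?_)
    change (c.i v).clN = (c'.i v).clN + (m : ℕ) • ((c.i v).clN - (c'.i v).clN)
    rw [smul_sub, ← gb_odd hm, ← gb_odd hm, add_sub_cancel]
  have h1 := rep_add hz (-w)
  rw [hw, smul_neg, add_neg_cancel_right] at h1
  exact h1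

/-- **Representatives on an elliptic curve.** -/
theorem rep_bc {W : WeierstrassCurve F} [W.IsElliptic] {m : ℕ+} (hm : Odd (m : ℕ))
    {x : LHat (BE.Gp (Ev W) F)} {z : LHat (FA (Ev W))} {c b : Zc (Ev W) F} {c' b' : Fam (Ev W)}
    (h1 : x.Rep m c.cl) (h2 : z.Rep m c'.cl) (hc : IsBcF c c') (h3 : x.Rep m b.cl)
    (hb : IsBcF b b') : z.Rep m b'.cl := by
  obtain ⟨w, hw⟩ := rep_sub h1 h3
  obtain ⟨t, rfl⟩ := Gp.cls_surj w
  have h4 : (c : Dz (Ev W) F).1 - (b : Dz (Ev W) F).1 - (m : ℕ) • t.1 ∈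
      (Ev W).ratEq F (AlgebraicClosure F) := cls_to hw
  refine rep_fam hm h2 fun v => ?_
  refine ⟨⟨BE.bc (V := Ev W) (FK F v) t.1, bc_D0 (hfE W).out t.2⟩, ?_⟩
  have h5 := bc_ratEq (K := FK F v) W h4
  have e := bc_sub3 (V := Ev W) (K := FK F v) (c : Dz (Ev W) F).1 (b : Dz (Ev W) F).1 t.1 1 m
  rw [one_smul, one_smul] at e
  rw [e] at h5
  rw [hc.1 v, hb.1 v]
  exact h5

end nf

end DN.Q
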