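import Pool.Agent.Lib.MP_f80667_ag.Do.Def
import Pool.Agent.Lib.MP_f80667_ag.Cv.Mo
import Pool.Agent.Lib.MP_f80667_ag.Pe.StE

/-!
Projective varieties dominated by a product of elliptic curves and their maps to the elliptic curves: the definitions for the statement.

* `Trc f W Φ h s`: the morphism `s i` from the variety `f = 0` to the elliptic curve `W i` is the trace: its value at a point `P` with
  `h (P) ≠ 0` is the sum of the coordinates number `i` of the preimages of `P`.
* `QsP s P`: the statement for the prime numbers in `P`.
-/

open ZC BE PE CV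

namespace DN.Q

variable {F : Type} [Field F] {N n : ℕ} {ι : Type}

/-- The morphism `s i` maps a point `P` of the variety `f = 0` with `h (P) ≠ 0` to the sum of the coordinates number `i` of the
preimages of `P`. -/
def Trc (f : ι → MvPolynomial (Fin N) F) (W : Fin n → WeierstrassCurve F)
    (Φ : Fin N → MvPolynomial (Fin n ⊕ Fin n) F) (h : MvPolynomial (Fin N) F)
    (s : ∀ i, Mo (GX.Xf f) (Ev (W i))) : Prop :=
  ∀ (L : Type) [Field L] [IsAlgClosed L] [Algebra F L] (x : Fin N → L) (P : (GX.Xf f).pt L),
    DN.Gp f h x → GX.Co P x → ∀ i, ∑ᶠ Q ∈ Fb W Φ x, Q i = (s i).f L P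

/-- The statement for the variety `V` with the morphisms `s i` to the elliptic curves `W i` and the prime numbers in `P`: for all
`m ≠ 0` with all prime factors in `P` an element of `F^1_A(V)` is divisible by `m` if its push-forwards by the `s i` are; the
components at the prime numbers in `P` of an element `z` of the completion of `F^1_A(V)` are in the image of `Δ` if and only if this
holds for the push-forwards of `z` by the `s i`. -/
def QsP [NumberField F] {V : Vr F} {W : Fin n → WeierstrassCurve F} (s : ∀ i, Mo V (Ev (W i)))
    (P : Set ℕ) : Prop :=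
  (∀ m : ℕ, m ≠ 0 → Sf P m → ∀ x : FA V, (∀ i, ∃ y, (s i).fa x = m • y) → ∃ y, x = m • y) ∧
    ∀ z : LHat (FA V), ImDeS P z ↔ ∀ i, ImDeS P (LHat.map (s i).fa z)

end DN.Q
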