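import Pool.Agent.Lib.MP_f80667_ag.De.Fin
import Pool.Agent.Lib.MP_f80667_ag.Do.CndB
import Pool.Agent.Lib.MP_f80667_ag.Do.LdD
import Pool.Agent.Lib.MP_f80667_ag.Do.Inp
import Pool.Agent.Lib.MP_f80667_ag.Cv.Dv

/-! Varieties dominated by products of elliptic curves over number fields: the statement with the elliptic curves. -/

open ZC BE PE CV NE IsDedekindDomain NumberField

namespace DN.Q

/-- The case of the number `1`. -/
theorem im_one {F : Type} [Field F] [NumberField F] {V : Vr F} {P : Set ℕ}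
    (hP : ∀ m : ℕ+, Sf P m → m = 1) (z : LHat (FA V)) : ImDeS P z := by
  refine ⟨⟨fun _ => 0, fun m m' hm a ha => ?_⟩, fun m hm => ?_⟩
  · have h1 : (QuotientAddGroup.mk (0 : BE.Gp V F) : BE.Gp V F ⧸ mlt (BE.Gp V F) m') =
        QuotientAddGroup.mk a := ha
    obtain ⟨c, hc⟩ := mk_eq_iff.1 h1
    obtain ⟨q, hq⟩ := PNat.dvd_iff.1 hm
    have h2 : (QuotientAddGroup.mk (0 : BE.Gp V F) : BE.Gp V F ⧸ mlt (BE.Gp V F) m) =
        QuotientAddGroup.mk a := mk_eq_iff.2 ⟨q • c, by rw [← hc, smul_smul, ← hq]⟩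
    exact h2
  · have h1 := hP m hm
    subst h1
    have h0 : ∀ (K : Type) [Field K] [Algebra F K], (0 : Dz V K).1 = BE.bc K (0 : Dz V F).1 :=
      fun K _ _ => (Finsupp.mapDomain_zero).symm
    refine ⟨(0 : Dz V F), (0 : AdF V), ⟨fun v => h0 (FK F v), fun v => h0 (IK F v)⟩, ?_, ?_⟩
    · change (0 : BE.Gp V F ⧸ mlt (BE.Gp V F) _) = QuotientAddGroup.mk (Gp.clsH V F 0)
      rw [map_zero]
      rfl
    · obtain ⟨a, ha⟩ := z.exists_rep 1
      have h1 := rep_add ha (clH V 0 - a)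
      have e : a + ((1 : ℕ+) : ℕ) • (clH V 0 - a) = clH V 0 := by
        rw [PNat.one_coe, one_smul, add_sub_cancel]
      rw [e] at h1
      exact h1

variable {F : Type} [Field F] [NumberField F] {N n d : ℕ} {ι : Type}
  {f : ι → MvPolynomial (Fin N) F} {W : Fin n → WeierstrassCurve F} [∀ i, (W i).IsElliptic]
  {Φ : Fin N → MvPolynomial (Fin n ⊕ Fin n) F} {h : MvPolynomial (Fin N) F} {D : ℕ}
  {s : ∀ i, Mo (GX.Xf f) (Ev (W i))}

/-- The completions. -/
theorem dv_fk {l : ℕ} (hl : Plc W l) (v : HeightOneSpectrum (𝓞 F)) :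
    DvG (fun i => Ev (W i)) (FK F v) (AlgebraicClosure (FK F v)) l := by
  have hc : CharZero (FK F v) := charZero_of_injective_algebraMap (algebraMap F (FK F v)).injective
  obtain ⟨L, c, hc0, hc1, hL, hv, -⟩ := exists_ldD v
  exact dvG_plc hl L v hc0 hc1 hL hv

/-- Infinitely many points. -/
theorem inf_fk (W : WeierstrassCurve F) [W.IsElliptic] (v : HeightOneSpectrum (𝓞 F)) :
    Infinite (Pt W (FK F v)) := by
  have hc : CharZero (FK F v) := charZero_of_injective_algebraMap (algebraMap F (FK F v)).injective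
  obtain ⟨L, -⟩ := exists_ldD v
  exact inf_pt L W

/-- **The theorem.** -/
theorem qs_X (hf : GX.Nsg f d) (hD : Dom f W Φ h D) (ht : Trc f W Φ h s) :
    QsP s {l | Plc W l ∧ ¬ l ∣ D} := by
  obtain ⟨P, hP⟩ : ∃ P : Set ℕ, P = {l | Plc W l ∧ ¬ l ∣ D} := ⟨_, rfl⟩
  rw [← hP]
  have hPl : ∀ l ∈ P, Plc W l ∧ ¬ l ∣ D := fun l hl => by rw [hP] at hl; exact hl
  rcases Nat.eq_zero_or_pos D with h0 | h0
  · have h1 : ∀ m, Sf P m → m = 1 := by
      intro m hm
      by_contra h2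
      obtain ⟨l, hl, hd⟩ := Nat.exists_prime_and_dvd h2
      exact (hPl l (hm l hl hd)).2 (by rw [h0]; exact dvd_zero l)
    refine ⟨fun m _ hS x _ => ⟨x, by rw [h1 m hS, one_smul]⟩, fun z => ⟨fun hz i => qs2 hz i,
      fun _ => im_one (fun m hm => PNat.coe_eq_one_iff.1 (h1 m hm)) z⟩⟩
  have hP2 : ∀ m, m ≠ 0 → Sf P m → Odd m := by
    intro m _ hS
    rw [← Nat.not_even_iff_odd, even_iff_two_dvd]
    exact fun h' => (hPl 2 (hS 2 Nat.prime_two h')).1.odd rfl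
  have hPD : ∀ m, m ≠ 0 → Sf P m → m.Coprime D := by
    intro m _ hS
    refine Nat.Coprime.symm (Nat.coprime_of_dvd fun l hl h3 h4 => ?_)
    exact (hPl l (hS l hl h4)).2 h3
  have hd : ∀ (v : HeightOneSpectrum (𝓞 F)) (m : ℕ), m ≠ 0 → Sf P m →
      DvG (fun i => Ev (W i)) (FK F v) (AlgebraicClosure (FK F v)) m := by
    intro v m hm hS
    exact (dvP_iff (FK F v) m).1 (dvP_of (Λ := P)
      (fun l hl _ => (dvP_iff (FK F v) l).2 (dv_fk (hPl l hl).1 v)) m hm hS)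
  have hinf : ∀ (v : HeightOneSpectrum (𝓞 F)) (i), Infinite (Pt (W i) (FK F v)) :=
    fun v i => inf_fk (W i) v
  refine ⟨qs1 hf hD ht h0.ne' hinf hP2 hPD hd, fun z => ⟨fun hz i => qs2 hz i, fun hz =>
    qs3 hf hD ht h0.ne' hinf hP2 (fun l hl hp h3 => ?_) hd hz⟩⟩
  rcases hp.dvd_mul.1 h3 with h4 | h4
  · exact (hPl l hl).1.odd ((Nat.prime_dvd_prime_iff_eq hp Nat.prime_two).1
      (hp.dvd_of_dvd_pow h4))
  · exact (hPl l hl).2 h4

/-- The same statement in the form for an extension `F' / F` with `F' = F`. -/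
theorem qs_P (hf : GX.Nsg f d) (hD : Dom f W Φ h D) (ht : Trc f W Φ h s) :
    QsP s {l | Plc W l ∧ ¬ l ∣ D * Module.finrank F F} := by
  rw [Module.finrank_self, mul_one]
  exact qs_X hf hD ht

end DN.Q
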