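import Pool.Agent.Lib.MP_f80667_ag.De.Def
import Pool.Agent.Lib.MP_f80667_ag.Do.Fv
import Pool.Agent.Lib.MP_f80667_ag.Km.Pl

/-! The pull-back of cycles. -/

open ZC BE PE CV NE

namespace DN.Q

private theorem fib_ext {X G : Type} [AddCommGroup G] {ψ ψ' : (X →₀ ℤ) →+ G} {z : X →₀ ℤ}
    (h : ∀ P ∈ z.support, ψ (Finsupp.single P 1) = ψ' (Finsupp.single P 1)) : ψ z = ψ' z := by
  have e : z = ∑ P ∈ z.support, z P • Finsupp.single P (1 : ℤ) := by
    refine (Finsupp.sum_single z).symm.trans ?_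
    exact Finset.sum_congr rfl fun P _ => by rw [Finsupp.smul_single, smul_eq_mul, mul_one]
  have e1 : ∀ φ : (X →₀ ℤ) →+ G, φ z = ∑ P ∈ z.support, z P • φ (Finsupp.single P 1) := by
    intro φ
    refine (congrArg φ e).trans ?_
    rw [map_sum]
    exact Finset.sum_congr rfl fun P _ => map_zsmul φ _ _
  rw [e1, e1]
  exact Finset.sum_congr rfl fun P hP => by rw [h P hP]

section fib

variable {F : Type} [Field F] {N n : ℕ} {ι : Type}
  {f : ι → MvPolynomial (Fin N) F} {Ω : Type} [Field Ω] [Algebra F Ω]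

/-- The points above `P`. -/
private def fbs (W : Fin n → WeierstrassCurve F) (Φ : Fin N → MvPolynomial (Fin n ⊕ Fin n) F)
    (P : (GX.Xf f).pt Ω) : Set (∀ i, Pt (W i) Ω) :=
  {Q | ∃ x, GX.Co P x ∧ Vl W Φ Q x}

/-- The sum of the points above `P`. -/
private noncomputable def pbk (W : Fin n → WeierstrassCurve F)
    (Φ : Fin N → MvPolynomial (Fin n ⊕ Fin n) F) (P : (GX.Xf f).pt Ω) :
    (∀ i, Pt (W i) Ω) →₀ ℤ :=
  ∑ᶠ Q ∈ fbs W Φ P, Finsupp.single Q 1

/-- The pull-back of cycles. -/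
private noncomputable def kp (W : Fin n → WeierstrassCurve F)
    (Φ : Fin N → MvPolynomial (Fin n ⊕ Fin n) F) :
    ((GX.Xf f).pt Ω →₀ ℤ) →+ ((∀ i, Pt (W i) Ω) →₀ ℤ) :=
  Finsupp.liftAddHom fun P => zmultiplesHom _ (pbk W Φ P)

variable {W : Fin n → WeierstrassCurve F} {Φ : Fin N → MvPolynomial (Fin n ⊕ Fin n) F}

private theorem kp_single (P : (GX.Xf f).pt Ω) : kp W Φ (Finsupp.single P 1) = pbk W Φ P := by
  rw [kp, Finsupp.liftAddHom_apply_single, zmultiplesHom_apply, one_zsmul]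

private theorem pbk_hom {G : Type} [AddCommGroup G] {P : (GX.Xf f).pt Ω}
    (hP : (fbs W Φ P).Finite) (φ : ((∀ i, Pt (W i) Ω) →₀ ℤ) →+ G) :
    φ (pbk W Φ P) = ∑ᶠ Q ∈ fbs W Φ P, φ (Finsupp.single Q 1) :=
  φ.map_finsum_mem _ hP

variable {h : MvPolynomial (Fin N) F} {D : ℕ}

private theorem fbs_eq (hD : Dom f W Φ h D) {P : (GX.Xf f).pt Ω} {x : Fin N → Ω}
    (hx : GX.Co P x) : fbs W Φ P = Fb W Φ x := by
  ext Q
  constructor
  · rintro ⟨x', h1, h2⟩
    obtain ⟨c, hc, h3⟩ := GX.co_rel hx h1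
    refine ⟨c, hc, ?_⟩
    have h4 : x' = fun j => c * x j := funext h3
    rwa [h4] at h2
  · rintro ⟨c, hc, h2⟩
    refine ⟨_, ?_, h2⟩
    have h1 := hD.eq Ω Q _ h2
    have h0 : (fun j => c * x j) ≠ 0 := by
      obtain ⟨_, _, _, _, h0, _⟩ := h2
      exact h0
    obtain ⟨R, rfl, rfl⟩ := hx
    exact ⟨⟨fun j => c * R.x j, h0, h1⟩, Quotient.sound ⟨c, hc, rfl⟩, rfl⟩

private theorem fib_gp {P : (GX.Xf f).pt Ω} (hP : Hn h P) {x : Fin N → Ω}
    (hx : GX.Co P x) : Gp f h x :=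
  ⟨GX.co_ne hx, GX.co_zero hx, hP x hx⟩

private theorem fbs_card [IsAlgClosed Ω] (hD : Dom f W Φ h D) {P : (GX.Xf f).pt Ω}
    (hP : Hn h P) : (fbs W Φ P).ncard = D := by
  obtain ⟨x, hx⟩ := GX.exists_co P
  rw [fbs_eq hD hx]
  exact hD.deg Ω x (fib_gp hP hx)

private theorem fbs_fin [IsAlgClosed Ω] (hD : Dom f W Φ h D) (hD0 : D ≠ 0)
    {P : (GX.Xf f).pt Ω} (hP : Hn h P) : (fbs W Φ P).Finite := by
  refine Set.finite_of_ncard_ne_zero ?_
  rw [fbs_card hD hP]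
  exact hD0

private theorem pbk_const [IsAlgClosed Ω] (hD : Dom f W Φ h D) (hD0 : D ≠ 0) {G : Type}
    [AddCommGroup G] {P : (GX.Xf f).pt Ω} (hP : Hn h P)
    (φ : ((∀ i, Pt (W i) Ω) →₀ ℤ) →+ G) (g : G)
    (hg : ∀ Q ∈ fbs W Φ P, φ (Finsupp.single Q 1) = g) : φ (pbk W Φ P) = D • g := by
  have hf := fbs_fin hD hD0 hP
  rw [pbk_hom hf, finsum_mem_congr rfl hg, finsum_mem_eq_finite_toFinset_sum _ hf,
    Finset.sum_const, ← Set.ncard_eq_toFinset_card _ hf, fbs_card hD hP]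

end fib

private theorem fib_map {F : Type} [Field F] {W : WeierstrassCurve F} {L M : Type} [Field L]
    [Field M] [Algebra F L] [Algebra F M] (σ : L →ₐ[F] M) {x y : L}
    (h : (W.baseChange L).toAffine.Nonsingular x y) :
    ∃ h' : (W.baseChange M).toAffine.Nonsingular (σ x) (σ y),
      Pt.map W σ (Pt.aff x y h) = Pt.aff (σ x) (σ y) h' :=
  ⟨(WeierstrassCurve.Affine.baseChange_nonsingular W.toAffine σ.injective x y).mpr h, rfl⟩

section act

variable {F : Type} [Field F] {N n : ℕ} {ι : Type}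
  {f : ι → MvPolynomial (Fin N) F} {W : Fin n → WeierstrassCurve F}
  {Φ : Fin N → MvPolynomial (Fin n ⊕ Fin n) F} {K Ω : Type}
  [Field K] [Field Ω] [Algebra K Ω] [Algebra F K] [Algebra F Ω] [IsScalarTower F K Ω]

private theorem fib_vl (γ : Ω ≃ₐ[K] Ω) {Q : ∀ i, Pt (W i) Ω} {x : Fin N → Ω}
    (hx : Vl W Φ Q x) : Vl W Φ ((Vpi fun i => Ev (W i)).act γ Q) fun j => γ (x j) := by
  obtain ⟨X, Y, hXY, rfl, h0, h1⟩ := hx
  let σ : Ω →ₐ[F] Ω := (γ.restrictScalars F : Ω →ₐ[F] Ω)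
  have hn := fun i => fib_map (W := W i) σ (hXY i)
  refine ⟨fun i => σ (X i), fun i => σ (Y i), fun i => (hn i).choose,
    funext fun i => (hn i).choose_spec, ?_, fun j => ?_⟩
  · intro h2
    apply h0
    funext j
    exact (map_eq_zero γ).1 (congrFun h2 j)
  · change σ (x j) = _
    rw [h1 j, MvPolynomial.comp_aeval_apply]
    congr 2
    funext s
    cases s <;> rfl

private theorem fib_inv (γ : Ω ≃ₐ[K] Ω) (Q : ∀ i, Pt (W i) Ω) :
    (Vpi fun i => Ev (W i)).act γ ((Vpi fun i => Ev (W i)).act γ.symm Q) = Q := by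
  funext i
  change Pt.map (W i) (γ.restrictScalars F : Ω →ₐ[F] Ω)
    (Pt.map (W i) (γ.symm.restrictScalars F : Ω →ₐ[F] Ω) (Q i)) = Q i
  rw [Pt.map_map']
  have e : ((γ.restrictScalars F : Ω →ₐ[F] Ω).comp
      (γ.symm.restrictScalars F : Ω →ₐ[F] Ω)) = AlgHom.id F Ω :=
    AlgHom.ext fun a => γ.apply_symm_apply a
  rw [e, Pt.map_id']

end act

variable {F : Type} [Field F] {N n : ℕ} {ι : Type}
  {f : ι → MvPolynomial (Fin N) F} {W : Fin n → WeierstrassCurve F} [∀ i, (W i).IsElliptic]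
  {Φ : Fin N → MvPolynomial (Fin n ⊕ Fin n) F} {h : MvPolynomial (Fin N) F} {D : ℕ}
  {s : ∀ i, Mo (GX.Xf f) (Ev (W i))} {K Ω : Type} [Field K] [CharZero K] [Field Ω] [Algebra K Ω] [IsAlgClosure K Ω] [Algebra F K] [Algebra F Ω]
  [IsScalarTower F K Ω]

omit [∀ i, (W i).IsElliptic] [CharZero K] [IsAlgClosure K Ω]
  in
private theorem fbs_act (γ : Ω ≃ₐ[K] Ω) (P : (GX.Xf f).pt Ω) :
    fbs W Φ ((GX.Xf f).act γ P) = (Vpi fun i => Ev (W i)).act γ '' fbs W Φ P := by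
  ext Q
  constructor
  · rintro ⟨x, h1, h2⟩
    refine ⟨(Vpi fun i => Ev (W i)).act γ.symm Q,
      ⟨fun j => γ.symm (x j), ?_, fib_vl γ.symm h2⟩, fib_inv γ Q⟩
    have h3 := GX.co_act γ.symm h1
    have h4 : (GX.Xf f).act γ.symm ((GX.Xf f).act γ P) = P := by
      rw [← act_mul (GX.fct f)]
      have e : γ.symm * γ = 1 := AlgEquiv.ext fun a => γ.symm_apply_apply a
      rw [e, act_one (GX.fct f)]
    rwa [h4] at h3
  · rintro ⟨Q', ⟨x, h1, h2⟩, rfl⟩
    exact ⟨_, GX.co_act γ h1, fib_vl γ h2⟩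

omit [∀ i, (W i).IsElliptic] in
private theorem fib_abel {i : Fin n} [(W i).IsElliptic] {y : Pt (W i) Ω →₀ ℤ}
    (hy : y ∈ (Ev (W i)).D0 K Ω) (hs : sm y = 0) : y ∈ (Ev (W i)).ratEq K Ω := by
  have hO : IsAlgClosed Ω := IsAlgClosure.isAlgClosed K
  have hc : ∀ γ : Ω ≃ₐ[K] Ω, Finsupp.mapDomain (fun x => γ • x) y = y := fun γ => hy.1 γ
  have hd : dg y = 0 := hy.2
  exact (AddSubgroup.closure_le _).2 (fun y hy => pv_ratEq_ev hy) (abel (K := K) _ hc hd hs)

/-- **The pull-back.** The push-forwards of `w` are those of `z`. Proof: `w` is the sum over the points `P` of the support of `z` of `z P` times the sum of the points of the set `{Q | ∃ x, Co P x ∧ Vl W Φ Q x}`, which is `Fb W Φ x` for every vector `x` of coordinates of `P` and has `D` elements (`Dom.deg`; it is finite because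
`D ≠ 0`). It is Galois invariant (`Gp` and `Vl` are invariant, compare `kpull_act`, `kpull_mem` in `Km/Pl.lean`), the degree is `D deg z = 0`, the sum of the coordinates number `i` is `deg z` times the constant of `Dom.sum`, so `0`: Abel's theorem (`PE.abel`, `pv_ratEq_ev`, copy `pl_abel` in `Km/Pl.lean`). `fv` maps the points above `P` to `P` (`fv_eq`). -/
theorem exists_pull (hD : Dom f W Φ h D) (ht : Trc f W Φ h s) (hD0 : D ≠ 0) (o : (GX.Xf f).pt Ω)
    {z : (GX.Xf f).pt Ω →₀ ℤ} (hz : z ∈ (GX.Xf f).D0 K Ω) (hs : ∀ P ∈ z.support, Hn h P) :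
    ∃ w : (∀ i, Pt (W i) Ω) →₀ ℤ, w ∈ (Vpi fun i => Ev (W i)).D0 K Ω ∧
      (∀ i, Finsupp.mapDomain ((pr (V := fun i => Ev (W i)) i).f Ω) w -
        Finsupp.mapDomain ((s i).f Ω) z ∈ (Ev (W i)).ratEq K Ω) ∧
      (∀ Q ∈ w.support, Q ∈ Dn W Φ Ω) ∧ Finsupp.mapDomain (fv o Φ) w = D • z := by
  have hO : IsAlgClosed Ω := IsAlgClosure.isAlgClosed K
  have hd0 : dg z = 0 := hz.2
  have hdg : dg (kp W Φ z) = 0 := by
    have h1 : (dg.comp (kp W Φ) : ((GX.Xf f).pt Ω →₀ ℤ) →+ ℤ) z = (D • dg) z :=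
      fib_ext fun P hP => by
        change dg (kp W Φ (Finsupp.single P 1)) = D • dg (Finsupp.single P (1 : ℤ))
        rw [kp_single, sib_dg_single]
        exact pbk_const hD hD0 (hs P hP) dg 1 fun Q _ => sib_dg_single Q 1
    refine h1.trans ?_
    change D • dg z = 0
    rw [hd0, smul_zero]
  have hact : ∀ γ : Ω ≃ₐ[K] Ω, Finsupp.mapDomain ((Vpi fun i => Ev (W i)).act γ) (kp W Φ z) =
      kp W Φ z := by
    intro γ
    let α : (∀ i, Pt (W i) Ω) → ∀ i, Pt (W i) Ω := (Vpi fun i => Ev (W i)).act γ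
    have h1 : ((Finsupp.mapDomain.addMonoidHom (M := ℤ) α).comp (kp W Φ)) z =
        ((kp W Φ).comp (Finsupp.mapDomain.addMonoidHom (M := ℤ) ((GX.Xf f).act γ))) z :=
      fib_ext fun P hP => by
        change Finsupp.mapDomain.addMonoidHom (M := ℤ) α (kp W Φ (Finsupp.single P 1)) =
          kp W Φ (Finsupp.mapDomain ((GX.Xf f).act γ) (Finsupp.single P 1))
        rw [Finsupp.mapDomain_single, kp_single, kp_single,
          pbk_hom (fbs_fin hD hD0 (hs P hP)), pbk]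
        have hS : fbs W Φ ((GX.Xf f).act γ P) = α '' fbs W Φ P := fbs_act γ P
        rw [hS]
        have hi : Set.InjOn α (fbs W Φ P) := by
          intro Q _ Q' _ e
          have e1 := fib_inv γ.symm Q
          have e2 := fib_inv γ.symm Q'
          rw [AlgEquiv.symm_symm] at e1 e2
          rw [← e1, ← e2]
          exact congrArg _ e
        rw [finsum_mem_image hi]
        refine finsum_mem_congr rfl fun Q _ => ?_
        exact Finsupp.mapDomain_single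
    refine h1.trans ?_
    exact congrArg (kp W Φ) (hz.1 γ)
  have hw : (kp W Φ z : (∀ i, Pt (W i) Ω) →₀ ℤ) ∈ (Vpi fun i => Ev (W i)).D0 K Ω :=
    ⟨hact, hdg⟩
  refine ⟨kp W Φ z, hw, fun i => ?_, fun Q hQ => ?_, ?_⟩
  · have h1 : ((sm : (Pt (W i) Ω →₀ ℤ) →+ Pt (W i) Ω).comp
        ((Finsupp.mapDomain.addMonoidHom (M := ℤ) fun P : ∀ i, Pt (W i) Ω => P i).comp
          (kp W Φ))) z = ((sm : (Pt (W i) Ω →₀ ℤ) →+ Pt (W i) Ω).comp
        (Finsupp.mapDomain.addMonoidHom (M := ℤ) ((s i).f Ω))) z :=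
      fib_ext fun P hP => by
        obtain ⟨x, hx⟩ := GX.exists_co P
        change ((sm : (Pt (W i) Ω →₀ ℤ) →+ Pt (W i) Ω).comp
          (Finsupp.mapDomain.addMonoidHom (M := ℤ) fun P : ∀ i, Pt (W i) Ω => P i))
            (kp W Φ (Finsupp.single P 1)) = (sm : (Pt (W i) Ω →₀ ℤ) →+ Pt (W i) Ω)
              (Finsupp.mapDomain ((s i).f Ω) (Finsupp.single P (1 : ℤ)))
        have e0 : Finsupp.mapDomain ((s i).f Ω) (Finsupp.single P (1 : ℤ)) =
            Finsupp.single ((s i).f Ω P) 1 := Finsupp.mapDomain_single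
        have e2 : ∀ Q : Pt (W i) Ω, (sm : (Pt (W i) Ω →₀ ℤ) →+ Pt (W i) Ω)
            (Finsupp.single Q 1) = Q := by
          intro Q
          rw [sm, Finsupp.liftAddHom_apply_single, zmultiplesHom_apply, one_zsmul]
        have e1 : (sm : (Pt (W i) Ω →₀ ℤ) →+ Pt (W i) Ω)
            (Finsupp.mapDomain ((s i).f Ω) (Finsupp.single P (1 : ℤ))) = (s i).f Ω P :=
          (congrArg (sm : (Pt (W i) Ω →₀ ℤ) →+ Pt (W i) Ω) e0).trans (e2 _)
        rw [e1, kp_single, pbk_hom (fbs_fin hD hD0 (hs P hP)), fbs_eq hD hx,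
          ← ht Ω x P (fib_gp (hs P hP) hx) hx i]
        refine finsum_mem_congr rfl fun Q _ => ?_
        change sm (Finsupp.mapDomain (fun P : ∀ i, Pt (W i) Ω => P i) (Finsupp.single Q 1)) = Q i
        rw [Finsupp.mapDomain_single, sm, Finsupp.liftAddHom_apply_single, zmultiplesHom_apply,
          one_zsmul]
    refine fib_abel (sub_mem ((pr (V := fun i => Ev (W i)) i).D0 hw) ((s i).D0 hz)) ?_
    exact (map_sub (sm : (Pt (W i) Ω →₀ ℤ) →+ Pt (W i) Ω) _ _).trans (sub_eq_zero.2 h1)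
  · by_contra hn
    have h1 : ((Finsupp.applyAddHom Q).comp (kp W Φ) : ((GX.Xf f).pt Ω →₀ ℤ) →+ ℤ) z =
        (0 : ((GX.Xf f).pt Ω →₀ ℤ) →+ ℤ) z :=
      fib_ext fun P hP => by
        change Finsupp.applyAddHom Q (kp W Φ (Finsupp.single P 1)) = 0
        rw [kp_single, pbk_hom (fbs_fin hD hD0 (hs P hP))]
        refine finsum_mem_eq_zero_of_forall_eq_zero fun Q' hQ' => ?_
        obtain ⟨x, -, hx⟩ := hQ'
        have hne : Q' ≠ Q := by
          rintro rfl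
          exact hn ⟨x, hx⟩
        exact Finsupp.single_eq_of_ne hne.symm
    exact (Finsupp.mem_support_iff.1 hQ) h1
  · have h1 : ((Finsupp.mapDomain.addMonoidHom (M := ℤ) (fv o Φ)).comp (kp W Φ)) z =
        (D • AddMonoidHom.id ((GX.Xf f).pt Ω →₀ ℤ)) z :=
      fib_ext fun P hP => by
        change Finsupp.mapDomain.addMonoidHom (M := ℤ) (fv o Φ) (kp W Φ (Finsupp.single P 1)) =
          D • Finsupp.single P (1 : ℤ)
        rw [kp_single]
        refine pbk_const hD hD0 (hs P hP) _ _ fun Q hQ => ?_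
        obtain ⟨x, hx, hx'⟩ := hQ
        change Finsupp.mapDomain (fv o Φ) (Finsupp.single Q 1) = Finsupp.single P (1 : ℤ)
        rw [Finsupp.mapDomain_single, fv_eq hx' hx]
    exact h1

end DN.Q
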