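import Pool.Agent.Lib.MP_f80667_ag.Do.Fv
import Mathlib.RingTheory.Nullstellensatz

/-! The domain is not empty. -/

open ZC BE PE CV NE

namespace DN.Q

variable {F : Type} [Field F] [CharZero F] {N n d : ℕ} {ι : Type}
  {f : ι → MvPolynomial (Fin N) F} {W : Fin n → WeierstrassCurve F}
  {Φ : Fin N → MvPolynomial (Fin n ⊕ Fin n) F} {h : MvPolynomial (Fin N) F} {D : ℕ} {Ω : Type}
  [Field Ω] [Algebra F Ω] [IsAlgClosed Ω]

omit [CharZero F] in
/-- Some variable is not in the ideal. -/
private theorem exists_var (hf : GX.Nsg f d) :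
    ∃ j, (MvPolynomial.X j : MvPolynomial (Fin N) F) ∉ Ideal.span (Set.range f) := by
  by_contra hcon
  push Not at hcon
  have hpr := hf.prime
  have hdim := hf.dim
  generalize Ideal.span (Set.range f) = I at *
  have : I.IsPrime := hpr
  have halg : Algebra.IsAlgebraic F (MvPolynomial (Fin N) F ⧸ I) := by
    refine ⟨fun a => ?_⟩
    obtain ⟨p, rfl⟩ := Ideal.Quotient.mk_surjective a
    induction p using MvPolynomial.induction_on with
    | C c => exact isAlgebraic_algebraMap (R := F) (A := MvPolynomial (Fin N) F ⧸ I) c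
    | add p q hp hq =>
      rw [map_add]
      exact hp.add hq
    | mul_X p j hp =>
      rw [map_mul, Ideal.Quotient.eq_zero_iff_mem.2 (hcon j), mul_zero]
      exact isAlgebraic_zero
  rw [trdeg_eq_zero_iff.2 halg] at hdim
  have h1 : ((d + 1 : ℕ) : Cardinal) = 0 := hdim.symm
  rw [Nat.cast_eq_zero] at h1
  omega

/-- A point with `h ≠ 0`. Proof: some variable `X j` is not in the prime ideal `I` of the `f i` (otherwise the quotient ring is `F` and its transcendence degree is not `d + 1`); `h X_j` is not in `I`, and `I` is the intersection of the maximal ideals over it with residue fields algebraic over `F` (Nullstellensatz: `MvPolynomial`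
is a Jacobson ring, `MvPolynomial.comp_C_integral_of_surjective_of_isJacobsonRing` or the Nullstellensatz in Mathlib; compare `Gx/*.lean`, `Do/Rl.lean`): an embedding of such a residue field in `Ω` gives `x` with `f (x) = 0`, `h (x) x_j ≠ 0`. -/
theorem exists_gp (hf : GX.Nsg f d) (hn : h ∉ Ideal.span (Set.range f)) :
    ∃ x : Fin N → Ω, DN.Gp f h x := by
  obtain ⟨j, hj⟩ := exists_var hf
  have hpr := hf.prime
  have h1 : h * MvPolynomial.X j ∉ Ideal.span (Set.range f) := fun h2 =>
    (hpr.mem_or_mem h2).elim hn hj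
  rw [← MvPolynomial.IsPrime.vanishingIdeal_zeroLocus (K := Ω) (Ideal.span (Set.range f)),
    MvPolynomial.mem_vanishingIdeal_iff] at h1
  push Not at h1
  obtain ⟨x, hx, h2⟩ := h1
  rw [map_mul, MvPolynomial.aeval_X] at h2
  refine ⟨x, fun h3 => h2 ?_, fun i => ?_, fun h3 => h2 ?_⟩
  · rw [h3]
    exact mul_zero _
  · exact MvPolynomial.mem_zeroLocus_iff.1 hx _ (Ideal.subset_span ⟨i, rfl⟩)
  · rw [h3, zero_mul]

/-- The domain is not empty. Proof: `exists_gp`, `Dom.deg`: the set of the preimages has `D ≠ 0` elements. -/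
theorem dn_ne (hf : GX.Nsg f d) (hD : Dom f W Φ h D) (hD0 : D ≠ 0) : (Dn W Φ Ω).Nonempty := by
  obtain ⟨x, hx⟩ := exists_gp (Ω := Ω) hf hD.ne
  have h1 := hD.deg Ω x hx
  obtain ⟨P, c, -, hP⟩ := Set.nonempty_of_ncard_ne_zero (h1 ▸ hD0 : (Fb W Φ x).ncard ≠ 0)
  exact ⟨P, _, hP⟩

/-- The variety has a point. -/
theorem exists_o (hf : GX.Nsg f d) (hn : h ∉ Ideal.span (Set.range f)) :
    Nonempty ((GX.Xf f).pt Ω) := by
  obtain ⟨x, hx⟩ := exists_gp (Ω := Ω) hf hn
  obtain ⟨P, -⟩ := GX.co_mk hx.1 hx.2.1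
  exact ⟨P⟩

end DN.Q
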