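import Pool.Agent.Lib.MP_f80667_ag.De.Gl
import Pool.Agent.Lib.MP_f80667_ag.De.Ne

/-! The statement for a set of prime numbers. -/

open ZC BE PE CV NE IsDedekindDomain NumberField

namespace DN.Q

section seq

variable {G : Type} [AddCommGroup G]

/-- A sequence with differences divisible by `M k`. -/
theorem seq_le {M : ℕ → ℕ+} (hM : ∀ k, (M k : ℕ) ∣ M (k + 1)) {y : ℕ → G}
    (hy : ∀ k, ∃ u, y (k + 1) = y k + (M k : ℕ) • u) (k l : ℕ) :
    ∃ u, y (k + l) = y k + (M k : ℕ) • u := by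
  induction l with
  | zero => exact ⟨0, by simp⟩
  | succ l ih =>
    obtain ⟨u, hu⟩ := ih
    obtain ⟨w, hw⟩ := hy (k + l)
    have hd : (M k : ℕ) ∣ M (k + l) := by
      clear hu hw
      induction l with
      | zero => exact dvd_rfl
      | succ l ih2 => exact ih2.trans (hM (k + l))
    obtain ⟨q, hq⟩ := hd
    refine ⟨u + q • w, ?_⟩
    rw [← add_assoc, hw, hu, hq, smul_add, mul_smul, add_assoc]

/-- The difference of two terms. -/
theorem seq_dvd {M : ℕ → ℕ+} (hM : ∀ k, (M k : ℕ) ∣ M (k + 1)) {y : ℕ → G}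
    (hy : ∀ k, ∃ u, y (k + 1) = y k + (M k : ℕ) • u) {m k k' : ℕ} (h : m ∣ M k)
    (h' : m ∣ M k') : ∃ u, y k' = y k + m • u := by
  rcases le_total k k' with hk | hk
  · obtain ⟨l, rfl⟩ := Nat.exists_eq_add_of_le hk
    obtain ⟨u, hu⟩ := seq_le hM hy k l
    obtain ⟨q, hq⟩ := h
    exact ⟨q • u, by rw [hu, hq, mul_smul]⟩
  · obtain ⟨l, rfl⟩ := Nat.exists_eq_add_of_le hk
    obtain ⟨u, hu⟩ := seq_le hM hy k' l
    obtain ⟨q, hq⟩ := h'
    refine ⟨-(q • u), ?_⟩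
    rw [hu, hq, mul_smul, smul_neg, add_neg_cancel_right]

end seq

section nf

variable {F : Type} [Field F] [NumberField F] {N n d : ℕ} {ι : Type}
  {f : ι → MvPolynomial (Fin N) F} {W : Fin n → WeierstrassCurve F} [∀ i, (W i).IsElliptic]
  {Φ : Fin N → MvPolynomial (Fin n ⊕ Fin n) F} {h : MvPolynomial (Fin N) F} {D : ℕ}
  {s : ∀ i, Mo (GX.Xf f) (Ev (W i))} {P : Set ℕ}

/-- Divisibility. -/
theorem qs1 (hf : GX.Nsg f d) (hD : Dom f W Φ h D) (ht : Trc f W Φ h s) (hD0 : D ≠ 0)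
    (hinf : ∀ (v : HeightOneSpectrum (𝓞 F)) (i), Infinite (Pt (W i) (FK F v)))
    (hP2 : ∀ m, m ≠ 0 → Sf P m → Odd m) (hPD : ∀ m, m ≠ 0 → Sf P m → m.Coprime D)
    (hd : ∀ (v : HeightOneSpectrum (𝓞 F)) (m : ℕ), m ≠ 0 → Sf P m →
      DvG (fun i => Ev (W i)) (FK F v) (AlgebraicClosure (FK F v)) m) (m : ℕ) (hm : m ≠ 0)
    (hS : Sf P m) (x : FA (GX.Xf f)) (hx : ∀ i, ∃ y, (s i).fa x = m • y) : ∃ y, x = m • y := by
  have h1 : ∀ v : HeightOneSpectrum (𝓞 F), ∃ y, x.1 v = m • y := by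
    intro v
    have hc : CharZero (FK F v) :=
      charZero_of_injective_algebraMap (algebraMap F (FK F v)).injective
    have hi : ∀ i, Infinite (Pt (W i) (FK F v)) := hinf v
    obtain ⟨o⟩ := exists_o (Ω := AlgebraicClosure (FK F v)) hf hD.ne
    refine gp_m hf hD ht hD0 hm (hPD m hm hS) (hd v m hm hS) o (x.1 v) fun i => ?_
    obtain ⟨y, hy⟩ := hx i
    exact ⟨y.1 v, congrFun (congrArg Prod.fst hy) v⟩
  choose y hy using h1
  refine ⟨(y, x.2), Prod.ext (funext fun v => hy v) (funext fun v => ?_)⟩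
  obtain ⟨c, hc⟩ := Gb.cls_surj (x.2 v)
  have h2 : (Zc.clN (V := GX.Xf f) (K := IK F v) c) = m • Zc.clN (V := GX.Xf f) (K := IK F v) c :=
    gb_odd (hP2 m hm hS) c
  change x.2 v = m • x.2 v
  rw [← hc]
  exact h2

omit [∀ i, (W i).IsElliptic] in
/-- The push-forward of an element of the image. -/
theorem qs2 {z : LHat (FA (GX.Xf f))} (hz : ImDeS P z) (i : Fin n) :
    ImDeS P (LHat.map (s i).fa z) := by
  obtain ⟨x, hx⟩ := hz
  refine ⟨LHat.map ((s i).gp F) x, fun m hm => ?_⟩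
  obtain ⟨c, c', hb, h1, h2⟩ := hx m hm
  exact ⟨(s i).dz F c, (s i).ad c', (s i).isBcF hb, h1.map _, h2.map _⟩

/-- **The image.** -/
theorem qs3 (hf : GX.Nsg f d) (hD : Dom f W Φ h D) (ht : Trc f W Φ h s) (hD0 : D ≠ 0)
    (hinf : ∀ (v : HeightOneSpectrum (𝓞 F)) (i), Infinite (Pt (W i) (FK F v)))
    (hP2 : ∀ m, m ≠ 0 → Sf P m → Odd m) (hPD : ∀ l ∈ P, l.Prime → ¬ l ∣ 2 ^ n * D)
    (hd : ∀ (v : HeightOneSpectrum (𝓞 F)) (m : ℕ), m ≠ 0 → Sf P m →
      DvG (fun i => Ev (W i)) (FK F v) (AlgebraicClosure (FK F v)) m)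
    {z : LHat (FA (GX.Xf f))} (hz : ∀ i, ImDeS P (LHat.map (s i).fa z)) : ImDeS P z := by
  classical
  obtain ⟨M, hM1, hM2, hM3⟩ := exists_chain P
  choose x hx using hz
  choose y hy1 hy2 using fun i => exists_y (x i) hM2
  obtain ⟨o⟩ := exists_o (Ω := AlgebraicClosure F) hf hD.ne
  obtain ⟨B, hB⟩ := exists_th hD o (dn_ne (Ω := AlgebraicClosure F) hf hD hD0)
  let k : ℕ+ → ℕ := fun m => if hm : Sf P m then (hM3 m hm).choose else 0
  have hk : ∀ m : ℕ+, Sf P m → (m : ℕ) ∣ M (k m) := by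
    intro m hm
    have e : k m = (hM3 m hm).choose := dif_pos hm
    rw [e]
    exact (hM3 m hm).choose_spec
  let T : ℕ+ → ((∀ i, Pt (W i) (AlgebraicClosure F)) →₀ ℤ) := fun m => ∑ i, B i (y i (k m))
  have hT0 : ∀ m, T m ∈ (Vpi fun i => Ev (W i)).D0 F (AlgebraicClosure F) := fun m =>
    sum_mem fun i _ => (hB i _).1
  have hTs : ∀ m, ∀ Q ∈ (T m).support, Q ∈ Dn W Φ (AlgebraicClosure F) := by
    intro m Q hQ
    have h1 : ∑ i, (B i (y i (k m))) Q ≠ 0 := by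
      rw [← Finsupp.finsetSum_apply]
      exact Finsupp.mem_support_iff.1 hQ
    obtain ⟨i, -, hi⟩ := Finset.exists_ne_zero_of_sum_ne_zero h1
    exact (hB i _).2.1 Q (Finsupp.mem_support_iff.2 hi)
  have hTp : ∀ m i, Finsupp.mapDomain
      ((pr (V := fun i => Ev (W i)) i).f (AlgebraicClosure F)) (T m) - 2 ^ n •
        (dp (y i (k m))).1 ∈ (Ev (W i)).ratEq F (AlgebraicClosure F) := by
    intro m i
    have e1 := map_sum (Finsupp.mapDomain.addMonoidHom (M := ℤ)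
      ((pr (V := fun i => Ev (W i)) i).f (AlgebraicClosure F))) (fun j => B j (y j (k m)))
      Finset.univ
    have e2 : Finsupp.mapDomain ((pr (V := fun i => Ev (W i)) i).f (AlgebraicClosure F)) (T m) =
        Finsupp.mapDomain ((pr (V := fun i => Ev (W i)) i).f (AlgebraicClosure F))
          (B i (y i (k m))) := by
      refine e1.trans ?_
      rw [Finset.sum_eq_single i]
      · rfl
      · intro j _ hji
        exact (hB j (y j (k m))).2.2.2.1 i hji.symm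
      · intro hi
        exact absurd (Finset.mem_univ i) hi
    rw [e2]
    exact (hB i (y i (k m))).2.2.1
  have hTf : ∀ m, Finsupp.mapDomain (fv o Φ) (T m) ∈ (GX.Xf f).D0 F (AlgebraicClosure F) := by
    intro m
    have e1 := map_sum (Finsupp.mapDomain.addMonoidHom (M := ℤ) (fv (f := f) (W := W) o Φ))
      (fun j => B j (y j (k m))) Finset.univ
    have e2 : Finsupp.mapDomain (fv (f := f) (W := W) o Φ) (T m) =
      ∑ j, Finsupp.mapDomain (fv (f := f) o Φ) (B j (y j (k m))) := e1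
    rw [e2]
    exact sum_mem fun i _ => (hB i _).2.2.2.2.1
  let Y : ℕ+ → Dz (GX.Xf f) F := fun m => ⟨_, hTf m⟩
  have hYc : ∀ m m' : ℕ+, Sf P m → Sf P m' → (m : ℕ) ∣ m' → ∃ w : BE.Gp (GX.Xf f) F,
      Gp.clsH _ F (Y m') = Gp.clsH _ F (Y m) + (m : ℕ) • w := by
    intro m m' hm hm' hdv
    have h1 : ∀ i, ∃ t ∈ (GX.Xf f).D0 F (AlgebraicClosure F),
        Finsupp.mapDomain (fv o Φ) (B i (y i (k m'))) -
          Finsupp.mapDomain (fv o Φ) (B i (y i (k m))) - (m : ℕ) • t ∈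
            (GX.Xf f).ratEq F (AlgebraicClosure F) := by
      intro i
      obtain ⟨u, hu⟩ := seq_dvd hM2 (hy2 i) (hk m hm) (hdv.trans (hk m' hm'))
      rw [hu]
      exact (hB i (y i (k m))).2.2.2.2.2 m (hP2 m m.ne_zero hm) u
    choose t ht0 ht1 using h1
    let tt : Dz (GX.Xf f) F := ⟨∑ i, t i, sum_mem fun i _ => ht0 i⟩
    refine ⟨Gp.clsH _ F tt, cls_of ?_⟩
    have e1 : ∀ m, (Y m).1 = ∑ j, Finsupp.mapDomain (fv (f := f) o Φ) (B j (y j (k m))) :=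
      fun m => map_sum (Finsupp.mapDomain.addMonoidHom (M := ℤ) (fv (f := f) (W := W) o Φ))
        (fun j => B j (y j (k m))) Finset.univ
    have e2 : tt.1 = ∑ i, t i := rfl
    rw [e1, e1, e2, Finset.smul_sum, ← Finset.sum_sub_distrib, ← Finset.sum_sub_distrib]
    exact sum_mem fun i _ => ht1 i
  obtain ⟨X, hX⟩ := exists_lh hPD (fun m => Gp.clsH _ F (Y m)) hYc
  refine ⟨X, fun m hm => ?_⟩
  obtain ⟨c, hc, hr⟩ := hX m hm
  let C : Zc (GX.Xf f) F := (c • Y m : Dz (GX.Xf f) F)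
  obtain ⟨C', hC'⟩ := exists_bcF (GX.fct f) C
  refine ⟨C, C', hC', ?_, ?_⟩
  · have e : Zc.cl C = c • Gp.clsH _ F (Y m) := map_zsmul (Gp.clsH (GX.Xf f) F) c (Y m)
    rw [e]
    exact hr
  · choose E' hE' using fun i => exists_bcF (hfE (W i)).out
      (dp (y i (k m)) : Zc (Ev (W i)) F)
    refine rep_y hf hD ht hD0 hinf (hP2 m m.ne_zero hm) (fun v => hd v m m.ne_zero hm) o
      (hT0 m) (hTs m) (fun i => dp (y i (k m))) E' hE' (fun i => ?_) (hTp m) hc rfl hC'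
    obtain ⟨c₁, c₁', hb, h1, h2⟩ := hx i m hm
    exact rep_bc (hP2 m m.ne_zero hm) h1 h2 hb
      ((hy1 i (k m)).of_dvd (hk m hm)) (hE' i)

end nf

end DN.Q
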