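import Pool.Agent.Lib.MP_f80667_ag.De.Bb
import Pool.Agent.Lib.MP_f80667_ag.Do.Dns

/-! General points with first coordinates in the ground field. -/

open ZC BE PE CV NE

namespace DN.Q

variable {F : Type} [Field F] [CharZero F] {N n : ℕ} {W : Fin n → WeierstrassCurve F}
  [∀ i, (W i).IsElliptic] {Φ : Fin N → MvPolynomial (Fin n ⊕ Fin n) F} {Ω : Type} [Field Ω]
  [Algebra F Ω] [IsAlgClosure F Ω]

private noncomputable def genX {W : WeierstrassCurve F} : Pt W Ω → Ω
  | .zero => 0
  | .some x _ _ => x

private noncomputable def genY {W : WeierstrassCurve F} : Pt W Ω → Ω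
  | .zero => 0
  | .some _ y _ => y

omit [CharZero F] [IsAlgClosure F Ω] in
private lemma gen_aff {W : WeierstrassCurve F} (Q : Pt W Ω) (hQ : Q ≠ 0) :
    ∃ h : (W.baseChange Ω).toAffine.Nonsingular (genX Q) (genY Q),
      Q = Pt.aff (genX Q) (genY Q) h := by
  match Q, hQ with
  | .zero, h => exact absurd rfl h
  | .some x y h, _ => exact ⟨h, rfl⟩

omit [CharZero F] [IsAlgClosure F Ω] in
private lemma gen_aff_ne {W : WeierstrassCurve F} {x y : Ω}
    (h : (W.baseChange Ω).toAffine.Nonsingular x y) : (Pt.aff x y h : Pt W Ω) ≠ 0 := by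
  intro h1
  cases h1

open Classical in
/-- the value of `Φ_j` -/
private noncomputable def genV (W : Fin n → WeierstrassCurve F)
    (p : MvPolynomial (Fin n ⊕ Fin n) F) (Q : ∀ i, Pt (W i) Ω) : Ω :=
  if ∀ i, Q i ≠ 0 then
    MvPolynomial.aeval (Sum.elim (fun i => genX (Q i)) (fun i => genY (Q i))) p else 0

omit [CharZero F] [∀ i, (W i).IsElliptic] [IsAlgClosure F Ω] in
private lemma gen_dn (j : Fin N) {Q : ∀ i, Pt (W i) Ω} (h : genV W (Φ j) Q ≠ 0) :
    Q ∈ Dn W Φ Ω := by
  classical
  by_cases hQ : ∀ i, Q i ≠ 0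
  · rw [genV, if_pos hQ] at h
    refine ⟨fun k => MvPolynomial.aeval
      (Sum.elim (fun i => genX (Q i)) (fun i => genY (Q i))) (Φ k),
      fun i => genX (Q i), fun i => genY (Q i), fun i => (gen_aff (Q i) (hQ i)).choose,
      funext fun i => (gen_aff (Q i) (hQ i)).choose_spec, ?_, fun k => rfl⟩
    intro h0
    exact h (congrFun h0 j)
  · rw [genV, if_neg hQ] at h
    exact absurd rfl h

omit [CharZero F] [IsAlgClosure F Ω] in
private lemma gen_eval (p : MvPolynomial (Fin n ⊕ Fin n) F) (u : Fin n ⊕ Fin n → (Polynomial (Polynomial Ω)))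
    (x y : Ω) : (MvPolynomial.aeval u p).evalEval x y
      = MvPolynomial.aeval (fun k => (u k).evalEval x y) p := by
  have h1 := MvPolynomial.eval₂_comp_left (Polynomial.evalEvalRingHom x y)
    (algebraMap F (Polynomial (Polynomial Ω))) u p
  have h2 : (Polynomial.evalEvalRingHom x y).comp (algebraMap F (Polynomial (Polynomial Ω))) = algebraMap F Ω := by
    ext a
    simp [Polynomial.algebraMap_apply]
  rw [h2] at h1
  exact h1

omit [CharZero F] [∀ i, (W i).IsElliptic] [IsAlgClosure F Ω] in
/-- one coordinate runs -/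
private lemma gen_one (p : MvPolynomial (Fin n ⊕ Fin n) F) (Q : ∀ i, Pt (W i) Ω) (i : Fin n) :
    {P : Pt (W i) Ω | genV W p (Function.update Q i P) = 0}.Finite ∨
      ∀ P : Pt (W i) Ω, genV W p (Function.update Q i P) = 0 := by
  classical
  by_cases hall : ∀ k, k ≠ i → Q k ≠ 0
  · -- the polynomial
    let u : Fin n ⊕ Fin n → Polynomial (Polynomial Ω) := Sum.elim
      (fun k => if k = i then Polynomial.C Polynomial.X
        else Polynomial.C (Polynomial.C (genX (Q k))))
      (fun k => if k = i then Polynomial.X else Polynomial.C (Polynomial.C (genY (Q k))))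
    have key : ∀ P : Pt (W i) Ω, P ≠ 0 → genV W p (Function.update Q i P)
        = (MvPolynomial.aeval u p).evalEval (genX P) (genY P) := by
      intro P hP
      have h1 : ∀ k, Function.update Q i P k ≠ 0 := by
        intro k
        by_cases hk : k = i
        · subst hk
          rw [Function.update_self]
          exact hP
        · rw [Function.update_of_ne hk]
          exact hall k hk
      rw [genV, if_pos h1, gen_eval]
      congr 2
      funext k
      rcases k with k | k
      · by_cases hk : k = i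
        · subst hk
          simp [u, Polynomial.evalEval]
        · simp [u, hk]
      · by_cases hk : k = i
        · subst hk
          simp [u]
        · simp [u, hk]
    have hz : genV W p (Function.update Q i 0) = 0 := by
      rw [genV, if_neg]
      intro h
      exact h i (by rw [Function.update_self])
    rcases fin_one ((W i).baseChange Ω) (MvPolynomial.aeval u p) with h | h
    · left
      let g : Ω × Ω → Pt (W i) Ω := fun P =>
        if h : ((W i).baseChange Ω).toAffine.Nonsingular P.1 P.2 then Pt.aff P.1 P.2 h else 0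
      refine ((Set.finite_singleton (0 : Pt (W i) Ω)).union (h.image g)).subset ?_
      intro P hP
      by_cases h0 : P = 0
      · exact Or.inl h0
      · right
        obtain ⟨h1, h2⟩ := gen_aff P h0
        refine ⟨(genX P, genY P), ⟨h1.1, ?_⟩, ?_⟩
        · rw [← key P h0]
          exact hP
        · simp only [g]
          rw [dif_pos h1]
          exact h2.symm
    · right
      intro P
      by_cases h0 : P = 0
      · rw [h0]
        exact hz
      · rw [key P h0]
        obtain ⟨h1, -⟩ := gen_aff P h0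
        exact h (genX P, genY P) h1.1
  · right
    intro P
    push Not at hall
    obtain ⟨k, hk, hQk⟩ := hall
    rw [genV, if_neg]
    intro h
    exact h k (by rw [Function.update_of_ne hk]; exact hQk)

/-- On a curve through a point of the domain all but finitely many points are in the domain. Proof: as `thin_cmp` (`Do/Dns.lean`): the value of a component `Φ_j` with `Φ_j (Q) ≠ 0` is a polynomial in the affine coordinates of `P`: `fin_one`; the point at infinity. -/
theorem fin_dn {Q : ∀ i, Pt (W i) Ω} (hQ : Q ∈ Dn W Φ Ω) (i : Fin n) :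
    {P : Pt (W i) Ω | Function.update Q i P ∉ Dn W Φ Ω}.Finite := by
  classical
  have h0 := hQ
  obtain ⟨x, X, Y, hns, hQ', hx0, hx⟩ := h0
  obtain ⟨j, hj⟩ : ∃ j, x j ≠ 0 := by
    by_contra hcon
    push Not at hcon
    exact hx0 (funext hcon)
  have h2 : genV W (Φ j) Q ≠ 0 := by
    rw [hQ', genV, if_pos fun i => gen_aff_ne (hns i)]
    rw [hx j] at hj
    exact hj
  rcases gen_one (Φ j) Q i with h | h
  · refine h.subset fun P hP => ?_
    by_contra hcon
    exact hP (gen_dn j hcon)
  · exfalso
    apply h2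
    have h3 := h (Q i)
    rwa [Function.update_eq_self] at h3

/-- **General points.** Proof: `thin_cmp` for `A i = Pt (W i) Ω` and the identity maps (the domain is not empty), `thin_comap` for `A' i = F` and the maps `a ↦ ± R (a)` for a choice of `R (a)` with `Xr a (R (a))` (`exists_xr`; the fibres have at most one element: `xr_inj`, `xr_neg`), for all signs `e`: `thin_iUnion`, `thin_avoid` (`F` is infinite). -/
theorem exists_gr (hne : (Dn W Φ Ω).Nonempty) : ∃ R : ∀ i, Pt (W i) Ω,
    (∀ i, ∃ a : F, Xr a (R i)) ∧ ∀ e, sg R e ∈ Dn W Φ Ω := by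
  classical
  obtain ⟨Q₀, hQ₀⟩ := hne
  have h1 : Thin (fun i => Pt (W i) Ω) {Q | Q ∉ Dn W Φ Ω} := by
    by_cases hall : ∀ i : Fin n, ∀ Q : Pt (W i) Ω, {a | id a = Q}.Finite
    · exact thin_cmp (Φ := Φ) (A := fun i => Pt (W i) Ω) (fun i => id) (fun i => Or.inl (hall i)) Q₀ hQ₀
    · exfalso
      apply hall
      intro i Q
      exact (Set.finite_singleton Q).subset fun a ha => ha
  let r : ∀ i : Fin n, F → Pt (W i) Ω := fun i a => (exists_xr (Ω := Ω) (W i) a).choose
  have hr : ∀ i a, Xr a (r i a) := fun i a => (exists_xr (Ω := Ω) (W i) a).choose_spec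
  have h2 : ∀ e : Fin n → Bool, Thin (fun _ : Fin n => F)
      {a | (fun i => if e i then -r i (a i) else r i (a i)) ∉ Dn W Φ Ω} := by
    intro e
    refine thin_comap (A' := fun _ : Fin n => F) (A := fun i => Pt (W i) Ω)
      (fun i a => if e i then -r i a else r i a) (fun i Q => ?_) h1
    have h3 : ∀ a, Xr a (if e i then -r i a else r i a) := by
      intro a
      split_ifs
      · exact xr_neg (hr i a)
      · exact hr i a
    refine Set.Subsingleton.finite fun a ha a' ha' => ?_
    have h4 := h3 a
    have h5 := h3 a'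
    have h6 : (if e i then -r i a else r i a) = Q := ha
    have h7 : (if e i then -r i a' else r i a') = Q := ha'
    rw [h6] at h4
    rw [h7] at h5
    exact xr_inj h4 h5
  obtain ⟨a, ha⟩ := thin_avoid (thin_iUnion h2)
  rw [Set.mem_iUnion, not_exists] at ha
  refine ⟨fun i => r i (a i), fun i => ⟨a i, hr i (a i)⟩, fun e => ?_⟩
  exact not_not.1 (ha e)

/-- **General points on a factor.** Proof: for all `e` and `c` the set of the points `Q` with `Function.update (sg R e) i (g c Q)` outside the domain is finite: `fin_dn` and `hg`; the first coordinate `a ∈ F` of `R'` avoids the first coordinates of these points and of the points in `Z` (`xr_inj`, `exists_xr`, `F` is infinite). -/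
theorem exists_gi {R : ∀ i, Pt (W i) Ω} (hRe : ∀ e, sg R e ∈ Dn W Φ Ω) (i : Fin n) {κ : Type}
    [Finite κ] (g : κ → Pt (W i) Ω → Pt (W i) Ω) (hg : ∀ c P, {Q | g c Q = P}.Finite)
    {Z : Set (Pt (W i) Ω)} (hZ : Z.Finite) :
    ∃ R' : Pt (W i) Ω, (∃ a : F, Xr a R') ∧ R' ∉ Z ∧
      ∀ c e, Function.update (sg R e) i (g c R') ∈ Dn W Φ Ω := by
  classical
  have h1 : ∀ ce : κ × (Fin n → Bool),
      {Q : Pt (W i) Ω | Function.update (sg R ce.2) i (g ce.1 Q) ∉ Dn W Φ Ω}.Finite := by
    intro ce
    exact (fin_dn (hRe ce.2) i).preimage' (f := g ce.1) fun P _ => hg ce.1 P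
  have h2 : (Z ∪ ⋃ ce : κ × (Fin n → Bool),
      {Q : Pt (W i) Ω | Function.update (sg R ce.2) i (g ce.1 Q) ∉ Dn W Φ Ω}).Finite :=
    hZ.union (Set.finite_iUnion h1)
  let r : F → Pt (W i) Ω := fun a => (exists_xr (Ω := Ω) (W i) a).choose
  have hr : ∀ a, Xr a (r a) := fun a => (exists_xr (Ω := Ω) (W i) a).choose_spec
  have hinj : Function.Injective r := by
    intro a a' h
    have h3 := hr a
    have h4 := hr a'
    rw [h] at h3
    exact xr_inj h3 h4
  obtain ⟨a, ha⟩ := (h2.preimage hinj.injOn).exists_notMem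
  rw [Set.mem_preimage, Set.mem_union, not_or, Set.mem_iUnion, not_exists] at ha
  exact ⟨r a, ⟨a, hr a⟩, ha.1, fun c e => not_not.1 (ha.2 (c, e))⟩

end DN.Q
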