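import Pool.Agent.Lib.MP_f80667_ag.Be.HatA
import Pool.Agent.Lib.MP_f80667_ag.Pe.StE

/-! Elements of the completion with given components at a set of prime numbers. -/

open ZC BE PE

namespace DN.Q

section prt

open Classical in
/-- The part of `m` at the primes which satisfy `Q`. -/
private noncomputable def lh_pp (Q : ℕ → Prop) (m : ℕ) : ℕ :=
  ∏ p ∈ m.primeFactors.filter Q, p ^ m.factorization p

private theorem lh_pp_ne (Q : ℕ → Prop) (m : ℕ) : lh_pp Q m ≠ 0 := by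
  classical
  unfold lh_pp
  refine Finset.prod_ne_zero_iff.2 fun p hp => ?_
  exact pow_ne_zero _ (Nat.prime_of_mem_primeFactors (Finset.mem_filter.1 hp).1).ne_zero

private theorem lh_pp_mul (Q : ℕ → Prop) {m : ℕ} (hm : m ≠ 0) :
    lh_pp Q m * lh_pp (fun p => ¬ Q p) m = m := by
  classical
  unfold lh_pp
  have h1 := Finset.prod_filter_mul_prod_filter_not m.primeFactors Q
    (fun p => p ^ m.factorization p)
  have h2 := Nat.prod_factorization_pow_eq_self hm
  rw [Finsupp.prod, Nat.support_factorization] at h2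
  rw [h2] at h1
  refine (congrArg₂ (· * ·) rfl (Finset.prod_congr ?_ fun _ _ => rfl)).trans h1
  ext p
  simp only [Finset.mem_filter]

private theorem lh_pp_prime {Q : ℕ → Prop} {m l : ℕ} (hl : l.Prime) (h : l ∣ lh_pp Q m) : Q l := by
  classical
  unfold lh_pp at h
  obtain ⟨p, hp, hd⟩ := (Prime.dvd_finsetProd_iff hl.prime _).1 h
  obtain ⟨hp1, hp2⟩ := Finset.mem_filter.1 hp
  have h3 : l ∣ p := hl.dvd_of_dvd_pow hd
  have h4 := (Nat.prime_dvd_prime_iff_eq hl (Nat.prime_of_mem_primeFactors hp1)).1 h3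
  rw [h4]
  exact hp2

private theorem lh_pp_cop (Q : ℕ → Prop) (m : ℕ) :
    Nat.Coprime (lh_pp Q m) (lh_pp (fun p => ¬ Q p) m) := by
  refine Nat.coprime_of_dvd fun l hl h1 h2 => ?_
  exact lh_pp_prime hl h2 (lh_pp_prime hl h1)

private theorem lh_pp_dvd (Q : ℕ → Prop) {m M : ℕ} (hM : M ≠ 0) (h : m ∣ M) :
    lh_pp Q m ∣ lh_pp Q M := by
  classical
  unfold lh_pp
  have h1 : m.primeFactors ⊆ M.primeFactors := Nat.primeFactors_mono h hM
  refine (Finset.prod_dvd_prod_of_dvd _ (fun p => p ^ M.factorization p) fun p hp =>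
    pow_dvd_pow p ?_).trans
    (Finset.prod_dvd_prod_of_subset _ _ _ (Finset.filter_subset_filter Q h1))
  have h2 : m ≠ 0 := fun h3 => hM (by rw [h3] at h; exact Nat.eq_zero_of_zero_dvd h)
  exact (Nat.factorization_le_iff_dvd h2 hM).2 h p

private theorem lh_pp_self {P : Set ℕ} {m : ℕ} (hm : m ≠ 0) (h : Sf P m) :
    lh_pp (fun p => p ∈ P) m = m := by
  have h1 := lh_pp_mul (fun p => p ∈ P) hm
  have h2 : lh_pp (fun p => ¬ p ∈ P) m = 1 := by
    by_contra h3
    obtain ⟨l, hl, hd⟩ := Nat.exists_prime_and_dvd h3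
    refine lh_pp_prime hl hd (h l hl ?_)
    rw [← h1]
    exact hd.mul_left _
  rw [h2, mul_one] at h1
  exact h1

private theorem lh_pp_sf (P : Set ℕ) (m : ℕ) : Sf P (lh_pp (fun p => p ∈ P) m) :=
  fun _ hl hd => lh_pp_prime hl hd

end prt

/-- A cofinal chain of the numbers with all prime factors in `P`. Proof: `M k` is the product of the prime powers `p ^ k`, `p ≤ k`, `p ∈ P` prime (or the part of `k !` at `P`); `m` divides `M m`: for a prime `p ∈ P` the exponent of `p` in `m` is at most `m` and `p ≤ m` if `p ∣ m`. -/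
theorem exists_chain (P : Set ℕ) : ∃ M : ℕ → ℕ+, (∀ k, Sf P (M k)) ∧
    (∀ k, (M k : ℕ) ∣ M (k + 1)) ∧ ∀ m : ℕ+, Sf P m → ∃ k, (m : ℕ) ∣ M k := by
  refine ⟨fun k => ⟨lh_pp (fun p => p ∈ P) k.factorial, Nat.pos_of_ne_zero (lh_pp_ne _ _)⟩,
    fun k => lh_pp_sf P _, fun k => ?_, fun m hm => ⟨m, ?_⟩⟩
  · exact lh_pp_dvd _ (Nat.factorial_ne_zero _) (Nat.factorial_dvd_factorial (Nat.le_succ k))
  · have h1 := lh_pp_dvd (fun p => p ∈ P) (Nat.factorial_ne_zero (m : ℕ))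
      (Nat.dvd_factorial m.pos le_rfl)
    rw [lh_pp_self m.ne_zero hm] at h1
    exact h1

/-- **The inverse of `a` at `P`.** Proof: write `m = m_P m'` with `Sf P m_P` and `m'` prime to all primes in `P` (induction or `Nat.factorization`; `m_P` divides `M_P` and `m'` divides `M'` if `m ∣ M`). Choose `c (m) ∈ ℤ` with `c (m) a ≡ 1` modulo `m_P` and `c (m) ≡ 0` modulo `m'` (`a` is
prime to `m_P`, `m_P` is prime to `m'`: Chinese remainder theorem). `x (m)` is the class of `c (m) • y (m_P)`. Compatibility for `m ∣ M`: `y (M_P) = y (m_P) + m_P w`, so `c (M) • y (M_P) - c (m) • y (m_P) = (c (M) - c (m)) • y (m_P) + c (M) m_P • w`, `m` divides `c (M) - c (m)` (it is `0` modulo `m_P`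
because both are inverses of `a`, and modulo `m'` because `m' ∣ M'`), and `m = m_P m'` divides `m_P c (M)`. If `Sf P m` then `m_P = m`. -/
theorem exists_lh {G : Type} [AddCommGroup G] {P : Set ℕ} {a : ℕ}
    (ha : ∀ l ∈ P, l.Prime → ¬ l ∣ a) (y : ℕ+ → G)
    (hy : ∀ m m' : ℕ+, Sf P m → Sf P m' → (m : ℕ) ∣ m' → ∃ w : G, y m' = y m + (m : ℕ) • w) :
    ∃ x : LHat G, ∀ m : ℕ+, Sf P m →
      ∃ c : ℤ, (∃ k : ℤ, c * a = 1 + m * k) ∧ x.Rep m (c • y m) := by
  set q : ℕ → ℕ := lh_pp (fun p => p ∈ P) with hq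
  set r : ℕ → ℕ := lh_pp (fun p => ¬ p ∈ P) with hr
  have hqp : ∀ m, 0 < q m := fun m => Nat.pos_of_ne_zero (lh_pp_ne _ _)
  have hqa : ∀ m, Nat.Coprime a (q m) := fun m =>
    Nat.coprime_of_dvd fun l hl h1 h2 => ha l (lh_pp_prime (Q := fun p => p ∈ P) hl h2) hl h1
  have hqr : ∀ m, Nat.Coprime (q m) (r m) := fun m => lh_pp_cop _ m
  have hmul : ∀ m : ℕ, m ≠ 0 → q m * r m = m := fun m hm => lh_pp_mul _ hm
  have hc : ∀ m : ℕ, ∃ c k : ℤ, c * a = 1 + (q m : ℤ) * k ∧ (r m : ℤ) ∣ c := by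
    intro m
    have h1 : Nat.Coprime (r m * a) (q m) := Nat.Coprime.mul_left (hqr m).symm (hqa m)
    have h2 : IsCoprime ((r m * a : ℕ) : ℤ) (q m : ℤ) := Nat.isCoprime_iff_coprime.2 h1
    obtain ⟨u, v, huv⟩ := h2
    refine ⟨u * r m, -v, ?_, Dvd.intro_left u rfl⟩
    push_cast at huv
    linear_combination huv
  choose c k hck hcr using hc
  set qq : ℕ+ → ℕ+ := fun m => ⟨q m, hqp m⟩ with hqq
  have hsf : ∀ m : ℕ+, Sf P (qq m) := fun m => lh_pp_sf P m
  refine ⟨⟨fun m => QuotientAddGroup.mk (c m • y (qq m)), ?_⟩, fun m hm => ?_⟩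
  · intro m M hmM b hb
    have hmM' : (m : ℕ) ∣ M := PNat.dvd_iff.1 hmM
    rw [QuotientAddGroup.eq] at hb ⊢
    obtain ⟨w, hw⟩ := hb
    have hw' : (M : ℕ) • w = -(c M • y (qq M)) + b := hw
    have hd : q m ∣ q M := lh_pp_dvd _ M.ne_zero hmM'
    have hdr : r m ∣ r M := lh_pp_dvd _ M.ne_zero hmM'
    obtain ⟨w1, hw1⟩ := hy (qq m) (qq M) (hsf m) (hsf M) hd
    obtain ⟨s, hs⟩ := hmM'
    -- the difference of the two inverses
    have h1 : (q m : ℤ) ∣ c M - c m := by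
      have h2 : (q m : ℤ) ∣ (c M - c m) * a := by
        obtain ⟨d, hd'⟩ := hd
        refine ⟨d * k M - k m, ?_⟩
        have e1 := hck M
        have e2 := hck m
        rw [hd'] at e1
        push_cast at e1
        linear_combination e1 - e2
      exact IsCoprime.dvd_of_dvd_mul_right (Nat.isCoprime_iff_coprime.2 (hqa m).symm) h2
    have h3 : (r m : ℤ) ∣ c M - c m :=
      dvd_sub ((Int.natCast_dvd_natCast.2 hdr).trans (hcr M)) (hcr m)
    have h4 : ((m : ℕ) : ℤ) ∣ c M - c m := by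
      have h5 := IsCoprime.mul_dvd (Nat.isCoprime_iff_coprime.2 (hqr m)) h1 h3
      have h6 : ((q m : ℤ)) * (r m : ℤ) = ((m : ℕ) : ℤ) := by
        exact_mod_cast hmul m m.ne_zero
      rw [h6] at h5
      exact h5
    have h7 : ((m : ℕ) : ℤ) ∣ c M * (q m : ℤ) := by
      obtain ⟨d, hd'⟩ := (Int.natCast_dvd_natCast.2 hdr).trans (hcr M)
      refine ⟨d, ?_⟩
      have h6 : ((q m : ℤ)) * (r m : ℤ) = ((m : ℕ) : ℤ) := by
        exact_mod_cast hmul m m.ne_zero
      rw [← h6, hd']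
      ring
    obtain ⟨d1, hd1⟩ := h4
    obtain ⟨d2, hd2⟩ := h7
    refine ⟨d1 • y (qq m) + d2 • w1 + s • w, ?_⟩
    change (m : ℕ) • (d1 • y (qq m) + d2 • w1 + s • w) = -(c m • y (qq m)) + b
    have e1 : b = c M • y (qq M) + (M : ℕ) • w := by
      rw [hw']
      abel
    have e2 : (M : ℕ) • w = (m : ℕ) • (s • w) := by
      rw [hs, mul_smul]
    have e3 : (m : ℕ) • (d1 • y (qq m)) = (c M - c m) • y (qq m) := by
      rw [hd1, mul_smul, natCast_zsmul]
    have e4 : (m : ℕ) • (d2 • w1) = (c M * (q m : ℤ)) • w1 := by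
      rw [hd2, mul_smul, natCast_zsmul]
    have e5 : ((qq m : ℕ+) : ℕ) = q m := rfl
    rw [smul_add, smul_add, e3, e4, e1, e2, hw1, e5, smul_add, mul_smul, natCast_zsmul, sub_smul]
    abel
  · have h1 : q m = m := lh_pp_self m.ne_zero hm
    have h2 : qq m = m := PNat.eq h1
    refine ⟨c m, ⟨k m, ?_⟩, ?_⟩
    · have h3 := hck m
      rw [h1] at h3
      exact h3
    · change (QuotientAddGroup.mk (c m • y (qq m)) : G ⧸ mlt G m) = QuotientAddGroup.mk (c m • y m)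
      rw [h2]

end DN.Q
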