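import Pool.Agent.Lib.MP_f80667_ag.Do.PsiB
import Pool.Agent.Lib.MP_f80667_ag.Do.Gnc

/-! The push-forward of divisible cycles. -/

open ZC BE PE CV NE

namespace DN.Q

variable {F F' : Type} [Field F] [Field F'] [Algebra F F'] {N n : ℕ} {ι : Type}
  {f : ι → MvPolynomial (Fin N) F} {W : Fin n → WeierstrassCurve F'} [∀ i, (W i).IsElliptic]
  {Φ : Fin N → MvPolynomial (Fin n ⊕ Fin n) F'} {h : MvPolynomial (Fin N) F} {D : ℕ} {K Ω : Type}
  [Field K] [CharZero K] [Field Ω] [Algebra K Ω] [IsAlgClosure K Ω] [Algebra F K] [Algebra F Ω]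
  [IsScalarTower F K Ω] [Algebra F' K] [Algebra F' Ω] [IsScalarTower F' K Ω]
  [IsScalarTower F F' K] [IsScalarTower F F' Ω]

/-- **The push-forward of a cycle which is divisible by `m` is divisible by `m`.** Proof: as `dm_X` (`Do/Loc.lean`). -/
theorem lem_m (hD : Dom f W Φ h D) [∀ i, Infinite (Pt (W i) K)] {m : ℕ} (hm : m ≠ 0)
    (o : (GX.Xf f).pt Ω) {w w' : (∀ i, Pt (W i) Ω) →₀ ℤ}
    (hw : w ∈ (Vpi fun i => Ev (W i)).D0 K Ω) (hsw : ∀ Q ∈ w.support, Q ∈ Dn W Φ Ω)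
    (hw' : w' ∈ (Vpi fun i => Ev (W i)).D0 K Ω)
    (hww : w - m • w' ∈ (Vpi fun i => Ev (W i)).ratEq K Ω) :
    ∃ u ∈ (GX.Xf f).D0 K Ω, Finsupp.mapDomain (fv o Φ) w - m • u ∈ (GX.Xf f).ratEq K Ω := by
  by_cases hw0 : w = 0
  · subst hw0
    refine ⟨0, zero_mem _, ?_⟩
    rw [Finsupp.mapDomain_zero, smul_zero, sub_zero]
    exact zero_mem _
  obtain ⟨Q₀, hQ₀⟩ := Finsupp.support_nonempty_iff.2 hw0
  obtain ⟨T, hT⟩ := rp_all hD o hww
  classical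
  obtain ⟨c, hc0, hc1, hc2⟩ := exists_gc (K := K) (Φ := Φ) (m := m) hm ⟨Q₀, hsw Q₀ hQ₀⟩
    (T ∪ w'.support) w.support hsw
  have hr1 := hT (m • c) fun Q hQ => hc1 Q (Finset.mem_union_left _ hQ)
  have hu := tr_mem hD o hw' (m • c) fun Q hQ => hc1 Q (Finset.mem_union_right _ hQ)
  obtain ⟨z₂, hz₂, hr2⟩ := psi_cyc hD o hw.1 c hc0 hc2
  set u := Finsupp.mapDomain (fun Q : ∀ i, Pt (W i) Ω => fv (f := f) o Φ (Q + up Ω (m • c))) w'
    with hu'
  set A := Finsupp.mapDomain (fun Q : ∀ i, Pt (W i) Ω => fv (f := f) o Φ (Q + up Ω (m • c))) w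
    with hA
  have hr3 : A - m • u ∈ (GX.Xf f).ratEq K Ω := by
    have e : Finsupp.mapDomain (fun Q : ∀ i, Pt (W i) Ω => fv (f := f) o Φ (Q + up Ω (m • c)))
        (w - m • w') = A - m • u := by
      have h3 := map_sub (Finsupp.mapDomain.addMonoidHom (M := ℤ)
        (fun Q : ∀ i, Pt (W i) Ω => fv (f := f) o Φ (Q + up Ω (m • c)))) w (m • w')
      have h4 := map_nsmul (Finsupp.mapDomain.addMonoidHom (M := ℤ)
        (fun Q : ∀ i, Pt (W i) Ω => fv (f := f) o Φ (Q + up Ω (m • c)))) m w'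
      rw [h4] at h3
      exact h3
    rw [← e]
    exact hr1
  refine ⟨u - z₂, sub_mem hu hz₂, ?_⟩
  have h3 := sub_mem hr3 hr2
  have e : A - m • u - (A - Finsupp.mapDomain (fv o Φ) w - m • z₂) =
      Finsupp.mapDomain (fv o Φ) w - m • (u - z₂) := by
    rw [smul_sub]
    abel
  rwa [e] at h3

end DN.Q
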