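import Mathlib

/-! Fields generated by square roots. -/

namespace DN.Q

open Polynomial IntermediateField in
private theorem mq_step {F Ω : Type} [Field F] [Field Ω] [Algebra F Ω] {y : Ω}
    {b c : F} (hy : y ^ 2 + algebraMap F Ω b * y + algebraMap F Ω c = 0)
    (M : IntermediateField F Ω) : FiniteDimensional M M⟮y⟯ ∧
      ∃ j : ℕ, Module.finrank M M⟮y⟯ = 2 ^ j := by
  have hdeg : (X ^ 2 + C (algebraMap F M b) * X + C (algebraMap F M c) : M[X]).degree = 2 := by
    have h1 := degree_quadratic (a := (1 : M)) (b := algebraMap F M b) (c := algebraMap F M c)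
      one_ne_zero
    rwa [C_1, one_mul] at h1
  have hnat : (X ^ 2 + C (algebraMap F M b) * X + C (algebraMap F M c) : M[X]).natDegree = 2 :=
    natDegree_eq_of_degree_eq_some hdeg
  have hmon : (X ^ 2 + C (algebraMap F M b) * X + C (algebraMap F M c) : M[X]).Monic := by
    have h1 := leadingCoeff_quadratic (a := (1 : M)) (b := algebraMap F M b)
      (c := algebraMap F M c) one_ne_zero
    rw [C_1, one_mul] at h1
    exact h1
  have hz : aeval y (X ^ 2 + C (algebraMap F M b) * X + C (algebraMap F M c) : M[X]) = 0 := by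
    rw [map_add, map_add, map_mul, map_pow, aeval_X, aeval_C, aeval_C,
      ← IsScalarTower.algebraMap_apply F M Ω, ← IsScalarTower.algebraMap_apply F M Ω]
    exact hy
  have hint : IsIntegral M y := ⟨_, hmon, hz⟩
  have hfr := adjoin.finrank hint
  refine ⟨adjoin.finiteDimensional hint, ?_⟩
  have hle : (minpoly M y).natDegree ≤ 2 := by
    rw [← hnat]
    exact natDegree_le_of_dvd (minpoly.dvd M y hz) hmon.ne_zero
  have hpos : 0 < (minpoly M y).natDegree := minpoly.natDegree_pos hint
  rw [hfr]
  generalize (minpoly M y).natDegree = m at hle hpos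
  interval_cases m
  · exact ⟨0, rfl⟩
  · exact ⟨1, rfl⟩

open IntermediateField in
/-- Finitely many elements of degree at most two are in a field of degree a power of two. Proof: induction on `S`: `M(y) / M` has the degree one or two (`IntermediateField.adjoin.finrank`, `minpoly` divides the polynomial of degree two), `IntermediateField.restrictScalars`, `Module.finrank_mul_finrank`. -/
theorem exists_mq {F Ω : Type} [Field F] [Field Ω] [Algebra F Ω] (S : Finset Ω)
    (hS : ∀ y ∈ S, ∃ b c : F, y ^ 2 + algebraMap F Ω b * y + algebraMap F Ω c = 0) :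
    ∃ M : IntermediateField F Ω, FiniteDimensional F M ∧ (∀ y ∈ S, y ∈ M) ∧
      ∃ k : ℕ, Module.finrank F M = 2 ^ k := by
  classical
  induction S using Finset.induction_on with
  | empty =>
    exact ⟨⊥, inferInstance, fun y hy => absurd hy (Finset.notMem_empty y), 0, by
      rw [IntermediateField.finrank_bot, pow_zero]⟩
  | insert y S _ ih =>
    obtain ⟨M, hM, hSM, k, hk⟩ := ih fun z hz => hS z (Finset.mem_insert_of_mem hz)
    obtain ⟨b, c, hbc⟩ := hS y (Finset.mem_insert_self y S)
    obtain ⟨h1, j, hj⟩ := mq_step hbc M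
    refine ⟨IntermediateField.restrictScalars F M⟮y⟯, ?_, fun z hz => ?_, k + j, ?_⟩
    · have h2 : FiniteDimensional F M⟮y⟯ := Module.Finite.trans (R := F) M M⟮y⟯
      exact h2
    · rcases Finset.mem_insert.1 hz with rfl | hz
      · exact mem_adjoin_simple_self M z
      · exact IntermediateField.algebraMap_mem M⟮y⟯ (⟨z, hSM z hz⟩ : M)
    · have h2 : Module.finrank F M⟮y⟯ = Module.finrank F M * Module.finrank M M⟮y⟯ :=
        (Module.finrank_mul_finrank F M M⟮y⟯).symm
      have h3 : Module.finrank F M⟮y⟯ = 2 ^ (k + j) := by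
        rw [h2, hk, hj, pow_add]
      exact h3

end DN.Q
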