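import Pool.Agent.Lib.MP_f80667_ag.De.Mq
import Pool.Agent.Lib.MP_f80667_ag.Pe.Pv
import Pool.Agent.Lib.MP_f80667_ag.Be.Gal

/-! Points whose first coordinate is in the ground field. -/

open ZC BE PE

namespace DN.Q

variable {F : Type} [Field F] [CharZero F] {Ω : Type} [Field Ω] [Algebra F Ω] [IsAlgClosure F Ω]

/-- `R` is an affine point with the first coordinate `a ∈ F`. -/
def Xr {W : WeierstrassCurve F} (a : F) (R : Pt W Ω) : Prop :=
  ∃ (y : Ω) (h : (W.baseChange Ω).toAffine.Nonsingular (algebraMap F Ω a) y),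
    R = Pt.aff (algebraMap F Ω a) y h

omit [CharZero F] [IsAlgClosure F Ω] in
private theorem xr_aff {W : WeierstrassCurve F} {L : Type} [Field L] [Algebra F L]
    {x y x' y' : L} (h : (W.baseChange L).toAffine.Nonsingular x y)
    (h' : (W.baseChange L).toAffine.Nonsingular x' y') (e1 : x = x') (e2 : y = y') :
    (Pt.aff x y h : Pt W L) = Pt.aff x' y' h' := by
  subst e1 e2
  rfl

omit [CharZero F] [IsAlgClosure F Ω] in
/-- The equation over `F` in the first coordinate. -/
private theorem xr_eqn {W : WeierstrassCurve F} {a : F} {y : Ω} :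
    (W.baseChange Ω).toAffine.Equation (algebraMap F Ω a) y ↔
      y ^ 2 + algebraMap F Ω (W.a₁ * a + W.a₃) * y +
        algebraMap F Ω (-(a ^ 3 + W.a₂ * a ^ 2 + W.a₄ * a + W.a₆)) = 0 := by
  rw [WeierstrassCurve.Affine.equation_iff]
  change y ^ 2 + algebraMap F Ω W.a₁ * algebraMap F Ω a * y + algebraMap F Ω W.a₃ * y =
    algebraMap F Ω a ^ 3 + algebraMap F Ω W.a₂ * algebraMap F Ω a ^ 2 +
      algebraMap F Ω W.a₄ * algebraMap F Ω a + algebraMap F Ω W.a₆ ↔ _
  simp only [map_add, map_mul, map_neg, map_pow]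
  constructor
  · intro h
    linear_combination h
  · intro h
    linear_combination h

section

variable {W : WeierstrassCurve F} [W.IsElliptic]

/-- Proof: `Ω` is algebraically closed; on an elliptic curve all points of the equation are nonsingular. -/
theorem exists_xr (W : WeierstrassCurve F) [W.IsElliptic] (a : F) : ∃ R : Pt W Ω, Xr a R := by
  have hac : IsAlgClosed Ω := IsAlgClosure.isAlgClosed F
  have hcz : CharZero Ω := charZero_of_injective_algebraMap (algebraMap F Ω).injective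
  set b : Ω := algebraMap F Ω (W.a₁ * a + W.a₃) with hb
  set c : Ω := algebraMap F Ω (-(a ^ 3 + W.a₂ * a ^ 2 + W.a₄ * a + W.a₆)) with hc
  obtain ⟨s, hs⟩ := IsAlgClosed.exists_pow_nat_eq (b ^ 2 - 4 * c) (n := 2) (by norm_num)
  have hy : ((s - b) / 2) ^ 2 + b * ((s - b) / 2) + c = 0 := by
    linear_combination (1 / 4 : Ω) * hs
  have he : (W.baseChange Ω).toAffine.Equation (algebraMap F Ω a) ((s - b) / 2) :=
    xr_eqn.2 hy
  haveI : (W.baseChange Ω).toAffine.IsElliptic :=
    inferInstanceAs (W.map (algebraMap F Ω)).IsElliptic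
  have hn : (W.baseChange Ω).toAffine.Nonsingular (algebraMap F Ω a) ((s - b) / 2) :=
    WeierstrassCurve.Affine.equation_iff_nonsingular.1 he
  exact ⟨Pt.aff _ _ hn, _, hn, rfl⟩

theorem xr_ne {a : F} {R : Pt W Ω} (h : Xr a R) : R ≠ 0 := by
  obtain ⟨y, hy, rfl⟩ := h
  exact WeierstrassCurve.Affine.Point.some_ne_zero hy

theorem xr_inj {a a' : F} {R : Pt W Ω} (h : Xr a R) (h' : Xr a' R) : a = a' := by
  obtain ⟨y, hy, rfl⟩ := h
  obtain ⟨y', hy', e⟩ := h'
  exact (algebraMap F Ω).injective (WeierstrassCurve.Affine.Point.some.inj e).1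

theorem xr_neg {a : F} {R : Pt W Ω} (h : Xr a R) : Xr a (-R) := by
  classical
  obtain ⟨y, hy, rfl⟩ := h
  exact ⟨_, _, WeierstrassCurve.Affine.Point.neg_some hy⟩

/-- Two points with the same first coordinate are equal or opposite. -/
theorem xr_two {a : F} {R R' : Pt W Ω} (h : Xr a R) (h' : Xr a R') : R' = R ∨ R' = -R := by
  classical
  obtain ⟨y, hy, rfl⟩ := h
  obtain ⟨y', hy', rfl⟩ := h'
  rcases WeierstrassCurve.Affine.Y_eq_of_X_eq hy'.1 hy.1 rfl with h1 | h1
  · exact Or.inl (xr_aff _ _ rfl h1)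
  · exact Or.inr ((xr_aff _ _ rfl h1).trans (WeierstrassCurve.Affine.Point.neg_some hy).symm)

/-- The conjugates. Proof: the first coordinate is fixed: `xr_two`. -/
theorem xr_act (γ : Ω ≃ₐ[F] Ω) {a : F} {R : Pt W Ω} (h : Xr a R) : γ • R = R ∨ γ • R = -R := by
  refine xr_two h ?_
  obtain ⟨y, hy, rfl⟩ := h
  have h0 : (W.baseChange Ω).toAffine.Nonsingular (γ (algebraMap F Ω a)) (γ y) :=
    (WeierstrassCurve.Affine.baseChange_nonsingular W.toAffine
        (γ : Ω →ₐ[F] Ω).injective (algebraMap F Ω a) y).mpr hy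
  have h1 : γ • Pt.aff (algebraMap F Ω a) y hy = Pt.aff (γ (algebraMap F Ω a)) (γ y) h0 := rfl
  have h2 : (W.baseChange Ω).toAffine.Nonsingular (algebraMap F Ω a) (γ y) := by
    have h3 := h0
    rw [γ.commutes a] at h3
    exact h3
  exact ⟨γ y, h2, h1.trans (xr_aff _ _ (γ.commutes a) rfl)⟩

end

/-- **The field of definition.** Proof: the second coordinate of `R j` is a root of a polynomial of degree two over `F`: `exists_mq` for the set of the second coordinates; a point with coordinates in `M` comes from a point over `M`. -/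
theorem exists_fld {κ : Type} [Finite κ] (V : κ → WeierstrassCurve F) [∀ j, (V j).IsElliptic]
    (R : ∀ j, Pt (V j) Ω) (h : ∀ j, ∃ a : F, Xr a (R j)) :
    ∃ M : IntermediateField F Ω, FiniteDimensional F M ∧ (∃ k : ℕ, Module.finrank F M = 2 ^ k) ∧
      ∀ j, ∃ R' : Pt (V j) M, Pt.map (V j) (IsScalarTower.toAlgHom F M Ω) R' = R j := by
  classical
  choose a y hy hR using h
  have hfin : (Set.range y).Finite := Set.finite_range y
  obtain ⟨M, hM, hS, hk⟩ := exists_mq (F := F) hfin.toFinset (fun z hz => by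
    obtain ⟨j, rfl⟩ := hfin.mem_toFinset.1 hz
    exact ⟨_, _, xr_eqn.1 (hy j).1⟩)
  refine ⟨M, hM, hk, fun j => ?_⟩
  have hj : y j ∈ M := hS _ (hfin.mem_toFinset.2 ⟨j, rfl⟩)
  have e1 : algebraMap F Ω (a j) = IsScalarTower.toAlgHom F M Ω (algebraMap F M (a j)) :=
    ((IsScalarTower.toAlgHom F M Ω).commutes (a j)).symm
  have e2 : y j = IsScalarTower.toAlgHom F M Ω ⟨y j, hj⟩ := rfl
  have h1 : ((V j).baseChange Ω).toAffine.Nonsingular
      (IsScalarTower.toAlgHom F M Ω (algebraMap F M (a j)))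
      (IsScalarTower.toAlgHom F M Ω ⟨y j, hj⟩) := by
    have h2 := hy j
    rw [e1] at h2
    exact h2
  have h3 : ((V j).baseChange M).toAffine.Nonsingular (algebraMap F M (a j)) ⟨y j, hj⟩ :=
    (WeierstrassCurve.Affine.baseChange_nonsingular (V j).toAffine
      (IsScalarTower.toAlgHom F M Ω).injective _ _).mp h1
  refine ⟨Pt.aff (algebraMap F M (a j)) ⟨y j, hj⟩ h3, ?_⟩
  have h4 : Pt.map (V j) (IsScalarTower.toAlgHom F M Ω) (Pt.aff (algebraMap F M (a j)) ⟨y j, hj⟩ h3)
      = Pt.aff (IsScalarTower.toAlgHom F M Ω (algebraMap F M (a j)))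
        (IsScalarTower.toAlgHom F M Ω ⟨y j, hj⟩) h1 := rfl
  rw [h4, hR j]
  exact xr_aff _ _ e1.symm e2.symm

end DN.Q
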