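import Pool.Agent.Lib.MP_f80667_ag.Do.Stp
import Pool.Agent.Lib.MP_f80667_ag.Do.Rp
import Pool.Agent.Lib.MP_f80667_ag.Do.Lg

/-! The curves on the product (`stp_list` of `Do/Stp.lean`). -/

open ZC BE PE CV NE

namespace DN.Q

variable {F F' : Type} [Field F] [Field F'] [Algebra F F'] {N n : ℕ} {ι : Type}
  {f : ι → MvPolynomial (Fin N) F} {W : Fin n → WeierstrassCurve F'} [∀ i, (W i).IsElliptic]
  {Φ : Fin N → MvPolynomial (Fin n ⊕ Fin n) F'} {h : MvPolynomial (Fin N) F} {D : ℕ} {K Ω : Type}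
  [Field K] [CharZero K] [Field Ω] [Algebra K Ω] [IsAlgClosure K Ω] [Algebra F K] [Algebra F Ω]
  [IsScalarTower F K Ω] [Algebra F' K] [Algebra F' Ω] [IsScalarTower F' K Ω]
  [IsScalarTower F F' K] [IsScalarTower F F' Ω]

omit [Algebra F F'] [∀ i, (W i).IsElliptic] [CharZero K] [IsAlgClosure K Ω] [Algebra F K]
  [Algebra F Ω] [IsScalarTower F K Ω] [IsScalarTower F F' K] [IsScalarTower F F' Ω] in
private theorem stp_up (P : ∀ i, Pt (W i) K) (i : Fin n) (c : Pt (W i) K) :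
    up Ω (P + il i c) =
      il i (Pt.map (W i) (IsScalarTower.toAlgHom F' K Ω) c) + up Ω P := by
  funext j
  change Pt.map (W j) (IsScalarTower.toAlgHom F' K Ω) (P j + il i c j) =
    il i (Pt.map (W i) (IsScalarTower.toAlgHom F' K Ω) c) j +
      Pt.map (W j) (IsScalarTower.toAlgHom F' K Ω) (P j)
  rw [map_add, add_comm]
  congr 1
  rcases eq_or_ne j i with rfl | h
  · unfold il
    rw [Pi.single_eq_same, Pi.single_eq_same]
  · unfold il
    rw [Pi.single_eq_of_ne h, Pi.single_eq_of_ne h]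
    exact map_zero (Pt.map (W j) (IsScalarTower.toAlgHom F' K Ω))

omit [∀ i, (W i).IsElliptic] in
private theorem stp_sc (i : Fin n) :
    (CV.sc (fun j => bpE (W j)) i).f Ω = (il i : Pt (W i) Ω → ∀ j, Pt (W j) Ω) := by
  funext x j
  unfold il
  rcases eq_or_ne j i with rfl | h
  · rw [Pi.single_eq_same]
    exact @Function.update_self (Fin n) (fun j => Pt (W j) Ω)
      (fun a b => Classical.propDecidable (a = b)) j x (fun j => 0)
  · rw [Pi.single_eq_of_ne h]
    exact @Function.update_of_ne (Fin n) (fun j => Pt (W j) Ω)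
      (fun a b => Classical.propDecidable (a = b)) j i h x (fun j => 0)

/-- The curves on the product. -/
theorem stp_list (hD : Dom f W Φ h D) (o : (GX.Xf f).pt Ω) (P : ∀ i, Pt (W i) K)
    (i : Fin n) (l : List (Pt (W i) K)) (h0 : ∀ Q ∈ l, Q ≠ 0) (hsum : l.sum = 0)
    (hz : up Ω P ∈ Dn W Φ Ω) (hl : ∀ Q ∈ l, up Ω (P + il i Q) ∈ Dn W Φ Ω) :
    (l.map fun Q => Finsupp.single (fv o Φ (up Ω (P + il i Q))) (1 : ℤ)).sum -
      Finsupp.single (fv o Φ (up Ω P)) (l.length : ℤ) ∈ (GX.Xf f).ratEq K Ω := by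
  have hac : IsAlgClosed Ω := IsAlgClosure.isAlgClosed K
  have h1 := gn_rat (F := F') (W := W i) (K := K) (Ω := Ω) l h0 hsum
  have h2 := gn_mo (CV.sc (fun j => bpE (W j)) i) h1
  rw [stp_sc] at h2
  have h3 := gn_tr P h2
  have e0 : (il i (0 : Pt (W i) Ω) : ∀ j, Pt (W j) Ω) = 0 := by
    unfold il
    exact Pi.single_zero i
  have h4 := gn_rp hD o (by
    rintro _ ⟨_, ⟨Q, hQ, rfl⟩, rfl⟩
    change il i Q + up Ω P ∈ Dn W Φ Ω
    rcases hQ with rfl | ⟨R, hR, rfl⟩
    · rw [e0, zero_add]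
      exact hz
    · rw [← stp_up]
      exact hl R hR) h3
  have e3 : ∀ z : Pt (W i) Ω →₀ ℤ,
      Finsupp.mapDomain (fv o Φ) (Finsupp.mapDomain (fun Q : ∀ j, Pt (W j) Ω => Q + up Ω P)
        (Finsupp.mapDomain (il i : Pt (W i) Ω → ∀ j, Pt (W j) Ω) z)) =
      Finsupp.mapDomain.addMonoidHom (fun x : Pt (W i) Ω => fv o Φ (il i x + up Ω P)) z := by
    intro z
    rw [← Finsupp.mapDomain_comp, ← Finsupp.mapDomain_comp]
    rfl
  have h5 : Finsupp.mapDomain.addMonoidHom (fun x : Pt (W i) Ω => fv o Φ (il i x + up Ω P))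
      ((l.map fun Q => Finsupp.single
        (Pt.map (W i) (IsScalarTower.toAlgHom F' K Ω) Q) (1 : ℤ)).sum -
          Finsupp.single (0 : Pt (W i) Ω) (l.length : ℤ)) ∈ (GX.Xf f).ratEq K Ω := by
    rw [← e3]
    exact h4
  rw [map_sub, map_list_sum, List.map_map] at h5
  have e1 : (⇑(Finsupp.mapDomain.addMonoidHom (M := ℤ)
        (fun x : Pt (W i) Ω => fv o Φ (il i x + up Ω P))) ∘
      fun Q => Finsupp.single (Pt.map (W i) (IsScalarTower.toAlgHom F' K Ω) Q) (1 : ℤ)) =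
      fun Q => Finsupp.single (fv o Φ (up Ω (P + il i Q))) (1 : ℤ) := by
    funext Q
    rw [Function.comp_apply, stp_up]
    exact Finsupp.mapDomain_single
  have e2 : Finsupp.mapDomain.addMonoidHom (fun x : Pt (W i) Ω => fv o Φ (il i x + up Ω P))
      (Finsupp.single (0 : Pt (W i) Ω) (l.length : ℤ)) =
      Finsupp.single (fv o Φ (up Ω P)) (l.length : ℤ) := by
    refine Finsupp.mapDomain_single.trans ?_
    rw [e0, zero_add]
  rw [e1, e2] at h5
  exact h5

end DN.Q
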