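import Pool.Agent.Lib.MP_f80667_ag.De.Add

/-! The cycles over the ground field with given push-forwards. -/

open ZC BE PE CV NE

namespace DN.Q

variable {F : Type} [Field F] [CharZero F] {N n : ℕ} {ι : Type}
  {f : ι → MvPolynomial (Fin N) F} {W : Fin n → WeierstrassCurve F} [∀ i, (W i).IsElliptic]
  {Φ : Fin N → MvPolynomial (Fin n ⊕ Fin n) F} {h : MvPolynomial (Fin N) F} {D : ℕ} {Ω : Type}
  [Field Ω] [Algebra F Ω] [IsAlgClosure F Ω]

/-- The signs of a changed point. -/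
private theorem the_sg (R : ∀ i, Pt (W i) Ω) (i : Fin n) (R' : Pt (W i) Ω) (e : Fin n → Bool) :
    sg (Function.update R i R') e = Function.update (sg R e) i (if e i then -R' else R') := by
  funext j
  rcases eq_or_ne j i with rfl | hj
  · simp only [sg, Function.update_self]
  · simp only [sg, Function.update_of_ne hj]

/-- The translate of a changed point. -/
private theorem the_il (Q : ∀ i, Pt (W i) Ω) (i : Fin n) (P y : Pt (W i) Ω) :
    Function.update Q i P + il i y = Function.update Q i (P + y) := by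
  funext j
  rcases eq_or_ne j i with rfl | hj
  · simp only [il, Pi.add_apply, Function.update_self, Pi.single_eq_same]
  · simp only [il, Pi.add_apply, Function.update_of_ne hj, Pi.single_eq_of_ne hj, add_zero]

private theorem the_okr {R : ∀ i, Pt (W i) Ω} (hR : ∀ i, ∃ a : F, Xr a (R i))
    (hRe : ∀ e, sg R e ∈ Dn W Φ Ω) (i : Fin n) (y : Pt (W i) F) :
    ∃ R' : Pt (W i) Ω, Okr Φ (Function.update R i R') i (uq Ω y) := by
  let g : Bool × Bool → Pt (W i) Ω → Pt (W i) Ω := fun c Q =>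
    (if c.1 then -Q else Q) + (if c.2 then uq Ω y else 0)
  have hg : ∀ c P, {Q | g c Q = P}.Finite := by
    intro c P
    refine Set.Subsingleton.finite fun Q hQ Q' hQ' => ?_
    have h1 : g c Q = g c Q' := Eq.trans hQ (Eq.symm hQ')
    have h2 : (if c.1 then -Q else Q) = (if c.1 then -Q' else Q') := add_right_cancel h1
    by_cases hc : c.1 = true
    · rw [if_pos hc, if_pos hc] at h2
      exact neg_injective h2
    · rwa [if_neg hc, if_neg hc] at h2
  obtain ⟨R', hR', -, h1⟩ := exists_gi hRe i g hg (Z := ∅) Set.finite_empty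
  refine ⟨R', fun j => ?_, fun e => ?_⟩
  · rcases eq_or_ne j i with rfl | hj
    · rw [Function.update_self]
      exact hR'
    · rw [Function.update_of_ne hj]
      exact hR j
  · rw [the_sg, the_il]
    have h2 := h1 (e i, false) e
    have h3 := h1 (e i, true) e
    have e2 : g (e i, false) R' = if e i then -R' else R' := add_zero _
    have e3 : g (e i, true) R' = (if e i then -R' else R') + uq Ω y := rfl
    rw [e2] at h2
    rw [e3] at h3
    exact ⟨h2, h3⟩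

private theorem the_supp {R : ∀ i, Pt (W i) Ω} {i : Fin n} {y : Pt (W i) Ω}
    (h : Okr Φ R i y) : ∀ Q ∈ (Bb R i y).support, Q ∈ Dn W Φ Ω := by
  classical
  intro Q hQ
  have h1 : ∑ e : Fin n → Bool, (Finsupp.single (sg R e + il i y) 1 -
      Finsupp.single (sg R e) 1 : (∀ i, Pt (W i) Ω) →₀ ℤ) Q ≠ 0 := by
    rw [← Finsupp.finsetSum_apply]
    exact Finsupp.mem_support_iff.1 hQ
  obtain ⟨e, -, he⟩ := Finset.exists_ne_zero_of_sum_ne_zero h1
  rw [Finsupp.sub_apply, Finsupp.single_apply, Finsupp.single_apply] at he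
  by_cases h2 : sg R e + il i y = Q
  · rw [← h2]
    exact (h.2 e).2
  · rw [if_neg h2] at he
    by_cases h3 : sg R e = Q
    · rw [← h3]
      exact (h.2 e).1
    · rw [if_neg h3] at he
      exact absurd (sub_self _) he

/-- **The cycles.** Proof: `exists_gr`: `R`; for every `i` and `y` choose `R'` by `exists_gi` for the maps `Q ↦ Q`, `- Q`, `Q + y`, `- Q + y`: `Okr Φ (Function.update R i R') i y`; `B i y = Bb (Function.update R i R') i y`: `bb_D0`, `bb_pr`, `bb_ne`. The last part: `add_bb` for `y`, `y + m u`, `u`; `2 ^ k` is prime to `m`. -/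
theorem exists_th (hD : Dom f W Φ h D) (o : (GX.Xf f).pt Ω) (hne : (Dn W Φ Ω).Nonempty) :
    ∃ B : ∀ i, Pt (W i) F → ((∀ j, Pt (W j) Ω) →₀ ℤ), ∀ i y,
      B i y ∈ (Vpi fun i => Ev (W i)).D0 F Ω ∧ (∀ Q ∈ (B i y).support, Q ∈ Dn W Φ Ω) ∧
      (Finsupp.mapDomain ((pr (V := fun i => Ev (W i)) i).f Ω) (B i y) -
        2 ^ n • (Finsupp.single (uq Ω y) 1 - Finsupp.single 0 1 : (Ev (W i)).pt Ω →₀ ℤ) ∈
          (Ev (W i)).ratEq F Ω) ∧
      (∀ j, j ≠ i → Finsupp.mapDomain ((pr (V := fun i => Ev (W i)) j).f Ω) (B i y) = 0) ∧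
      Finsupp.mapDomain (fv o Φ) (B i y) ∈ (GX.Xf f).D0 F Ω ∧
      ∀ m : ℕ, Odd m → ∀ u : Pt (W i) F, ∃ t ∈ (GX.Xf f).D0 F Ω,
        Finsupp.mapDomain (fv o Φ) (B i (y + m • u)) - Finsupp.mapDomain (fv o Φ) (B i y) -
          m • t ∈ (GX.Xf f).ratEq F Ω := by
  obtain ⟨R, hR, hRe⟩ := exists_gr hne
  have key := fun i (y : Pt (W i) F) => the_okr (Φ := Φ) hR hRe i y
  choose r hr using key
  refine ⟨fun i y => Bb (Function.update R i (r i y)) i (uq Ω y), fun i y => ?_⟩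
  refine ⟨bb_D0 (hr i y).1 i y, the_supp (hr i y), bb_pr (hr i y).1 i y,
    fun j hj => bb_ne _ hj _, okr_D0 hD o (hr i y), fun m hm u => ?_⟩
  obtain ⟨k, hk⟩ := add_bb hD o R hR hRe i (m := m) (y := y) (y' := y + m • u) (u := u) rfl
    (hr i (y + m • u)) (hr i y) (hr i u)
  obtain ⟨A, hA⟩ : ∃ A, A = Finsupp.mapDomain (fv (f := f) o Φ)
    (Bb (Function.update R i (r i (y + m • u))) i (uq Ω (y + m • u))) := ⟨_, rfl⟩
  obtain ⟨A', hA'⟩ : ∃ A, A = Finsupp.mapDomain (fv (f := f) o Φ)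
    (Bb (Function.update R i (r i y)) i (uq Ω y)) := ⟨_, rfl⟩
  obtain ⟨T, hT⟩ : ∃ A, A = Finsupp.mapDomain (fv (f := f) o Φ)
    (Bb (Function.update R i (r i u)) i (uq Ω u)) := ⟨_, rfl⟩
  have dA : A ∈ (GX.Xf f).D0 F Ω := hA ▸ okr_D0 hD o (hr i (y + m • u))
  have dA' : A' ∈ (GX.Xf f).D0 F Ω := hA' ▸ okr_D0 hD o (hr i y)
  have dT : T ∈ (GX.Xf f).D0 F Ω := hT ▸ okr_D0 hD o (hr i u)
  rw [← hA, ← hA', ← hT] at hk
  change ∃ t ∈ (GX.Xf f).D0 F Ω, Finsupp.mapDomain (fv (f := f) o Φ)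
    (Bb (Function.update R i (r i (y + m • u))) i (uq Ω (y + m • u))) -
      Finsupp.mapDomain (fv (f := f) o Φ) (Bb (Function.update R i (r i y)) i (uq Ω y)) -
        m • t ∈ (GX.Xf f).ratEq F Ω
  rw [← hA, ← hA']
  have hc : m.Coprime (2 ^ k) := (Nat.coprime_two_right.2 hm).pow_right k
  have hb : (m : ℤ) * Nat.gcdA m (2 ^ k) + (2 ^ k : ℕ) * Nat.gcdB m (2 ^ k) = 1 := by
    have h3 := Nat.gcd_eq_gcd_ab m (2 ^ k)
    rw [hc.gcd_eq_one] at h3
    exact_mod_cast h3.symm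
  refine ⟨Nat.gcdA m (2 ^ k) • (A - A') + (Nat.gcdB m (2 ^ k) * (2 ^ k : ℕ)) • T,
    add_mem (zsmul_mem (sub_mem dA dA') _) (zsmul_mem dT _), ?_⟩
  have h3 := zsmul_mem hk (Nat.gcdB m (2 ^ k))
  have e : Nat.gcdB m (2 ^ k) • 2 ^ k • (A - A' - m • T) = A - A' -
      m • (Nat.gcdA m (2 ^ k) • (A - A') + (Nat.gcdB m (2 ^ k) * (2 ^ k : ℕ)) • T) := by
    have h4 : A - A' - m • (Nat.gcdA m (2 ^ k) • (A - A') +
        (Nat.gcdB m (2 ^ k) * (2 ^ k : ℕ)) • T) =
        ((m : ℤ) * Nat.gcdA m (2 ^ k) + (2 ^ k : ℕ) * Nat.gcdB m (2 ^ k)) • (A - A') -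
          m • (Nat.gcdA m (2 ^ k) • (A - A') +
            (Nat.gcdB m (2 ^ k) * (2 ^ k : ℕ)) • T) := by rw [hb, one_smul]
    rw [h4]
    module
  rw [e] at h3
  exact h3

end DN.Q
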